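import Pool.Agent.U349.OB.Orbit

/-!
# Rational numbers with denominators `61 ^ t` in base 10
-/

set_option autoImplicit false

namespace Pool.Agent.U349.OB

open Finset Filter Topology

lemma ord61 : orderOf (10 : ZMod 61) = 60 := by
  apply orderOf_eq_of_pow_and_pow_div_prime (by norm_num)
  · decide
  · intro p hp hd
    have hp' : p ∣ 2 ^ 2 * (3 * 5) := by simpa using hd
    have h1 : p = 2 ∨ p = 3 ∨ p = 5 := by
      rcases (Nat.Prime.dvd_mul hp).1 hp' with h | h
      · left; exact (Nat.prime_dvd_prime_iff_eq hp Nat.prime_two).1 (hp.dvd_of_dvd_pow h)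
      · rcases (Nat.Prime.dvd_mul hp).1 h with h | h
        · right; left; exact (Nat.prime_dvd_prime_iff_eq hp Nat.prime_three).1 h
        · right; right; exact (Nat.prime_dvd_prime_iff_eq hp Nat.prime_five).1 h
    rcases h1 with rfl | rfl | rfl <;> decide

lemma ord_dvd (t k : ℕ) (hk : (10 : ZMod (61 ^ (t + 1))) ^ k = 1) : 60 * 61 ^ t ∣ k := by
  have h60 : 60 ∣ k := by
    rw [← ord61]
    apply orderOf_dvd_of_pow_eq_one
    have h := congrArg (ZMod.castHom (dvd_pow_self 61 (Nat.succ_ne_zero t)) (ZMod 61)) hk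
    rw [map_pow, map_one, map_ofNat] at h
    exact h
  obtain ⟨k', rfl⟩ := h60
  have hprime : Nat.Prime 61 := by norm_num
  obtain ⟨N, hN1, hN2⟩ : ∃ N : ℤ, 1 + 61 * N = 10 ^ 60 ∧ ¬ ((61 : ℕ) : ℤ) ∣ N :=
    ⟨(10 ^ 60 - 1) / 61, by norm_num, by norm_num⟩
  have ho := ZMod.orderOf_one_add_mul_prime hprime (by norm_num) N hN2 t
  have h10 : (1 + ((61 : ℕ) : ZMod (61 ^ (t + 1))) * (N : ZMod (61 ^ (t + 1)))) = 10 ^ 60 := by
    have h2 := congrArg (Int.cast : ℤ → ZMod (61 ^ (t + 1))) hN1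
    rw [Int.cast_add, Int.cast_mul, Int.cast_pow, Int.cast_one] at h2
    exact_mod_cast h2
  rw [h10] at ho
  have h2 : 61 ^ t ∣ k' := by
    rw [← ho]
    apply orderOf_dvd_of_pow_eq_one
    rw [← pow_mul]
    exact hk
  exact Nat.mul_dvd_mul_left 60 h2

lemma cop61 (t a : ℕ) : Nat.Coprime (61 ^ (t + 1)) a ↔ ¬ 61 ∣ a := by
  have hprime : Nat.Prime 61 := by norm_num
  rw [Nat.coprime_pow_left_iff (by omega), Nat.Prime.coprime_iff_not_dvd hprime]

lemma inj61 (t u : ℕ) (hu : ¬ 61 ∣ u) :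
    Set.InjOn (fun i => u * 10 ^ i % 61 ^ (t + 1)) (range (60 * 61 ^ t) : Set ℕ) := by
  have key : ∀ i j : ℕ, i ≤ j → i < 60 * 61 ^ t → j < 60 * 61 ^ t →
      u * 10 ^ i % 61 ^ (t + 1) = u * 10 ^ j % 61 ^ (t + 1) → i = j := by
    intro i j hij hi hj h
    have h1 : ((u * 10 ^ i : ℕ) : ZMod (61 ^ (t + 1))) = ((u * 10 ^ j : ℕ) : ZMod (61 ^ (t + 1))) :=
      (ZMod.natCast_eq_natCast_iff' _ _ _).2 h
    have hunit : IsUnit ((u * 10 ^ i : ℕ) : ZMod (61 ^ (t + 1))) := by
      rw [ZMod.isUnit_iff_coprime, Nat.coprime_comm, cop61]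
      intro h'
      have hprime : Nat.Prime 61 := by norm_num
      rcases (Nat.Prime.dvd_mul hprime).1 h' with h'' | h''
      · exact hu h''
      · have := hprime.dvd_of_dvd_pow h''
        norm_num at this
    have h2 : (10 : ZMod (61 ^ (t + 1))) ^ (j - i) = 1 := by
      have h3 : u * 10 ^ j = u * 10 ^ i * 10 ^ (j - i) := by
        rw [mul_assoc, ← pow_add]; congr 2; omega
      rw [h3] at h1
      have h4 : ((u * 10 ^ i : ℕ) : ZMod (61 ^ (t + 1))) * 1 =
          ((u * 10 ^ i : ℕ) : ZMod (61 ^ (t + 1))) * ((10 ^ (j - i) : ℕ) : ZMod (61 ^ (t + 1))) := by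
        rw [mul_one, ← Nat.cast_mul]; exact h1
      have h5 := hunit.mul_left_cancel h4
      push_cast at h5
      exact h5.symm
    have h3 := ord_dvd t _ h2
    by_contra hne
    have := Nat.le_of_dvd (by omega) h3
    omega
  intro i hi j hj h
  rw [coe_range, Set.mem_Iio] at hi hj
  rcases le_total i j with hij | hij
  · exact key i j hij hi hj h
  · exact (key j i hij hj hi h.symm).symm

lemma count1 (m d : ℕ) (hd : d < 10) :
    #{a ∈ range (10 * m + 1) | 10 * a / (10 * m + 1) = d} = m + if d = 0 then 1 else 0 := by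
  by_cases h0 : d = 0
  · subst h0
    rw [if_pos rfl]
    have : ({a ∈ range (10 * m + 1) | 10 * a / (10 * m + 1) = 0} : Finset ℕ) = range (m + 1) := by
      ext a
      rw [mem_filter, mem_range, mem_range, Nat.div_eq_zero_iff]
      omega
    rw [this, card_range]
  · rw [if_neg h0]
    have : ({a ∈ range (10 * m + 1) | 10 * a / (10 * m + 1) = d} : Finset ℕ) =
        Ico (d * m + 1) ((d + 1) * m + 1) := by
      ext a
      rw [mem_filter, mem_range, mem_Ico, Nat.div_eq_iff (by omega)]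
      have : d ≤ 9 := by omega
      interval_cases d <;> omega
    rw [this, Nat.card_Ico]
    have : (d + 1) * m = d * m + m := by ring
    omega

lemma mod10 (t : ℕ) : ∃ m, 61 ^ t = 10 * m + 1 := by
  induction t with
  | zero => exact ⟨0, by norm_num⟩
  | succ t ih =>
    obtain ⟨m, hm⟩ := ih
    exact ⟨61 * m + 6, by rw [pow_succ, hm]; ring⟩

lemma count2 (t d : ℕ) (hd : d < 10) :
    #{a ∈ range (61 ^ (t + 1)) | Nat.Coprime (61 ^ (t + 1)) a ∧ 10 * a / 61 ^ (t + 1) = d} =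
      6 * 61 ^ t := by
  obtain ⟨m, hm⟩ := mod10 (t + 1)
  obtain ⟨m', hm'⟩ := mod10 t
  have h1 := count1 m d hd
  have h2 := count1 m' d hd
  rw [← hm] at h1
  rw [← hm'] at h2
  have h3 : ({a ∈ range (61 ^ (t + 1)) | 10 * a / 61 ^ (t + 1) = d} : Finset ℕ) =
      {a ∈ range (61 ^ (t + 1)) | Nat.Coprime (61 ^ (t + 1)) a ∧ 10 * a / 61 ^ (t + 1) = d} ∪
      ({a ∈ range (61 ^ t) | 10 * a / 61 ^ t = d}).image (fun a => 61 * a) := by
    ext a
    rw [mem_union, mem_image, mem_filter, mem_filter]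
    constructor
    · rintro ⟨ha1, ha2⟩
      by_cases h : 61 ∣ a
      · right
        obtain ⟨a', rfl⟩ := h
        refine ⟨a', ?_, rfl⟩
        rw [mem_filter, mem_range]
        rw [mem_range, pow_succ'] at ha1
        refine ⟨by omega, ?_⟩
        have : 10 * (61 * a') / 61 ^ (t + 1) = 10 * a' / 61 ^ t := by
          rw [pow_succ', show 10 * (61 * a') = 61 * (10 * a') by ring,
            Nat.mul_div_mul_left _ _ (by norm_num)]
        rw [← this]; exact ha2
      · left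
        exact ⟨ha1, (cop61 t a).2 h, ha2⟩
    · rintro (⟨h1, _, h2⟩ | ⟨a', ha', rfl⟩)
      · exact ⟨h1, h2⟩
      · rw [mem_filter, mem_range] at ha'
        rw [mem_range, pow_succ']
        refine ⟨by omega, ?_⟩
        rw [show 10 * (61 * a') = 61 * (10 * a') by ring,
            Nat.mul_div_mul_left _ _ (by norm_num)]
        exact ha'.2
  have h4 : Disjoint ({a ∈ range (61 ^ (t + 1)) | Nat.Coprime (61 ^ (t + 1)) a ∧
      10 * a / 61 ^ (t + 1) = d} : Finset ℕ)
      (({a ∈ range (61 ^ t) | 10 * a / 61 ^ t = d}).image (fun a => 61 * a)) := by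
    rw [disjoint_left]
    intro a ha ha'
    rw [mem_filter, cop61] at ha
    rw [mem_image] at ha'
    obtain ⟨a', _, rfl⟩ := ha'
    exact ha.2.1 (dvd_mul_right _ _)
  rw [h3, card_union_of_disjoint h4, card_image_of_injective _ (fun a b h => by
    have : 61 * a = 61 * b := h
    omega), h2] at h1
  have h5 : 61 ^ (t + 1) = 61 * 61 ^ t := pow_succ' _ _
  omega

/-- the digits of `u / 61 ^ (t+1)` over one period -/
lemma count3 (t u d : ℕ) (hu : ¬ 61 ∣ u) (hd : d < 10) :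
    #{i ∈ range (60 * 61 ^ t) | 10 * (u * 10 ^ i % 61 ^ (t + 1)) / 61 ^ (t + 1) = d} = 6 * 61 ^ t := by
  have hprime : Nat.Prime 61 := by norm_num
  have himg : (range (60 * 61 ^ t)).image (fun i => u * 10 ^ i % 61 ^ (t + 1)) =
      {a ∈ range (61 ^ (t + 1)) | Nat.Coprime (61 ^ (t + 1)) a} := by
    apply eq_of_subset_of_card_le
    · intro a ha
      rw [mem_image] at ha
      obtain ⟨i, _, rfl⟩ := ha
      rw [mem_filter, mem_range]
      refine ⟨Nat.mod_lt _ (Nat.pow_pos (by norm_num)), ?_⟩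
      rw [cop61]
      intro h
      have h2 : 61 ∣ u * 10 ^ i := by
        have h3 := Nat.mod_add_div (u * 10 ^ i) (61 ^ (t + 1))
        rw [← h3]
        exact dvd_add h (Dvd.dvd.mul_right (dvd_pow_self 61 (Nat.succ_ne_zero t)) _)
      rcases (Nat.Prime.dvd_mul hprime).1 h2 with h'' | h''
      · exact hu h''
      · have := hprime.dvd_of_dvd_pow h''
        norm_num at this
    · rw [card_image_of_injOn (inj61 t u hu), card_range, ← Nat.totient_eq_card_coprime,
        Nat.totient_prime_pow_succ hprime]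
      omega
  rw [← count2 t d hd, ← filter_filter, ← himg, filter_image,
    card_image_of_injOn ((inj61 t u hu).mono (by
      intro i hi
      exact (mem_filter.1 (Finset.mem_coe.1 hi)).1))]

/-- frequencies of periodic events -/
lemma freq_periodic (p : ℕ → Prop) [DecidablePred p] (T : ℕ) (hT : 0 < T)
    (hp : ∀ i, p (i + T) ↔ p i) :
    Freq (fun n => ((#{i ∈ range n | p i} : ℕ) : ℝ)) ((#{i ∈ range T | p i} : ℕ) / (T : ℝ)) := by
  set c : ℕ := #{i ∈ range T | p i} with hc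
  have hperiod : ∀ Q i, p (i + T * Q) ↔ p i := by
    intro Q
    induction Q with
    | zero => intro i; simp
    | succ Q ih => intro i; rw [Nat.mul_succ, ← add_assoc, hp, ih]
  have hcount : ∀ Q R, #{i ∈ range (T * Q + R) | p i} = Q * c + #{i ∈ range R | p i} := by
    intro Q
    induction Q with
    | zero => intro R; simp
    | succ Q ih =>
      intro R
      have h1 : T * (Q + 1) + R = T * Q + (T + R) := by ring
      rw [h1, ih (T + R)]
      have h2 : #{i ∈ range (T + R) | p i} = c + #{i ∈ range R | p i} := by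
        rw [range_eq_Ico, ← Finset.Ico_union_Ico_eq_Ico (Nat.zero_le T) (Nat.le_add_right T R),
          filter_union, card_union_of_disjoint (disjoint_filter_filter
            (Finset.Ico_disjoint_Ico_consecutive 0 T (T + R)))]
        rw [← range_eq_Ico, ← hc]
        congr 1
        have h3 : Ico T (T + R) = (range R).image (fun i => i + T) := by
          ext i
          rw [mem_Ico, mem_image]
          constructor
          · rintro ⟨h1, h2⟩
            exact ⟨i - T, by rw [mem_range]; omega, by omega⟩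
          · rintro ⟨j, hj, rfl⟩
            rw [mem_range] at hj; omega
        rw [h3, filter_image, card_image_of_injective _ (fun a b h => by
          have : a + T = b + T := h
          omega)]
        congr 1
        exact filter_congr fun i _ => hp i
      rw [h2]; ring
  intro ε hε
  obtain ⟨n0, hn0⟩ := exists_nat_gt ((T : ℝ) / ε)
  refine ⟨n0, fun n hn => ?_⟩
  have hTR : (0 : ℝ) < T := by exact_mod_cast hT
  have hnn : (n0 : ℝ) ≤ n := by exact_mod_cast hn
  have hTn : (T : ℝ) ≤ ε * n := by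
    rw [div_lt_iff₀ hε] at hn0
    nlinarith
  refine le_trans ?_ hTn
  have h1 := hcount (n / T) (n % T)
  rw [Nat.div_add_mod] at h1
  have h2 : #{i ∈ range (n % T) | p i} ≤ n % T := by
    refine (card_filter_le _ _).trans ?_
    rw [card_range]
  have h3 : n % T < T := Nat.mod_lt _ hT
  have h4 : c ≤ T := by
    refine (card_filter_le _ _).trans ?_
    rw [card_range]
  have h5 : (n : ℝ) = T * ((n / T : ℕ) : ℝ) + ((n % T : ℕ) : ℝ) := by
    exact_mod_cast (Nat.div_add_mod n T).symm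
  beta_reduce
  rw [h1]
  have h6 : (((n / T * c + #{i ∈ range (n % T) | p i} : ℕ) : ℝ)) - (c : ℝ) / T * n =
      (#{i ∈ range (n % T) | p i} : ℝ) - c / T * ((n % T : ℕ) : ℝ) := by
    rw [h5]; push_cast; field_simp; ring
  rw [h6]
  have h7 : (#{i ∈ range (n % T) | p i} : ℝ) ≤ T := by exact_mod_cast h2.trans h3.le
  have h8 : (c : ℝ) / T * ((n % T : ℕ) : ℝ) ≤ T := by
    have h9 : (c : ℝ) / T ≤ 1 := by
      rw [div_le_one hTR]; exact_mod_cast h4
    have h10 : ((n % T : ℕ) : ℝ) ≤ T := by exact_mod_cast h3.le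
    have h11 : (0 : ℝ) ≤ ((n % T : ℕ) : ℝ) := Nat.cast_nonneg _
    nlinarith
  have h12 : (0 : ℝ) ≤ (c : ℝ) / T * ((n % T : ℕ) : ℝ) := by positivity
  have h13 : (0 : ℝ) ≤ (#{i ∈ range (n % T) | p i} : ℝ) := Nat.cast_nonneg _
  rw [abs_le]
  constructor <;> linarith

/-- `u / 61 ^ (t+1)` is simply normal in base 10 -/
theorem sn61 (t u : ℕ) (hu : ¬ 61 ∣ u) : SN 10 ((u : ℝ) / (61 : ℝ) ^ (t + 1)) := by
  intro d hd
  have hM : 0 < 61 ^ (t + 1) := Nat.pow_pos (by norm_num)
  have hMR : (0 : ℝ) < ((61 ^ (t + 1) : ℕ) : ℝ) := by exact_mod_cast hM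
  have hdig : ∀ i : ℕ, ⌊((10 : ℕ) : ℝ) * ((u : ℝ) / (61 : ℝ) ^ (t + 1) * ((10 : ℕ) : ℝ) ^ i)⌋ %
      ((10 : ℕ) : ℤ) = ((10 * (u * 10 ^ i % 61 ^ (t + 1)) / 61 ^ (t + 1) : ℕ) : ℤ) := by
    intro i
    have h1 : ((10 : ℕ) : ℝ) * ((u : ℝ) / (61 : ℝ) ^ (t + 1) * ((10 : ℕ) : ℝ) ^ i) =
        ((10 * (u * 10 ^ i) : ℕ) : ℝ) / ((61 ^ (t + 1) : ℕ) : ℝ) := by
      push_cast; ring
    rw [h1, ← Int.natCast_floor_eq_floor (by positivity), Nat.floor_div_eq_div]
    have h2 : 10 * (u * 10 ^ i) / 61 ^ (t + 1) =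
        10 * (u * 10 ^ i % 61 ^ (t + 1)) / 61 ^ (t + 1) + 10 * (u * 10 ^ i / 61 ^ (t + 1)) := by
      conv_lhs => rw [← Nat.mod_add_div (u * 10 ^ i) (61 ^ (t + 1))]
      rw [mul_add, mul_left_comm, Nat.add_mul_div_left _ _ hM]
    have h3 : 10 * (u * 10 ^ i % 61 ^ (t + 1)) / 61 ^ (t + 1) < 10 := by
      rw [Nat.div_lt_iff_lt_mul hM]
      exact Nat.mul_lt_mul_of_pos_left (Nat.mod_lt _ hM) (by norm_num)
    rw [← Int.natCast_mod, h2, Nat.add_mul_mod_self_left, Nat.mod_eq_of_lt h3]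
  have h1 : Freq (fun n => ((#{i ∈ range n | 10 * (u * 10 ^ i % 61 ^ (t + 1)) / 61 ^ (t + 1) = d} : ℕ) : ℝ))
      ((#{i ∈ range (60 * 61 ^ t) | 10 * (u * 10 ^ i % 61 ^ (t + 1)) / 61 ^ (t + 1) = d} : ℕ) /
        ((60 * 61 ^ t : ℕ) : ℝ)) := by
    apply freq_periodic _ _ (by positivity)
    intro i
    have h2 : u * 10 ^ (i + 60 * 61 ^ t) % 61 ^ (t + 1) = u * 10 ^ i % 61 ^ (t + 1) := by
      have h3 : 10 ^ (60 * 61 ^ t) ≡ 1 [MOD 61 ^ (t + 1)] := by
        have h4 := Nat.ModEq.pow_totient (n := 61 ^ (t + 1)) (x := 10) (by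
          rw [Nat.coprime_comm, cop61]; norm_num)
        rw [Nat.totient_prime_pow_succ (by norm_num)] at h4
        rwa [mul_comm] at h4
      have h5 : u * 10 ^ (i + 60 * 61 ^ t) = u * 10 ^ i * 10 ^ (60 * 61 ^ t) := by
        rw [pow_add]; ring
      rw [h5]
      have := h3.mul_left (u * 10 ^ i)
      rwa [mul_one] at this
    rw [h2]
  rw [count3 t u d hu hd] at h1
  have h2 : ((6 * 61 ^ t : ℕ) : ℝ) / ((60 * 61 ^ t : ℕ) : ℝ) = 1 / ((10 : ℕ) : ℝ) := by
    push_cast; field_simp; norm_num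
  rw [h2] at h1
  convert h1 using 5 with n i
  rw [hdig]
  exact_mod_cast Iff.rfl

/-- no finite set of multipliers is enough in base 10 -/
theorem finite_not (A : Finset ℕ) (hA : ∀ k ∈ A, 1 ≤ k) :
    ∃ x : ℚ, ∀ k ∈ A, SN 10 ((k : ℝ) * (x : ℝ)) := by
  obtain ⟨s, hs⟩ : ∃ s : ℕ, ∀ k ∈ A, k < 61 ^ s := by
    refine ⟨A.sup id, fun k hk => ?_⟩
    have h1 : k ≤ A.sup id := le_sup (f := id) hk
    exact lt_of_le_of_lt h1 (Nat.lt_pow_self (by norm_num))
  refine ⟨1 / 61 ^ s, fun k hk => ?_⟩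
  obtain ⟨i, u, hu, hku⟩ := Nat.exists_eq_pow_mul_and_not_dvd (by have := hA k hk; omega : k ≠ 0) 61 (by norm_num)
  have hu1 : 1 ≤ u := by
    rcases Nat.eq_zero_or_pos u with h0 | h0
    · rw [h0] at hu; simp at hu
    · exact h0
  have his : i < s := by
    by_contra h
    push Not at h
    have h1 : 61 ^ s ≤ 61 ^ i := Nat.pow_le_pow_right (by norm_num) h
    have h2 := hs k hk
    rw [hku] at h2
    nlinarith
  have h1 : (k : ℝ) * ((1 / 61 ^ s : ℚ) : ℝ) = (u : ℝ) / (61 : ℝ) ^ (s - i - 1 + 1) := by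
    have h2 : (61 : ℝ) ^ s = 61 ^ i * 61 ^ (s - i - 1 + 1) := by
      rw [← pow_add]; congr 1; omega
    rw [hku]
    push_cast
    rw [h2]
    field_simp
  rw [h1]
  exact sn61 _ u hu

end Pool.Agent.U349.OB
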