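import Pool.Agent.U349.OB.Orbit

/-!
# Sparse sets of multipliers
-/

set_option autoImplicit false

namespace Pool.Agent.U349.OB

open Finset Filter Topology

lemma word_cell (b : ℕ) (hb : 0 < b) (x : ℝ) (i k : ℕ) (w : ℕ → ℕ) (hw : ∀ j, w j < b) :
    (∀ j : Fin k, ⌊x * (b : ℝ) ^ (i + 1 + (j : ℕ))⌋ % (b : ℤ) = ((w j : ℕ) : ℤ)) ↔
      ⌊((b ^ k : ℕ) : ℝ) * (x * (b : ℝ) ^ i)⌋ % ((b ^ k : ℕ) : ℤ) = (V b k w : ℤ) := by
  rw [← word_iff b hb (x * (b : ℝ) ^ i) w hw k]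
  have key : ∀ j : ℕ, (b : ℝ) ^ (j + 1) * (x * (b : ℝ) ^ i) = x * (b : ℝ) ^ (i + 1 + j) := by
    intro j
    rw [pow_add, pow_add, pow_add]; ring
  constructor
  · intro h j hj
    rw [key]
    exact h ⟨j, hj⟩
  · intro h j
    rw [← key]
    exact h j j.2

theorem cellN_iff (b : ℕ) (hb : 0 < b) (x : ℝ) :
    CellN b x ↔ ∀ k : ℕ, 0 < k → ∀ w : Fin k → Fin b,
      Tendsto (fun n : ℕ => ((#{i ∈ range n | ∀ j : Fin k,
        ⌊x * (b : ℝ) ^ (i + 1 + (j : ℕ))⌋ % (b : ℤ) = ((w j : ℕ) : ℤ)} : ℕ) : ℝ) / (n : ℝ)) atTop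
        (𝓝 (1 / (b : ℝ) ^ k)) := by
  constructor
  · intro h k hk w
    set w' : ℕ → ℕ := fun j => if hj : j < k then (w ⟨j, hj⟩ : ℕ) else 0 with hw'
    have hw'b : ∀ j, w' j < b := by
      intro j
      by_cases hj : j < k
      · simp only [hw', hj, dif_pos]; exact (w ⟨j, hj⟩).2
      · simp only [hw', hj, dif_neg, not_false_eq_true]; exact hb
    have h1 := (freq_iff _ _).1 (h k hk (V b k w') (V_lt b w' hw'b k))
    convert h1 using 7 with n i
    rw [← word_cell b hb x i k w' hw'b]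
    have : ∀ j : Fin k, w' j = (w j : ℕ) := by
      intro j
      simp only [hw', j.2, dif_pos]
    simp only [this]
  · intro h k hk W hW
    obtain ⟨w, hw, rfl⟩ := V_surj b hb k W hW
    rw [freq_iff]
    convert h k hk (fun j => ⟨w j, hw j⟩) using 7 with n i
    rw [← word_cell b hb x i k w hw]

theorem SN_iff (b : ℕ) (x : ℝ) :
    SN b x ↔ ∀ d : Fin b, Tendsto (fun n : ℕ => ((#{i ∈ range n |
        ⌊x * (b : ℝ) ^ (i + 1)⌋ % (b : ℤ) = ((d : ℕ) : ℤ)} : ℕ) : ℝ) / (n : ℝ)) atTop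
        (𝓝 (1 / (b : ℝ))) := by
  have key : ∀ i : ℕ, (b : ℝ) * (x * (b : ℝ) ^ i) = x * (b : ℝ) ^ (i + 1) := by
    intro i; rw [pow_succ]; ring
  constructor
  · intro h d
    have := (freq_iff _ _).1 (h d d.2)
    simp only [key] at this
    exact this
  · intro h d hd
    rw [freq_iff]
    simp only [key]
    exact h ⟨d, hd⟩

/-- normality implies simple normality of all multiples -/
theorem SN_of_cellN (b : ℕ) (hb : 2 ≤ b) (x : ℝ) (hx : CellN b x) (k : ℕ) (hk : 1 ≤ k) :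
    SN b (k * x) :=
  sn_of_weyl b hb x (fun h hh ε hε => weyl_of_cellN b hb x hx h hh ε hε) k hk

lemma strictMono_gap (a : ℕ → ℕ) (ha : StrictMono a) (q n : ℕ) : a q + n ≤ a (q + n) := by
  induction n with
  | zero => exact le_rfl
  | succ n ih =>
    have := ha (Nat.lt_succ_self (q + n))
    have h2 : q + (n + 1) = (q + n).succ := rfl
    rw [h2]
    omega

/-- explicit sparse families -/
theorem explicit (b : ℕ) (hb : 3 ≤ b) (f : ℕ → ℕ) (hf : Tendsto f atTop atTop) (a : ℕ → ℕ)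
    (ha : StrictMono a) (x : ℝ)
    (hx : ∀ p q, q < p → ∀ k : ℕ, 1 ≤ k → k ≤ f (a p - a q) → ¬ b ∣ k →
      SN b (((k * (b ^ (a p - a q) - 1) : ℕ) : ℝ) * x)) : CellN b x := by
  refine criterion b hb x ?_
  intro h K P hh hbh
  obtain ⟨m0, hm0⟩ := eventually_atTop.1 (hf.eventually_ge_atTop (K * h))
  set M := max m0 1 with hM
  have hM1 : 1 ≤ M := le_max_right _ _
  refine ⟨fun p => a (M * p), fun p q hqp _ => ?_⟩
  have hgap : a (M * q) + M ≤ a (M * p) := by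
    have h1 := strictMono_gap a ha (M * q) (M * (p - q))
    have h2 : M * q + M * (p - q) = M * p := by
      rw [← Nat.mul_add]; congr 1; omega
    rw [h2] at h1
    have h3 : M * 1 ≤ M * (p - q) := Nat.mul_le_mul_left _ (by omega)
    omega
  refine ⟨by beta_reduce; omega, fun k hk1 hk2 hk3 => ?_⟩
  refine hx (M * p) (M * q) (by nlinarith) (k * h) (Nat.mul_pos hk1 hh) ?_ ?_
  · refine le_trans (Nat.mul_le_mul_right _ hk2) (hm0 _ ?_)
    have : m0 ≤ M := le_max_left _ _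
    omega
  · intro hd
    exact hbh (Nat.Coprime.dvd_of_dvd_mul_left hk3.symm hd)

/-- arbitrarily sparse sets of multipliers, the same for all bases -/
theorem sparse (g : ℕ → ℕ) (hg : Tendsto g atTop atTop) : ∃ A : Set ℕ, (∀ k ∈ A, 1 ≤ k) ∧
    (∀ X : ℕ, (A ∩ Set.Icc 1 X).ncard ≤ g X) ∧
    ∀ b : ℕ, 3 ≤ b → ∀ x : ℝ, (∀ k ∈ A, ¬ b ∣ k → SN b (k * x)) → CellN b x := by
  obtain ⟨q, hq⟩ := exists_surjective_nat (ℕ × ℕ × ℕ × ℕ)
  set B : ℕ → ℕ := fun r => (q r).1 with hB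
  set h : ℕ → ℕ := fun r => (q r).2.1 with hh
  set K : ℕ → ℕ := fun r => (q r).2.2.1 with hK
  set P : ℕ → ℕ := fun r => (q r).2.2.2 with hP
  have hT : ∀ r : ℕ, ∃ T : ℕ, r + 1 ≤ T ∧ ∀ X, T ≤ X → ∑ r' ∈ range (r + 1), K r' * P r' ≤ g X := by
    intro r
    obtain ⟨T, hT⟩ := eventually_atTop.1 (hg.eventually_ge_atTop (∑ r' ∈ range (r + 1), K r' * P r'))
    exact ⟨max T (r + 1), le_max_right _ _, fun X hX => hT X (le_trans (le_max_left _ _) hX)⟩
  choose T hT1 hT2 using hT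
  set F : ℕ → Finset ℕ := fun r => (Icc 1 (K r) ×ˢ Ico 1 (P r)).image
    (fun km => km.1 * h r * (B r ^ (T r * km.2) - 1)) with hF
  have hFcard : ∀ r, #(F r) ≤ K r * P r := by
    intro r
    refine card_image_le.trans ?_
    rw [card_product, Nat.card_Icc, Nat.card_Ico]
    exact Nat.mul_le_mul (by omega) (by omega)
  have hFge : ∀ r, 3 ≤ B r → 1 ≤ h r → ∀ N ∈ F r, T r ≤ N := by
    intro r hBr hhr N hN
    simp only [hF, mem_image, mem_product, mem_Icc, mem_Ico, Prod.exists] at hN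
    obtain ⟨k, m, ⟨⟨hk1, _⟩, hm1, _⟩, rfl⟩ := hN
    have h1 : T r < 2 ^ T r := Nat.lt_two_pow_self
    have h2 : 2 ^ T r ≤ B r ^ (T r * m) := by
      calc 2 ^ T r ≤ B r ^ T r := Nat.pow_le_pow_left (by omega) _
        _ ≤ B r ^ (T r * m) := Nat.pow_le_pow_right (by omega) (Nat.le_mul_of_pos_right _ hm1)
    have h3 : 1 ≤ k * h r := Nat.mul_pos hk1 hhr
    calc T r ≤ 1 * (B r ^ (T r * m) - 1) := by omega
      _ ≤ _ := Nat.mul_le_mul_right _ h3
  refine ⟨{N | ∃ r, 3 ≤ B r ∧ 1 ≤ h r ∧ N ∈ F r}, ?_, ?_, ?_⟩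
  · rintro N ⟨r, h1, h2, h3⟩
    have := hFge r h1 h2 N h3
    have := hT1 r
    omega
  · intro X
    classical
    set R : Finset ℕ := {r ∈ range X | T r ≤ X} with hR
    have hsub : {N | ∃ r, 3 ≤ B r ∧ 1 ≤ h r ∧ N ∈ F r} ∩ Set.Icc 1 X ⊆ (↑(R.biUnion F) : Set ℕ) := by
      rintro N ⟨⟨r, h1, h2, h3⟩, _, hNX⟩
      rw [Finset.mem_coe, mem_biUnion]
      have := hFge r h1 h2 N h3
      have := hT1 r
      exact ⟨r, by rw [hR, mem_filter, mem_range]; exact ⟨by omega, by omega⟩, h3⟩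
    refine (Set.ncard_le_ncard hsub (Finset.finite_toSet _)).trans ?_
    rw [Set.ncard_coe_finset]
    rcases R.eq_empty_or_nonempty with hR0 | hR0
    · rw [hR0]; simp
    · refine card_biUnion_le.trans ?_
      have hmem := (mem_filter.1 (hR ▸ R.max'_mem hR0 : R.max' hR0 ∈ {r ∈ range X | T r ≤ X}))
      refine le_trans ?_ (hT2 (R.max' hR0) X hmem.2)
      refine (sum_le_sum fun r _ => hFcard r).trans ?_
      refine sum_le_sum_of_subset_of_nonneg ?_ (fun _ _ _ => Nat.zero_le _)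
      intro r hr
      rw [mem_range]
      exact Nat.lt_succ_of_le (R.le_max' r hr)
  · intro b hb x hx
    refine criterion b hb x ?_
    intro h' K' P' hh' hbh'
    obtain ⟨r, hr⟩ := hq (b, h', K', P')
    have e1 : B r = b := by simp only [hB, hr]
    have e2 : h r = h' := by simp only [hh, hr]
    have e3 : K r = K' := by simp only [hK, hr]
    have e4 : P r = P' := by simp only [hP, hr]
    have hTr : 1 ≤ T r := by have := hT1 r; omega
    refine ⟨fun p => T r * p, fun p q' hqp hpP => ?_⟩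
    have hlt : T r * q' < T r * p := Nat.mul_lt_mul_of_pos_left hqp hTr
    refine ⟨hlt, fun k hk1 hk2 hk3 => ?_⟩
    have hsub : T r * p - T r * q' = T r * (p - q') := by rw [Nat.mul_sub]
    refine hx _ ⟨r, by rw [e1]; exact hb, by rw [e2]; exact hh', ?_⟩ ?_
    · simp only [hF, mem_image, mem_product, mem_Icc, mem_Ico, Prod.exists]
      refine ⟨k, p - q', ⟨⟨hk1, by rw [e3]; exact hk2⟩, by omega, by rw [e4]; omega⟩, ?_⟩
      rw [e1, e2, hsub]
    · intro hd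
      have hcop : Nat.Coprime b (b ^ (T r * p - T r * q') - 1) := by
        have hpos : 0 < T r * p - T r * q' := by omega
        have h1 : 1 ≤ b ^ (T r * p - T r * q') := Nat.one_le_pow _ _ (by omega)
        have h2 : b ∣ b ^ (T r * p - T r * q') := dvd_pow_self b (by omega)
        rw [Nat.coprime_iff_gcd_eq_one]
        have h3 : Nat.gcd b (b ^ (T r * p - T r * q') - 1) ∣ 1 := by
          have h4 : Nat.gcd b (b ^ (T r * p - T r * q') - 1) ∣ b ^ (T r * p - T r * q') :=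
            (Nat.gcd_dvd_left _ _).trans h2
          have h5 := Nat.gcd_dvd_right b (b ^ (T r * p - T r * q') - 1)
          have h6 := Nat.dvd_sub h4 h5
          rwa [Nat.sub_sub_self h1] at h6
        exact Nat.dvd_one.1 h3
      exact hbh' (Nat.Coprime.dvd_of_dvd_mul_left hk3.symm (hcop.dvd_of_dvd_mul_right hd))

end Pool.Agent.U349.OB
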