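import Pool.Agent.U349.OB.OneBit

/-!
# The one-bit criterion for arbitrary sequences
-/

set_option autoImplicit false

namespace Pool.Agent.U349.OB

open Finset Filter Topology
open Pool.Agent.H469R2.NK (e norm_e e_add e_zero conj_e)

lemma half_iff (t : ℝ) : Int.fract t < 1 / 2 ↔ ⌊((2 : ℕ) : ℝ) * t⌋ % ((2 : ℕ) : ℤ) = ((0 : ℕ) : ℤ) := by
  rw [cell_iff 2 (by norm_num) 0 (by norm_num)]
  constructor
  · intro h
    refine ⟨by simpa using Int.fract_nonneg t, by norm_num; linarith⟩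
  · rintro ⟨_, h⟩
    norm_num at h; linarith

/-- both one-bit statistics of the multiples make the exponential sum small -/
theorem weyl_of_bits (ε : ℝ) (hε : 0 < ε) : ∃ K : ℕ, ∃ δ : ℝ, 0 < δ ∧ ∀ {ι : Type} (S : Finset ι)
    (y : ι → ℝ), (∀ k : ℕ, 1 ≤ k → k ≤ K →
      |((#{i ∈ S | Int.fract (k * y i) < 1 / 2} : ℕ) : ℝ) - 1 / 2 * #S| ≤ δ * #S ∧
      |((#{i ∈ S | 1 / 4 ≤ Int.fract (k * y i) ∧ Int.fract (k * y i) < 3 / 4} : ℕ) : ℝ) - 1 / 2 * #S| ≤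
        δ * #S) → ‖∑ i ∈ S, e (y i)‖ ≤ ε * #S := by
  obtain ⟨chi₁, v₁, g₁, hv₁⟩ := good_even 2 le_rfl
  obtain ⟨K, δ, hδ, hK⟩ := weyl_of_stat g₁ good4 ε hε
  obtain ⟨δ₁, hδ₁, hs₁⟩ := St_small 2 (by norm_num) v₁ hv₁ δ hδ
  refine ⟨K, min δ₁ δ, lt_min hδ₁ hδ, ?_⟩
  intro ι S y h
  have hS : (0 : ℝ) ≤ #S := Nat.cast_nonneg _
  refine hK S y ?_ ?_
  · intro k hk1 hk2 _
    refine hs₁ S (fun i => k * y i) fun d hd => ?_
    have h1 := (h k hk1 hk2).1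
    have h2 : |((#{i ∈ S | Int.fract (k * y i) < 1 / 2} : ℕ) : ℝ) - 1 / 2 * #S| ≤ δ₁ * #S :=
      h1.trans (mul_le_mul_of_nonneg_right (min_le_left _ _) hS)
    simp only [half_iff] at h2
    have hd' : d = 0 ∨ d = 1 := by omega
    rcases hd' with rfl | rfl
    · have e1 : (#S : ℝ) / ((2 : ℕ) : ℝ) = 1 / 2 * #S := by push_cast; ring
      rw [e1]; exact h2
    · have hcomp : ((#{i ∈ S | ⌊((2 : ℕ) : ℝ) * (k * y i)⌋ % ((2 : ℕ) : ℤ) = ((1 : ℕ) : ℤ)} : ℕ) : ℝ) =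
          #S - ((#{i ∈ S | ⌊((2 : ℕ) : ℝ) * (k * y i)⌋ % ((2 : ℕ) : ℤ) = ((0 : ℕ) : ℤ)} : ℕ) : ℝ) := by
        have h3 := card_filter_add_card_filter_not (s := S)
          (fun i => ⌊((2 : ℕ) : ℝ) * (k * y i)⌋ % ((2 : ℕ) : ℤ) = ((0 : ℕ) : ℤ))
        have h4 : ({i ∈ S | ¬ ⌊((2 : ℕ) : ℝ) * (k * y i)⌋ % ((2 : ℕ) : ℤ) = ((0 : ℕ) : ℤ)} : Finset ι) =
            {i ∈ S | ⌊((2 : ℕ) : ℝ) * (k * y i)⌋ % ((2 : ℕ) : ℤ) = ((1 : ℕ) : ℤ)} := by
          refine filter_congr fun i _ => ?_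
          push_cast
          omega
        rw [h4] at h3
        have h5 : (#S : ℝ) = ((#{i ∈ S | ⌊((2 : ℕ) : ℝ) * (k * y i)⌋ % ((2 : ℕ) : ℤ) = ((0 : ℕ) : ℤ)} : ℕ) : ℝ) +
            ((#{i ∈ S | ⌊((2 : ℕ) : ℝ) * (k * y i)⌋ % ((2 : ℕ) : ℤ) = ((1 : ℕ) : ℤ)} : ℕ) : ℝ) := by
          exact_mod_cast h3.symm
        linarith
      rw [hcomp]
      have e1 : (#S : ℝ) - ((#{i ∈ S | ⌊((2 : ℕ) : ℝ) * (k * y i)⌋ % ((2 : ℕ) : ℤ) = ((0 : ℕ) : ℤ)} : ℕ) : ℝ) -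
          (#S : ℝ) / ((2 : ℕ) : ℝ) = -(((#{i ∈ S | ⌊((2 : ℕ) : ℝ) * (k * y i)⌋ % ((2 : ℕ) : ℤ) = ((0 : ℕ) : ℤ)} : ℕ) : ℝ) -
          1 / 2 * #S) := by push_cast; ring
      rw [e1, abs_neg]
      exact h2
  · intro k hk1 hk2 _
    have h2 := ((h k hk1 hk2).2).trans (mul_le_mul_of_nonneg_right (min_le_right δ₁ δ) hS)
    simp_rw [St4]
    rw [← mul_sum, norm_mul, ← Complex.ofReal_sum, Complex.norm_real, sum_sub_distrib, sum_boole,
      sum_const, nsmul_eq_mul, norm_neg, norm_div, Complex.norm_I]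
    rw [Real.norm_eq_abs, mul_comm (#S : ℝ)]
    have h3 : ‖(2 : ℂ)‖ = 2 := by norm_num
    rw [h3]
    have h4 : 0 ≤ |((#{i ∈ S | 1 / 4 ≤ Int.fract (k * y i) ∧ Int.fract (k * y i) < 3 / 4} : ℕ) : ℝ) - 1 / 2 * #S| :=
      abs_nonneg _
    linarith

/-- finite form: the discrepancy is small -/
theorem disc_of_bits (ε : ℝ) (hε : 0 < ε) : ∃ K : ℕ, ∃ δ : ℝ, 0 < δ ∧ ∀ {ι : Type} (S : Finset ι)
    (y : ι → ℝ), (∀ k : ℕ, 1 ≤ k → k ≤ K →
      |((#{i ∈ S | Int.fract (k * y i) < 1 / 2} : ℕ) : ℝ) - 1 / 2 * #S| ≤ δ * #S ∧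
      |((#{i ∈ S | 1 / 4 ≤ Int.fract (k * y i) ∧ Int.fract (k * y i) < 3 / 4} : ℕ) : ℝ) - 1 / 2 * #S| ≤
        δ * #S) → ∀ α β : ℝ, 0 ≤ α → α < β → β ≤ 1 →
        |((#{i ∈ S | α ≤ Int.fract (y i) ∧ Int.fract (y i) < β} : ℕ) : ℝ) - (β - α) * #S| ≤ ε * #S := by
  obtain ⟨H, η, hη, hH⟩ := count_of_weyl ε hε
  obtain ⟨K, δ, hδ, hK⟩ := weyl_of_bits η hη
  refine ⟨K * H, δ, hδ, ?_⟩
  intro ι S y h
  refine hH S y fun j hj1 hj2 => ?_
  refine hK S (fun i => j * y i) fun k hk1 hk2 => ?_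
  have := h (k * j) (Nat.mul_pos hk1 hj1) (Nat.mul_le_mul hk2 hj2)
  push_cast at this
  simp only [mul_assoc] at this
  exact this

/-! ### sequences -/

/-- all exponential sums are `o(N)` -/
def Weyl (u : ℕ → ℝ) : Prop := ∀ h : ℕ, 1 ≤ h → ∀ ε : ℝ, 0 < ε → ∃ N0 : ℕ, ∀ N, N0 ≤ N →
  ‖∑ n ∈ Icc 1 N, e (h * u n)‖ ≤ ε * N

lemma Weyl.mul {u : ℕ → ℝ} (hu : Weyl u) (k : ℕ) (hk : 1 ≤ k) : Weyl (fun n => k * u n) := by
  intro h hh ε hε
  obtain ⟨N0, hN0⟩ := hu (h * k) (Nat.mul_pos hh hk) ε hε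
  refine ⟨N0, fun N hN => ?_⟩
  have := hN0 N hN
  push_cast at this
  simp only [mul_assoc] at this
  exact this

lemma Weyl.interval {u : ℕ → ℝ} (hu : Weyl u) (α β : ℝ) (hα : 0 ≤ α) (hαβ : α < β) (hβ : β ≤ 1) :
    Freq (fun N => (((Icc 1 N).filter (fun n : ℕ => α ≤ Int.fract (u n) ∧
      Int.fract (u n) < β)).card : ℝ)) (β - α) := by
  intro ε hε
  obtain ⟨H, δ, hδ, hH⟩ := count_of_weyl ε hε
  obtain ⟨n0, hn0⟩ := exists_max H (fun h n => 1 ≤ h → ‖∑ i ∈ Icc 1 n, e (h * u i)‖ ≤ δ * n) (by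
    intro h _
    by_cases hh : 1 ≤ h
    · obtain ⟨n0, hn0⟩ := hu h hh δ hδ
      exact ⟨n0, fun n hn _ => hn0 n hn⟩
    · exact ⟨0, fun n _ h' => absurd h' hh⟩)
  refine ⟨n0, fun n hn => ?_⟩
  have hcard : #(Icc 1 n) = n := by rw [Nat.card_Icc]; omega
  have h1 := hH (Icc 1 n) u (by
    intro h hh1 hh2
    have := hn0 n hn h hh2 hh1
    rw [hcard]
    exact this) α β hα hαβ hβ
  rw [hcard] at h1
  exact h1

/-- equidistribution implies that the exponential sums are small -/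
lemma weyl_of_equi {u : ℕ → ℝ} (hu : ∀ α β : ℝ, 0 ≤ α → α < β → β ≤ 1 →
    Freq (fun N => (((Icc 1 N).filter (fun n : ℕ => α ≤ Int.fract (u n) ∧
      Int.fract (u n) < β)).card : ℝ)) (β - α)) : Weyl u := by
  intro h hh ε hε
  obtain ⟨M, hM⟩ := exists_nat_gt (max (h : ℝ) (4 * Real.pi * h / ε))
  have hk1 : (h : ℝ) < M := lt_of_le_of_lt (le_max_left _ _) hM
  have hk2 : 4 * Real.pi * h / ε < M := lt_of_le_of_lt (le_max_right _ _) hM
  have hMR : (0 : ℝ) < M := lt_of_le_of_lt (Nat.cast_nonneg _) hk1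
  have hM0 : 0 < M := by exact_mod_cast hMR
  have hhM : h < M := by exact_mod_cast hk1
  set δ : ℝ := ε / (2 * M) with hδ
  have hδ0 : 0 < δ := by positivity
  obtain ⟨n0, hn0⟩ := exists_max M (fun W n => W < M →
    |((#{i ∈ Icc 1 n | ⌊(M : ℝ) * u i⌋ % (M : ℤ) = (W : ℤ)} : ℕ) : ℝ) - 1 / (M : ℝ) * n| ≤ δ * n) (by
    intro W _
    by_cases hW : W < M
    · obtain ⟨n0, hn0⟩ := hu (W / M) ((W + 1 : ℕ) / M) (by positivity)
        (by
          apply div_lt_div_of_pos_right _ hMR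
          push_cast; linarith)
        (by
          rw [div_le_one hMR]
          exact_mod_cast hW) δ hδ0
      refine ⟨n0, fun n hn _ => ?_⟩
      have h1 := hn0 n hn
      have h2 : ((W + 1 : ℕ) : ℝ) / M - W / M = 1 / M := by push_cast; ring
      rw [h2] at h1
      simp only [cell_iff M hM0 W hW]
      exact h1
    · exact ⟨0, fun n _ h' => absurd h' hW⟩)
  refine ⟨n0, fun n hn => ?_⟩
  have hcard : #(Icc 1 n) = n := by rw [Nat.card_Icc]; omega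
  have h1 := weyl_of_cells (Icc 1 n) u M hM0 h
    (fun h' => by
      have := Nat.le_of_dvd (by omega) h'
      omega) δ (by
    intro W hW
    have := hn0 n hn W hW.le hW
    rw [hcard]
    have h2 : (n : ℝ) / M = 1 / M * n := by ring
    rw [h2]
    exact this)
  rw [hcard] at h1
  refine h1.trans ?_
  apply mul_le_mul_of_nonneg_right _ (Nat.cast_nonneg _)
  have h4 : (M : ℝ) * δ = ε / 2 := by rw [hδ]; field_simp
  have h5 : 2 * Real.pi * h / (M : ℝ) ≤ ε / 2 := by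
    rw [div_lt_iff₀ hε] at hk2
    rw [div_le_div_iff₀ hMR (by norm_num)]
    linarith
  linarith

/-- the statistics of the multiples make all exponential sums small -/
lemma weyl_of_freq {u : ℕ → ℝ}
    (hu : ∀ k : ℕ, 1 ≤ k →
      Freq (fun N => (((Icc 1 N).filter (fun n : ℕ => Int.fract (k * u n) < 1 / 2)).card : ℝ)) (1 / 2) ∧
      Freq (fun N => (((Icc 1 N).filter (fun n : ℕ => 1 / 4 ≤ Int.fract (k * u n) ∧
        Int.fract (k * u n) < 3 / 4)).card : ℝ)) (1 / 2)) : Weyl u := by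
  intro h hh ε hε
  obtain ⟨K, δ, hδ, hK⟩ := weyl_of_bits ε hε
  obtain ⟨n0, hn0⟩ := exists_max (K * h) (fun k n => 1 ≤ k →
      |((#{i ∈ Icc 1 n | Int.fract (k * u i) < 1 / 2} : ℕ) : ℝ) - 1 / 2 * n| ≤ δ * n ∧
      |((#{i ∈ Icc 1 n | 1 / 4 ≤ Int.fract (k * u i) ∧ Int.fract (k * u i) < 3 / 4} : ℕ) : ℝ) -
        1 / 2 * n| ≤ δ * n) (by
    intro k _
    by_cases hk : 1 ≤ k
    · obtain ⟨n1, hn1⟩ := (hu k hk).1 δ hδ
      obtain ⟨n2, hn2⟩ := (hu k hk).2 δ hδ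
      exact ⟨max n1 n2, fun n hn _ => ⟨hn1 n (le_trans (le_max_left _ _) hn),
        hn2 n (le_trans (le_max_right _ _) hn)⟩⟩
    · exact ⟨0, fun n _ h' => absurd h' hk⟩)
  refine ⟨n0, fun n hn => ?_⟩
  have hcard : #(Icc 1 n) = n := by rw [Nat.card_Icc]; omega
  have h1 := hK (Icc 1 n) (fun i => h * u i) (by
    intro k hk1 hk2
    have := hn0 n hn (k * h) (Nat.mul_le_mul_right _ hk2) (Nat.mul_pos hk1 hh)
    rw [hcard]
    push_cast at this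
    simp only [mul_assoc] at this
    exact this)
  rw [hcard] at h1
  exact h1

/-! ### examples -/

/-- geometric sums -/
lemma weyl_irr (α : ℝ) (hα : Irrational α) : Weyl (fun n => n * α) := by
  intro h hh ε hε
  set z : ℂ := e (h * α) with hz
  have hz1 : z ≠ 1 := by
    intro h1
    obtain ⟨m, hm⟩ := e_eq_one h1
    exact (hα.natCast_mul (by omega : h ≠ 0)) ⟨(m : ℚ), by push_cast; exact hm.symm⟩
  have hz2 : 0 < ‖z - 1‖ := norm_pos_iff.2 (sub_ne_zero.2 hz1)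
  obtain ⟨N0, hN0⟩ := exists_nat_gt (2 / (‖z - 1‖ * ε))
  refine ⟨N0, fun N hN => ?_⟩
  have hNN : (N0 : ℝ) ≤ N := by exact_mod_cast hN
  have h1 : ∑ n ∈ Icc 1 N, e (h * (n * α)) = z * ∑ n ∈ range N, z ^ n := by
    have h2 : Icc 1 N = (range N).image (fun i => i + 1) := by
      ext i
      rw [mem_Icc, mem_image]
      constructor
      · rintro ⟨h1, h2⟩
        exact ⟨i - 1, by rw [mem_range]; omega, by omega⟩
      · rintro ⟨j, hj, rfl⟩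
        rw [mem_range] at hj; omega
    rw [h2, sum_image (fun a _ b _ h => by
      have : a + 1 = b + 1 := h
      omega), mul_sum]
    refine sum_congr rfl fun n _ => ?_
    have : (h : ℝ) * (((n + 1 : ℕ) : ℝ) * α) = ((n + 1 : ℕ) : ℝ) * (h * α) := by ring
    rw [this, e_nat_mul, pow_succ']
  rw [h1, geom_sum_eq hz1, norm_mul, norm_div]
  have h2 : ‖z‖ = 1 := norm_e _
  have h3 : ‖z ^ N - 1‖ ≤ 2 := by
    refine (norm_sub_le _ _).trans ?_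
    rw [norm_pow, h2, one_pow, norm_one]; norm_num
  rw [h2, one_mul, div_le_iff₀ hz2]
  have h4 : 2 / (‖z - 1‖ * ε) < N := lt_of_lt_of_le hN0 hNN
  rw [div_lt_iff₀ (by positivity)] at h4
  linarith

end Pool.Agent.U349.OB
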