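import Pool.Agent.U349.OB.Pair
import Pool.Agent.R485.TransS.Box

/-!
# Normality of tuples from a statistic of the elements of a subgroup
-/

set_option autoImplicit false

namespace Pool.Agent.U349.OB

open Finset Filter Topology
open Pool.Agent.H469R2.NK (e norm_e e_add e_zero conj_e)

lemma e_eq_KD (x : ℝ) : Pool.Agent.Y933.KD.e x = e x := rfl

/-- the tuple `α` is normal to base `b` -/
def TupN (b : ℕ) {n : ℕ} (α : Fin n → ℝ) : Prop :=
  ∀ m : ℕ, 1 ≤ m → ∀ D : Fin n → Fin m → Fin b,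
    Tendsto (fun N : ℕ => (((Finset.filter (fun i : ℕ => ∀ j : Fin n, ∀ t : Fin m,
      Int.floor (α j * (b : ℝ) ^ (i + (t : ℕ))) % (b : ℤ) = (((D j t : ℕ)) : ℤ))
        (Finset.Icc 1 N)).card : ℝ) / (N : ℝ))) atTop (𝓝 (1 / (b : ℝ) ^ (m * n)))

lemma exists_finset_max {β : Type} (s : Finset β) (P : β → ℕ → Prop)
    (h : ∀ k ∈ s, ∃ n0 : ℕ, ∀ n, n0 ≤ n → P k n) : ∃ n0 : ℕ, ∀ n, n0 ≤ n → ∀ k ∈ s, P k n := by
  classical
  induction s using Finset.induction_on with
  | empty => exact ⟨0, fun n _ k hk => absurd hk (notMem_empty k)⟩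
  | insert a s _ ih =>
    obtain ⟨n1, hn1⟩ := ih fun k hk => h k (mem_insert_of_mem hk)
    obtain ⟨n2, hn2⟩ := h a (mem_insert_self a s)
    refine ⟨max n1 n2, fun n hn k hk => ?_⟩
    rcases mem_insert.1 hk with rfl | hk
    · exact hn2 n (le_trans (le_max_right _ _) hn)
    · exact hn1 n (le_trans (le_max_left _ _) hn) k hk

/-- multidimensional criterion of Weyl for orbits -/
theorem tuple_of_weyl (b : ℕ) (hb : 2 ≤ b) {d : ℕ} (α : Fin d → ℝ)
    (h : ∀ l : Fin d → ℤ, l ≠ 0 → ∀ ε : ℝ, 0 < ε → Sm b ε (∑ j, (l j : ℝ) * α j)) : TupN b α := by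
  intro m hm D
  rw [← freq_iff (fun N : ℕ => ((Finset.filter (fun i : ℕ => ∀ j : Fin d, ∀ t : Fin m,
      Int.floor (α j * (b : ℝ) ^ (i + (t : ℕ))) % (b : ℤ) = (((D j t : ℕ)) : ℤ))
        (Finset.Icc 1 N)).card : ℝ))]
  have hb0 : 0 < b := by omega
  have hM : 0 < b ^ m := Nat.pow_pos hb0
  have hMR : (0 : ℝ) < ((b ^ m : ℕ) : ℝ) := by exact_mod_cast hM
  -- the words as functions on `ℕ`
  set w : Fin d → ℕ → ℕ := fun j t => if ht : t < m then (D j ⟨t, ht⟩ : ℕ) else 0 with hw
  have hwb : ∀ j t, w j t < b := by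
    intro j t
    by_cases ht : t < m
    · simp only [hw, ht, dif_pos]; exact (D j ⟨t, ht⟩).2
    · simp only [hw, ht, dif_neg, not_false_eq_true]; exact hb0
  set W : Fin d → ℕ := fun j => V b m (w j) with hW
  have hWlt : ∀ j, W j < b ^ m := fun j => V_lt b (w j) (hwb j) m
  have hcard : ∀ N : ℕ, (Finset.filter (fun i : ℕ => ∀ j : Fin d, ∀ t : Fin m,
      Int.floor (α j * (b : ℝ) ^ (i + (t : ℕ))) % (b : ℤ) = (((D j t : ℕ)) : ℤ))
        (Finset.Icc 1 N)).card = ((range N).filter (fun i => ∀ j : Fin d,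
          (W j : ℝ) / (b ^ m : ℕ) ≤ Int.fract (α j * (b : ℝ) ^ i) ∧
          Int.fract (α j * (b : ℝ) ^ i) < ((W j + 1 : ℕ) : ℝ) / (b ^ m : ℕ))).card := by
    intro N
    have h1 : Finset.Icc 1 N = (range N).image (fun i => i + 1) := by
      ext i
      rw [mem_Icc, mem_image]
      constructor
      · rintro ⟨h1, h2⟩
        exact ⟨i - 1, by rw [mem_range]; omega, by omega⟩
      · rintro ⟨j, hj, rfl⟩
        rw [mem_range] at hj; omega
    rw [h1, filter_image, card_image_of_injective _ (fun a b h => by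
      have : a + 1 = b + 1 := h
      omega)]
    congr 1
    refine filter_congr fun i _ => ?_
    refine forall_congr' fun j => ?_
    rw [← cell_iff (b ^ m) hM (W j) (hWlt j), ← word_cell b hb0 (α j) i m (w j) (hwb j)]
    refine forall_congr' fun t => ?_
    have : w j (t : ℕ) = (D j t : ℕ) := by simp only [hw, t.2, dif_pos]
    rw [this]
  intro ε hε
  -- the parameters
  obtain ⟨K, hK⟩ := exists_nat_gt (24 * (d : ℝ) / ε)
  have hKR : (0 : ℝ) < K := lt_of_le_of_lt (by positivity) hK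
  have hK0 : 0 < K := by exact_mod_cast hKR
  set C : ℝ := (2 * (K : ℝ) ^ 3 + 1) ^ d + d * 5 with hC
  have hC0 : 0 < C := by positivity
  set Δ : ℝ := ε / (2 * C) with hΔ
  have hΔ0 : 0 < Δ := by positivity
  classical
  set H : Finset (Fin d → ℤ) := (Fintype.piFinset fun _ : Fin d =>
    Icc (-((K : ℤ) ^ 3)) ((K : ℤ) ^ 3)).filter (· ≠ 0) with hH
  obtain ⟨n0, hn0⟩ := exists_finset_max H (fun l n => ‖EE' b (∑ j, (l j : ℝ) * α j) n‖ ≤ Δ * n) (by
    intro l hl
    rw [hH, mem_filter] at hl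
    exact h l hl.2 Δ hΔ0)
  refine ⟨max n0 1, fun N hN => ?_⟩
  have hNn0 : n0 ≤ N := le_trans (le_max_left _ _) hN
  have hN1 : 1 ≤ N := le_trans (le_max_right _ _) hN
  have hbox := Pool.Agent.R485.TransS.weyl_box hK0 (range N) ⟨0, by rw [mem_range]; omega⟩
    (fun i j => α j * (b : ℝ) ^ i) Δ hΔ0.le (by
      intro l hl0 hlK
      have h1 := hn0 N hNn0 l (by
        rw [hH, mem_filter, Fintype.mem_piFinset]
        refine ⟨fun j => ?_, hl0⟩
        rw [mem_Icc]
        exact abs_le.1 (hlK j))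
      rw [card_range]
      refine le_trans (le_of_eq ?_) h1
      congr 1
      unfold EE'
      refine sum_congr rfl fun i _ => ?_
      rw [e_eq_KD, sum_mul]
      congr 1
      refine sum_congr rfl fun j _ => ?_
      ring)
    (fun j => (W j : ℝ) / (b ^ m : ℕ)) (fun j => ((W j + 1 : ℕ) : ℝ) / (b ^ m : ℕ))
    (fun j => by positivity)
    (fun j => by
      apply div_le_div_of_nonneg_right _ hMR.le
      push_cast; linarith)
    (fun j => by
      rw [div_le_one hMR]
      exact_mod_cast hWlt j)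
  have hprod : ∏ j : Fin d, (((W j + 1 : ℕ) : ℝ) / (b ^ m : ℕ) - (W j : ℝ) / (b ^ m : ℕ)) =
      1 / (b : ℝ) ^ (m * d) := by
    have : ∀ j : Fin d, (((W j + 1 : ℕ) : ℝ) / (b ^ m : ℕ) - (W j : ℝ) / (b ^ m : ℕ)) =
        1 / (b : ℝ) ^ m := by
      intro j; push_cast; ring
    simp only [this]
    rw [prod_const, card_univ, Fintype.card_fin, one_div_pow, ← pow_mul]
  rw [hprod, card_range] at hbox
  beta_reduce
  rw [hcard, mul_comm (1 / (b : ℝ) ^ (m * d))]
  refine hbox.trans ?_
  apply mul_le_mul_of_nonneg_right _ (Nat.cast_nonneg _)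
  have h1 : (2 * (K : ℝ) ^ 3 + 1) ^ d * Δ + d * (12 / K + 5 * Δ) = C * Δ + 12 * d / K := by
    rw [hC]; ring
  rw [h1]
  have h2 : C * Δ = ε / 2 := by rw [hΔ]; field_simp
  have h3 : 12 * (d : ℝ) / K ≤ ε / 2 := by
    rw [div_lt_iff₀ hε] at hK
    rw [div_le_div_iff₀ hKR (by norm_num)]
    linarith
  linarith

/-- one number is normal if the tuple of length one is normal -/
lemma cellN_of_tuple (b : ℕ) (hb : 2 ≤ b) (x : ℝ) (h : TupN b (fun _ : Fin 1 => x)) : CellN b x := by
  rw [cellN_iff b (by omega)]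
  intro k hk w
  have h1 := h k hk (fun _ => w)
  rw [mul_one] at h1
  have hcard : ∀ N : ℕ, (Finset.filter (fun i : ℕ => ∀ _ : Fin 1, ∀ t : Fin k,
      Int.floor (x * (b : ℝ) ^ (i + (t : ℕ))) % (b : ℤ) = (((w t : ℕ)) : ℤ))
        (Finset.Icc 1 N)).card = #{i ∈ range N | ∀ j : Fin k,
      ⌊x * (b : ℝ) ^ (i + 1 + (j : ℕ))⌋ % (b : ℤ) = ((w j : ℕ) : ℤ)} := by
    intro N
    have h1 : Finset.Icc 1 N = (range N).image (fun i => i + 1) := by
      ext i
      rw [mem_Icc, mem_image]
      constructor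
      · rintro ⟨h1, h2⟩
        exact ⟨i - 1, by rw [mem_range]; omega, by omega⟩
      · rintro ⟨j, hj, rfl⟩
        rw [mem_range] at hj; omega
    rw [h1, filter_image, card_image_of_injective _ (fun a b h => by
      have : a + 1 = b + 1 := h
      omega)]
    congr 1
    refine filter_congr fun i _ => ?_
    constructor
    · intro h; exact h 0
    · intro h _; exact h
  simp only [hcard] at h1
  exact h1

/-- the theorem for subgroups and testers -/
theorem subgroup_iff (b : ℕ) (hb : 2 ≤ b) (T : ℝ → Prop) (hT : Tester b T)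
    (hT' : ∀ x, CellN b x → T x) (G : AddSubgroup ℝ) :
    (∀ (n : ℕ) (α : Fin n → ℝ), (∀ j, α j ∈ G) → LinearIndependent ℚ (Matrix.vecCons (1 : ℝ) α) →
      TupN b α) ↔ ∀ x ∈ G, Irrational x → T x := by
  constructor
  · intro h x hx hirr
    apply hT'
    apply cellN_of_tuple b hb
    refine h 1 (fun _ => x) (fun _ => hx) ?_
    have hvec : (Matrix.vecCons (1 : ℝ) fun _ : Fin 1 => x) = ![1, x] := by
      funext i
      fin_cases i <;> rfl
    rw [hvec, LinearIndependent.pair_iff' one_ne_zero]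
    intro a ha
    apply hirr
    refine ⟨a, ?_⟩
    rw [← ha, Rat.smul_def, mul_one]
  · intro h n α hα hli
    refine tuple_of_weyl b hb α ?_
    intro l hl ε hε
    set y : ℝ := ∑ j, (l j : ℝ) * α j with hy
    have hyG : y ∈ G := by
      refine AddSubgroup.sum_mem _ fun j _ => ?_
      rw [← zsmul_eq_mul]
      exact AddSubgroup.zsmul_mem _ (hα j) _
    have hyirr : Irrational y := by
      rintro ⟨q, hq⟩
      obtain ⟨j0, hj0⟩ : ∃ j, l j ≠ 0 := by
        by_contra hcon
        push Not at hcon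
        exact hl (funext hcon)
      rw [Fintype.linearIndependent_iff] at hli
      have h1 := hli (Matrix.vecCons (-q) (fun j => (l j : ℚ))) (by
        rw [Fin.sum_univ_succ]
        simp only [Matrix.cons_val_zero, Matrix.cons_val_succ]
        rw [Rat.smul_def, mul_one]
        have h2 : ∑ j : Fin n, (l j : ℚ) • α j = y := by
          rw [hy]
          refine sum_congr rfl fun j _ => ?_
          rw [Rat.smul_def]; push_cast; rfl
        rw [h2, ← hq]
        push_cast; ring) j0.succ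
      simp only [Matrix.cons_val_succ] at h1
      exact hj0 (by exact_mod_cast h1)
    have hcell : CellN b y := by
      refine criterionT b hb T hT y ?_
      intro L P
      refine ⟨fun p => p, fun p q hqp _ => ⟨hqp, fun j hj1 _ _ => ?_⟩⟩
      have hpos : 0 < j * (b ^ (p - q) - 1) := by
        have h2 : 1 < b ^ (p - q) := Nat.one_lt_pow (by omega) (by omega)
        exact Nat.mul_pos hj1 (by omega)
      apply h
      · rw [← nsmul_eq_mul]
        exact AddSubgroup.nsmul_mem _ hyG _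
      · exact hyirr.natCast_mul hpos.ne'
    have := weyl_of_cellN b hb y hcell 1 le_rfl ε hε
    simpa using this

end Pool.Agent.U349.OB
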