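import Pool.Agent.U349.OB.Geo
import Pool.Agent.H429R2.Mult

/-!
# The base-6 automaton: uniformly distributed orbits of finite configurations
-/

set_option autoImplicit false

namespace Pool.Agent.U349.OB.Six

open Finset Filter Topology
open Pool.Agent.H469R2.NK (e norm_e e_add e_zero conj_e)
open Pool.Agent.H429R2.Auto

/-- `z = m / 6 ^ k > 0` -/
def D6 (z : ℝ) : Prop := ∃ m k : ℕ, 0 < m ∧ z = (m : ℝ) / 6 ^ k

lemma D6.pos {z : ℝ} (h : D6 z) : 0 < z := by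
  obtain ⟨m, k, hm, rfl⟩ := h
  have : (0 : ℝ) < m := by exact_mod_cast hm
  positivity

lemma D6.mul {z z' : ℝ} (h : D6 z) (h' : D6 z') : D6 (z * z') := by
  obtain ⟨m, k, hm, rfl⟩ := h
  obtain ⟨m', k', hm', rfl⟩ := h'
  refine ⟨m * m', k + k', Nat.mul_pos hm hm', ?_⟩
  push_cast
  rw [pow_add]
  field_simp

lemma D6.nat {k : ℕ} (hk : 1 ≤ k) : D6 (k : ℝ) := ⟨k, 0, hk, by simp⟩

lemma D6.zpow (j : ℤ) : D6 ((6 : ℝ) ^ j) := by
  rcases Int.eq_nat_or_neg j with ⟨n, rfl | rfl⟩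
  · exact ⟨6 ^ n, 0, by positivity, by simp⟩
  · exact ⟨1, n, one_pos, by simp⟩

lemma D6.diff {p q : ℕ} (h : q < p) : D6 ((3 / 2 : ℝ) ^ p - (3 / 2) ^ q) := by
  obtain ⟨d, rfl⟩ : ∃ d, p = q + d := ⟨p - q, by omega⟩
  have hd : d ≠ 0 := by omega
  have h1 : 6 ^ d < 9 ^ d := Nat.pow_lt_pow_left (by norm_num) hd
  refine ⟨9 ^ q * (9 ^ d - 6 ^ d), q + d, Nat.mul_pos (by positivity) (by omega), ?_⟩
  rw [Nat.cast_mul, Nat.cast_sub h1.le]
  push_cast
  have h3 : (3 / 2 : ℝ) = 9 / 6 := by norm_num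
  rw [h3, div_pow, div_pow, pow_add, pow_add]
  field_simp

/-- the configuration of a real number -/
noncomputable def conf (z : ℝ) : Conf := fun i => ⟨⌊(6 : ℝ) ^ i * z⌋₊ % 6, Nat.mod_lt _ (by norm_num)⟩

lemma conf_rep (z : ℝ) : Rep (conf z) z := fun _ => rfl

lemma conf_fin {z : ℝ} (h : D6 z) : IsFin (conf z) ∧ conf z ≠ 0 := by
  obtain ⟨m, k, hm, rfl⟩ := h
  constructor
  · -- the digits vanish outside `[-m, k]`
    refine (Set.finite_Icc (-(m : ℤ)) (k : ℤ)).subset ?_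
    intro i hi
    by_contra hcon
    apply hi
    rw [Set.mem_Icc, not_and_or, not_le, not_le] at hcon
    apply Fin.ext
    show ⌊(6 : ℝ) ^ i * ((m : ℝ) / 6 ^ k)⌋₊ % 6 = 0
    rcases hcon with h | h
    · have h1 : ⌊(6 : ℝ) ^ i * ((m : ℝ) / 6 ^ k)⌋₊ = 0 := by
        rw [Nat.floor_eq_zero]
        obtain ⟨n, rfl⟩ : ∃ n : ℕ, i = -(n : ℤ) := ⟨i.natAbs, by omega⟩
        have hn : m < n := by omega
        rw [zpow_neg, zpow_natCast]
        have h2 : (m : ℝ) < 6 ^ n := by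
          have : m < 6 ^ n := hn.trans (Nat.lt_pow_self (by norm_num))
          exact_mod_cast this
        have h3 : (1 : ℝ) ≤ 6 ^ k := one_le_pow₀ (by norm_num)
        rw [← div_eq_inv_mul, div_div, div_lt_one (by positivity)]
        nlinarith
      rw [h1]
    · obtain ⟨n, rfl⟩ : ∃ n : ℕ, i = (k : ℤ) + ((n + 1 : ℕ) : ℤ) := ⟨(i - k - 1).toNat, by omega⟩
      have h1 : (6 : ℝ) ^ ((k : ℤ) + ((n + 1 : ℕ) : ℤ)) * ((m : ℝ) / 6 ^ k) = ((6 * (6 ^ n * m) : ℕ) : ℝ) := by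
        rw [zpow_add₀ (by norm_num), zpow_natCast, zpow_natCast]
        push_cast
        field_simp
        ring
      rw [h1, Nat.floor_natCast]
      omega
  · intro h0
    obtain ⟨v, m', h6, hm'⟩ := Nat.exists_eq_pow_mul_and_not_dvd hm.ne' 6 (by norm_num)
    have h1 : ((conf ((m : ℝ) / 6 ^ k) ((k : ℤ) - v) : Fin 6) : ℕ) = 0 := by rw [h0]; rfl
    have h2 : ⌊(6 : ℝ) ^ ((k : ℤ) - v) * ((m : ℝ) / 6 ^ k)⌋₊ % 6 = 0 := h1
    have h3 : (6 : ℝ) ^ ((k : ℤ) - v) * ((m : ℝ) / 6 ^ k) = (m' : ℝ) := by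
      rw [zpow_sub₀ (by norm_num), zpow_natCast, zpow_natCast, hm']
      push_cast
      field_simp
    rw [h3, Nat.floor_natCast] at h2
    exact h6 (Nat.dvd_of_mod_eq_zero h2)

lemma D6_of_fin {x : Conf} (hx : IsFin x) (hx0 : x ≠ 0) : ∃ β : ℝ, D6 β ∧ Rep x β := by
  obtain ⟨m, k, h1, h2, -⟩ := exists_rep hx
  exact ⟨_, ⟨m, k, h2 hx0, rfl⟩, h1⟩

/-- the digits along the orbit -/
lemma digit {x : Conf} {β : ℝ} (hβ : 0 ≤ β) (hx : Rep x β) (n : ℕ) (j : ℤ) (i : ℕ) :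
    (((F^[n] x (j + i) : Fin 6) : ℕ) : ℤ) =
      ⌊((6 : ℕ) : ℝ) ^ (i + 1) * ((6 : ℝ) ^ (j - 1) * β * (3 / 2) ^ n)⌋ % ((6 : ℕ) : ℤ) := by
  have h1 := rep_iter hβ hx n (j + i)
  have h2 : (6 : ℝ) ^ (j + i) * ((3 / 2) ^ n * β) =
      ((6 : ℕ) : ℝ) ^ (i + 1) * ((6 : ℝ) ^ (j - 1) * β * (3 / 2) ^ n) := by
    have h3 : (6 : ℝ) ^ (j + i) = (6 : ℝ) ^ (i + 1) * (6 : ℝ) ^ (j - 1) := by
      rw [← zpow_natCast (6 : ℝ) (i + 1), ← zpow_add₀ (by norm_num)]
      congr 1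
      push_cast; ring
    rw [h3]; push_cast; ring
  rw [h1, h2]
  push_cast
  rw [Int.natCast_floor_eq_floor (by positivity)]

/-- words are cells -/
lemma word {x : Conf} {β : ℝ} (hβ : 0 ≤ β) (hx : Rep x β) (n : ℕ) (j : ℤ) (L : ℕ) (w : ℕ → ℕ)
    (hw : ∀ i, w i < 6) :
    (∀ i < L, ((F^[n] x (j + i) : Fin 6) : ℕ) = w i) ↔
      ⌊((6 ^ L : ℕ) : ℝ) * ((6 : ℝ) ^ (j - 1) * β * (3 / 2) ^ n)⌋ % ((6 ^ L : ℕ) : ℤ) = (V 6 L w : ℤ) := by
  rw [← word_iff 6 (by norm_num) _ w hw L]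
  refine forall₂_congr fun i _ => ?_
  rw [← digit hβ hx n j i]
  norm_cast

/-- in the orbit of `x` every word has the right frequency at every position -/
def Uniform (x : Conf) : Prop := ∀ (j : ℤ) (L : ℕ) (w : Fin L → Fin 6),
  Tendsto (fun N : ℕ => ((#{n ∈ range N | ∀ i : Fin L, F^[n] x (j + (i : ℕ)) = w i} : ℕ) : ℝ) / N) atTop
    (𝓝 ((1 / 6) ^ L))

/-- one third of the digits at the position `j` is `2` or `3` -/
def Third (x : Conf) (j : ℤ) : Prop :=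
  Tendsto (fun N : ℕ => ((#{n ∈ range N | F^[n] x j = 2 ∨ F^[n] x j = 3} : ℕ) : ℝ) / N) atTop
    (𝓝 (1 / 3))

/-- one half of the two-digit numbers at the positions `j, j + 1` is between `9` and `26` -/
def Half (x : Conf) (j : ℤ) : Prop :=
  Tendsto (fun N : ℕ => ((#{n ∈ range N | 9 ≤ 6 * (F^[n] x j : ℕ) + (F^[n] x (j + 1) : ℕ) ∧
    6 * (F^[n] x j : ℕ) + (F^[n] x (j + 1) : ℕ) < 27} : ℕ) : ℝ) / N) atTop (𝓝 (1 / 2))

/-! ### from one configuration -/

lemma uniform_cells {x : Conf} {β : ℝ} (hβ : 0 ≤ β) (hx : Rep x β) (hU : Uniform x) (j : ℤ)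
    (h : ℕ) (hh : 1 ≤ h) : WG (3 / 2) (h * ((6 : ℝ) ^ j * β)) := by
  refine WG_of_cells (3 / 2) ((6 : ℝ) ^ j * β) 6 (by norm_num) ?_ h hh
  intro L _ W hW
  obtain ⟨w, hw, hV⟩ := V_surj 6 (by norm_num) L W hW
  rw [freq_iff]
  have h1 := hU (j + 1) L (fun i => ⟨w i, hw i⟩)
  have h2 : (1 / 6 : ℝ) ^ L = 1 / ((6 : ℕ) : ℝ) ^ L := by rw [one_div_pow]; norm_num
  rw [h2] at h1
  refine h1.congr fun N => ?_
  congr 2
  congr 1
  refine filter_congr fun n _ => ?_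
  have h3 := word hβ hx n (j + 1) L w hw
  rw [add_sub_cancel_right, hV] at h3
  rw [← h3]
  constructor
  · intro h4 i hi
    have := congrArg Fin.val (h4 ⟨i, hi⟩)
    simpa using this
  · intro h4 i
    apply Fin.ext
    exact h4 i i.2

lemma not_uniform_zero : ¬ Uniform 0 := by
  intro h
  have h0 : ∀ n : ℕ, F^[n] (0 : Conf) = 0 := by
    intro n
    have hF : F (0 : Conf) = 0 := by
      funext i
      simp [F, mul3, shiftR, f]
    exact Function.iterate_fixed hF n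
  have h1 := h 0 1 (fun _ => 1)
  have h2 : ∀ N : ℕ, ((#{n ∈ range N | ∀ i : Fin 1, F^[n] (0 : Conf) (0 + ((i : ℕ) : ℤ)) = (1 : Fin 6)} : ℕ) : ℝ) / N = 0 := by
    intro N
    have : ({n ∈ range N | ∀ i : Fin 1, F^[n] (0 : Conf) (0 + ((i : ℕ) : ℤ)) = (1 : Fin 6)} : Finset ℕ) = ∅ := by
      rw [filter_eq_empty_iff]
      intro n _ h3
      have h4 := h3 0
      rw [h0] at h4
      exact absurd h4 (by decide)
    rw [this]; simp
  have h3 := tendsto_nhds_unique h1 ((tendsto_const_nhds (x := (0 : ℝ))).congr fun N => (h2 N).symm)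
  norm_num at h3

/-- arithmetic of the period -/
lemma period (m₀ : ℕ) (hm₀ : 0 < m₀) : ∃ D s : ℕ, 0 < D ∧ ∀ r : ℕ, m₀ ∣ 6 ^ s * (3 ^ (D * r) - 2 ^ (D * r)) := by
  obtain ⟨s, m₁, h2, h1⟩ := Nat.exists_eq_pow_mul_and_not_dvd hm₀.ne' 2 (by norm_num)
  have hm₁ : m₁ ≠ 0 := by rintro rfl; simp at h2
  obtain ⟨t, m', h3, h4⟩ := Nat.exists_eq_pow_mul_and_not_dvd hm₁ 3 (by norm_num)
  have hm' : 0 < m' := Nat.pos_of_ne_zero (by rintro rfl; simp at h3)
  have c3 : Nat.Coprime 3 m' := (Nat.Prime.coprime_iff_not_dvd Nat.prime_three).2 h3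
  have c2 : Nat.Coprime 2 m' := (Nat.Prime.coprime_iff_not_dvd Nat.prime_two).2 (by
    intro h
    exact h2 (h4 ▸ h.mul_left _))
  refine ⟨m'.totient, s + t, Nat.totient_pos.2 hm', fun r => ?_⟩
  have e3 : 3 ^ (m'.totient * r) ≡ 1 [MOD m'] := by
    rw [pow_mul]; simpa using (Nat.ModEq.pow_totient c3).pow r
  have e2 : 2 ^ (m'.totient * r) ≡ 1 [MOD m'] := by
    rw [pow_mul]; simpa using (Nat.ModEq.pow_totient c2).pow r
  have h5 : m' ∣ 3 ^ (m'.totient * r) - 2 ^ (m'.totient * r) :=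
    (Nat.modEq_iff_dvd' (Nat.pow_le_pow_left (by norm_num) _)).1 (e2.trans e3.symm)
  rw [h1, h4, ← mul_assoc]
  refine Nat.mul_dvd_mul ?_ h5
  refine Nat.dvd_trans (Nat.mul_dvd_mul (pow_dvd_pow 2 (Nat.le_add_right s t)) (pow_dvd_pow 3 (Nat.le_add_left t s))) ?_
  rw [← mul_pow]
  exact dvd_of_eq (by norm_num)

/-- differences divisible by a given number -/
lemma D6.period (b : ℕ) (hb : 0 < b) : ∃ D : ℕ, 0 < D ∧ ∀ p q : ℕ, q < p →
    D6 (((3 / 2 : ℝ) ^ (D * p) - (3 / 2) ^ (D * q)) / b) := by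
  obtain ⟨D, s, hD, hdvd⟩ := Six.period b hb
  refine ⟨D, hD, fun p q hqp => ?_⟩
  obtain ⟨r, rfl⟩ : ∃ r, p = q + r := ⟨p - q, by omega⟩
  have hr : 0 < r := by omega
  obtain ⟨c, hc⟩ := hdvd r
  have h23 : 2 ^ (D * r) < 3 ^ (D * r) := Nat.pow_lt_pow_left (by norm_num) (Nat.mul_pos hD hr).ne'
  have hc0 : 0 < c := by
    rcases Nat.eq_zero_or_pos c with h0 | h0
    · rw [h0, mul_zero] at hc
      have : 0 < 6 ^ s * (3 ^ (D * r) - 2 ^ (D * r)) := Nat.mul_pos (by positivity) (by omega)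
      omega
    · exact h0
  have hcR : (6 : ℝ) ^ s * (3 ^ (D * r) - 2 ^ (D * r)) = b * c := by
    have h5 : ((6 ^ s * (3 ^ (D * r) - 2 ^ (D * r)) : ℕ) : ℝ) = ((b * c : ℕ) : ℝ) := by rw [hc]
    rw [Nat.cast_mul, Nat.cast_sub h23.le] at h5
    push_cast at h5
    exact h5
  refine ⟨3 ^ (D * q + D * q + D * r) * c, D * q + D * r + s, by positivity, ?_⟩
  have hbR : (0 : ℝ) < b := by exact_mod_cast hb
  push_cast
  have e1 : (6 : ℝ) ^ (D * q + D * r + s) = 2 ^ (D * q) * 3 ^ (D * q) * (2 ^ (D * r) * 3 ^ (D * r)) * 6 ^ s := by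
    rw [pow_add, pow_add, ← mul_pow, ← mul_pow]; norm_num
  have e2 : (3 / 2 : ℝ) ^ (D * (q + r)) = 3 ^ (D * q) / 2 ^ (D * q) * (3 ^ (D * r) / 2 ^ (D * r)) := by
    rw [mul_add, pow_add, div_pow, div_pow]
  have e3 : (3 / 2 : ℝ) ^ (D * q) = 3 ^ (D * q) / 2 ^ (D * q) := div_pow _ _ _
  rw [e1, e2, e3, pow_add, pow_add]
  have ha3 : (0 : ℝ) < 3 ^ (D * q) := by positivity
  have ha2 : (0 : ℝ) < 2 ^ (D * q) := by positivity
  have hb2 : (0 : ℝ) < 2 ^ (D * r) := by positivity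
  have hb3 : (0 : ℝ) < 3 ^ (D * r) := by positivity
  generalize (3 : ℝ) ^ (D * q) = a at *
  generalize (2 : ℝ) ^ (D * q) = a2 at *
  generalize (2 : ℝ) ^ (D * r) = b2 at *
  generalize (3 : ℝ) ^ (D * r) = b3 at *
  have h6 : (0 : ℝ) < 6 ^ s := by positivity
  generalize (6 : ℝ) ^ s = u at *
  field_simp
  linear_combination hcR

lemma rep_eq {x : Conf} {z : ℝ} (h : Rep x z) : x = conf z := funext fun i => Fin.ext (h i)

/-- the exponential sums of all `g β` -/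
def All (β : ℝ) : Prop := ∀ g : ℝ, D6 g → WG (3 / 2) (g * β)

theorem all_of_uniform {β : ℝ} (hβ : 0 ≤ β) (hU : Uniform (conf β)) : All β := by
  rintro _ ⟨m, k, hm, rfl⟩
  have h1 := uniform_cells hβ (conf_rep β) hU (-(k : ℤ)) m hm
  have h2 : (m : ℝ) * ((6 : ℝ) ^ (-(k : ℤ)) * β) = (m : ℝ) / 6 ^ k * β := by
    rw [zpow_neg, zpow_natCast]; ring
  rwa [h2] at h1

/-- rational multiples -/
theorem All.ratio {β : ℝ} (h : All β) (a b : ℕ) (ha : 0 < a) (hb : 0 < b) :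
    All ((a : ℝ) / b * β) := by
  intro g hg
  obtain ⟨D, hD, hdiff⟩ := D6.period b hb
  refine vdcG _ _ fun P => ⟨fun p => D * p, fun p q hqp _ => ?_⟩
  have h1 := (h _ ((hdiff p q hqp).mul ((D6.nat ha).mul hg))).cos
  have h2 : ((3 / 2 : ℝ) ^ (D * p) - (3 / 2) ^ (D * q)) / b * (a * g) * β =
      ((3 / 2 : ℝ) ^ (D * p) - (3 / 2) ^ (D * q)) * (g * ((a : ℝ) / b * β)) := by ring
  rwa [h2] at h1

/-- the exponential sums give the uniform distribution -/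
theorem All.uniform {β : ℝ} (hβ : 0 ≤ β) (h : All β) : Uniform (conf β) := by
  intro j L w
  set w' : ℕ → ℕ := fun i => if h : i < L then (w ⟨i, h⟩ : ℕ) else 0 with hw'
  have hw6 : ∀ i, w' i < 6 := by
    intro i
    simp only [hw']
    split_ifs with h
    · exact (w ⟨i, h⟩).2
    · norm_num
  have hM : (0 : ℝ) < ((6 ^ L : ℕ) : ℝ) := by positivity
  have hV : V 6 L w' < 6 ^ L := V_lt 6 w' hw6 L
  have h1 := interval_of_WG (3 / 2) ((6 : ℝ) ^ (j - 1) * β) (fun k hk => by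
      rw [← mul_assoc]; exact h _ ((D6.nat hk).mul (D6.zpow _)))
    ((V 6 L w' : ℝ) / (6 ^ L : ℕ)) ((V 6 L w' + 1 : ℕ) / (6 ^ L : ℕ)) (by positivity)
    (by
      apply div_lt_div_of_pos_right _ hM
      push_cast; linarith)
    (by
      rw [div_le_one hM]
      exact_mod_cast hV)
  have h2 : ((V 6 L w' + 1 : ℕ) : ℝ) / (6 ^ L : ℕ) - V 6 L w' / (6 ^ L : ℕ) = (1 / 6) ^ L := by
    push_cast
    rw [one_div_pow]; ring
  rw [h2, freq_iff] at h1
  refine h1.congr fun N => ?_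
  congr 2
  congr 1
  refine filter_congr fun n _ => ?_
  rw [← cell_iff (6 ^ L) (by positivity) _ hV, ← word hβ (conf_rep β) n j L w' hw6]
  constructor
  · intro h3 i
    apply Fin.ext
    rw [h3 i i.2]
    simp [hw']
  · intro h3 i hi
    have := h3 ⟨i, hi⟩
    simp only at this
    rw [this]
    simp [hw', hi]

/-! ### the two events -/

lemma third_iff {x : Conf} {β : ℝ} (hβ : 0 ≤ β) (hx : Rep x β) (j : ℤ) :
    Third x j ↔ MidG (3 / 2) ((6 : ℝ) ^ (j - 1) * β) := by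
  unfold Third MidG
  rw [freq_iff]
  have h : ∀ N : ℕ, ({n ∈ range N | F^[n] x j = 2 ∨ F^[n] x j = 3} : Finset ℕ) =
      {n ∈ range N | 1 / 3 ≤ Int.fract ((6 : ℝ) ^ (j - 1) * β * (3 / 2) ^ n) ∧
        Int.fract ((6 : ℝ) ^ (j - 1) * β * (3 / 2) ^ n) < 2 / 3} := by
    intro N
    refine filter_congr fun n _ => ?_
    set y : ℝ := (6 : ℝ) ^ (j - 1) * β * (3 / 2) ^ n with hy
    have h1 := digit hβ hx n j 0
    rw [← hy] at h1
    simp only [Nat.cast_zero, add_zero, zero_add, pow_one] at h1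
    have h2 := cell_iff 6 (by norm_num) 2 (by norm_num) y
    have h3 := cell_iff 6 (by norm_num) 3 (by norm_num) y
    rw [← h1] at h2 h3
    have e2 : F^[n] x j = 2 ↔ (((F^[n] x j : Fin 6) : ℕ) : ℤ) = ((2 : ℕ) : ℤ) := by
      rw [Fin.ext_iff]; norm_cast
    have e3 : F^[n] x j = 3 ↔ (((F^[n] x j : Fin 6) : ℕ) : ℤ) = ((3 : ℕ) : ℤ) := by
      rw [Fin.ext_iff]; norm_cast
    rw [e2, e3, h2, h3]
    push_cast
    constructor
    · rintro (⟨h4, h5⟩ | ⟨h4, h5⟩)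
      · constructor <;> linarith
      · constructor <;> linarith
    · rintro ⟨h4, h5⟩
      by_cases h6 : Int.fract y < 1 / 2
      · left; constructor <;> linarith
      · right; push Not at h6; constructor <;> linarith
  simp only [h]

lemma half_iff' {x : Conf} {β : ℝ} (hβ : 0 ≤ β) (hx : Rep x β) (j : ℤ) :
    Half x j ↔ BitG (3 / 2) ((6 : ℝ) ^ (j - 1) * β) := by
  unfold Half BitG
  rw [freq_iff]
  have h : ∀ N : ℕ, ({n ∈ range N | 9 ≤ 6 * (F^[n] x j : ℕ) + (F^[n] x (j + 1) : ℕ) ∧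
    6 * (F^[n] x j : ℕ) + (F^[n] x (j + 1) : ℕ) < 27} : Finset ℕ) =
      {n ∈ range N | 1 / 4 ≤ Int.fract ((6 : ℝ) ^ (j - 1) * β * (3 / 2) ^ n) ∧
        Int.fract ((6 : ℝ) ^ (j - 1) * β * (3 / 2) ^ n) < 3 / 4} := by
    intro N
    refine filter_congr fun n _ => ?_
    set y : ℝ := (6 : ℝ) ^ (j - 1) * β * (3 / 2) ^ n with hy
    set v : ℕ := 6 * (F^[n] x j : ℕ) + (F^[n] x (j + 1) : ℕ) with hv
    have hlt : v < 36 := by
      have := (F^[n] x j).2
      have := (F^[n] x (j + 1)).2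
      omega
    set w : ℕ → ℕ := fun i => if i = 0 then (F^[n] x j : ℕ) else if i = 1 then (F^[n] x (j + 1) : ℕ) else 0 with hw
    have hw6 : ∀ i, w i < 6 := by
      intro i
      simp only [hw]
      split_ifs
      · exact (F^[n] x j).2
      · exact (F^[n] x (j + 1)).2
      · norm_num
    have h1 := (word hβ hx n j 2 w hw6).1 (by
      intro i hi
      have hi' : i = 0 ∨ i = 1 := by omega
      rcases hi' with rfl | rfl
      · simp [hw]
      · simp [hw])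
    have h2 : V 6 2 w = v := by simp [V, hw, hv]
    rw [h2, ← hy, cell_iff (6 ^ 2) (by norm_num) v (by omega)] at h1
    obtain ⟨h3, h4⟩ := h1
    push_cast at h3 h4
    norm_num at h3 h4
    constructor
    · rintro ⟨h5, h6⟩
      have h5' : (9 : ℝ) ≤ v := by exact_mod_cast h5
      have h6' : (v : ℝ) + 1 ≤ 27 := by exact_mod_cast h6
      constructor <;> linarith
    · rintro ⟨h5, h6⟩
      constructor
      · by_contra h7
        have h8 : (v : ℝ) + 1 ≤ 9 := by exact_mod_cast (by omega : v + 1 ≤ 9)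
        linarith
      · by_contra h7
        have h8 : (27 : ℝ) ≤ v := by exact_mod_cast (by omega : 27 ≤ v)
        linarith
  simp only [h]

/-- cosine sums for all differences -/
lemma all_of_CG {β : ℝ} (hC : ∀ g : ℝ, D6 g → CG (3 / 2) (g * β)) : All β := fun g hg =>
  vdcG _ _ fun _ => ⟨fun p => p, fun _ _ hqp _ => by
    rw [← mul_assoc]; exact hC _ ((D6.diff hqp).mul hg)⟩

theorem all_of_third {β : ℝ} (hβ : 0 ≤ β) (h : ∀ m : ℕ, 1 ≤ m → ∀ j : ℤ, Third (conf (m * β)) j) :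
    All β := by
  refine all_of_CG fun g hg => cos_of_midG _ _ fun k hk => ?_
  obtain ⟨m, n, hm, hmn⟩ := (D6.nat hk).mul hg
  have h1 := h m hm (1 - n)
  rw [third_iff (by positivity) (conf_rep _)] at h1
  have h2 : (6 : ℝ) ^ ((1 : ℤ) - n - 1) * (m * β) = k * (g * β) := by
    have e : (1 : ℤ) - n - 1 = -(n : ℤ) := by ring
    rw [e, zpow_neg, zpow_natCast, ← mul_assoc (k : ℝ), hmn]
    ring
  rwa [h2] at h1

theorem all_of_half {β : ℝ} (hβ : 0 ≤ β) (h : ∀ m : ℕ, 1 ≤ m → ∀ j : ℤ, Half (conf (m * β)) j) :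
    All β := by
  refine all_of_CG fun g hg => cos_of_bitG _ _ fun k hk => ?_
  obtain ⟨m, n, hm, hmn⟩ := (D6.nat hk).mul hg
  have h1 := h m hm (1 - n)
  rw [half_iff' (by positivity) (conf_rep _)] at h1
  have h2 : (6 : ℝ) ^ ((1 : ℤ) - n - 1) * (m * β) = k * (g * β) := by
    have e : (1 : ℤ) - n - 1 = -(n : ℤ) := by ring
    rw [e, zpow_neg, zpow_natCast, ← mul_assoc (k : ℝ), hmn]
    ring
  rwa [h2] at h1

theorem All.third {β : ℝ} (hβ : 0 ≤ β) (h : All β) (j : ℤ) : Third (conf β) j := by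
  rw [third_iff hβ (conf_rep _)]
  have h1 := interval_of_WG (3 / 2) ((6 : ℝ) ^ (j - 1) * β) (fun k hk => by
      rw [← mul_assoc]; exact h _ ((D6.nat hk).mul (D6.zpow _)))
    (1 / 3) (2 / 3) (by norm_num) (by norm_num) (by norm_num)
  have h2 : (2 / 3 - 1 / 3 : ℝ) = 1 / 3 := by norm_num
  rw [h2] at h1
  exact h1

theorem All.half {β : ℝ} (hβ : 0 ≤ β) (h : All β) (j : ℤ) : Half (conf β) j := by
  rw [half_iff' hβ (conf_rep _)]
  have h1 := interval_of_WG (3 / 2) ((6 : ℝ) ^ (j - 1) * β) (fun k hk => by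
      rw [← mul_assoc]; exact h _ ((D6.nat hk).mul (D6.zpow _)))
    (1 / 4) (3 / 4) (by norm_num) (by norm_num) (by norm_num)
  have h2 : (3 / 4 - 1 / 4 : ℝ) = 1 / 2 := by norm_num
  rw [h2] at h1
  exact h1

/-- **real numbers** -/
theorem real_tfae (β : ℝ) (hβ : 0 < β) : List.TFAE [Uniform (conf β),
    ∀ r : ℚ, 0 < r → Uniform (conf (r * β)),
    ∀ m : ℕ, 1 ≤ m → ∀ j : ℤ, Third (conf (m * β)) j,
    ∀ m : ℕ, 1 ≤ m → ∀ j : ℤ, Half (conf (m * β)) j] := by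
  have h1 : ∀ m : ℕ, 1 ≤ m → All β → All (m * β) := by
    intro m hm h
    have := h.ratio m 1 hm one_pos
    simpa using this
  tfae_have 1 → 2 := by
    intro h r hr
    have hr1 : 0 < r.num := Rat.num_pos.2 hr
    have h2 := (all_of_uniform hβ.le h).ratio r.num.toNat r.den (by omega) r.den_pos
    have h3 : ((r.num.toNat : ℕ) : ℝ) / (r.den : ℝ) = (r : ℝ) := by
      have h4 : ((r.num.toNat : ℕ) : ℝ) = ((r.num : ℤ) : ℝ) := by
        have : ((r.num.toNat : ℕ) : ℤ) = r.num := Int.toNat_of_nonneg hr1.le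
        exact_mod_cast this
      rw [h4]
      exact (Rat.cast_def r).symm
    rw [h3] at h2
    have hr0 : (0 : ℝ) < (r : ℝ) := by exact_mod_cast hr
    exact h2.uniform (by positivity)
  tfae_have 2 → 1 := by
    intro h
    have := h 1 one_pos
    simpa using this
  tfae_have 1 → 3 := by
    intro h m hm j
    exact (h1 m hm (all_of_uniform hβ.le h)).third (by positivity) j
  tfae_have 3 → 1 := fun h => (all_of_third hβ.le h).uniform hβ.le
  tfae_have 1 → 4 := by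
    intro h m hm j
    exact (h1 m hm (all_of_uniform hβ.le h)).half (by positivity) j
  tfae_have 4 → 1 := fun h => (all_of_half hβ.le h).uniform hβ.le
  tfae_finish

/-- the configurations `conf (m / 6 ^ k)` are the finite ones -/
lemma fin_of {x : Conf} (hx : IsFin x) (hx0 : x ≠ 0) : ∃ g : ℝ, D6 g ∧ x = conf g := by
  obtain ⟨β, hβ, hrep⟩ := D6_of_fin hx hx0
  exact ⟨β, hβ, rep_eq hrep⟩

lemma all_one_of {g : ℝ} (hg : D6 g) (h : All g) : All 1 := by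
  obtain ⟨m, k, hm, rfl⟩ := hg
  have := h.ratio (6 ^ k) m (by positivity) hm
  have h2 : (((6 ^ k : ℕ) : ℝ) / m * ((m : ℝ) / 6 ^ k)) = 1 := by
    have : (0 : ℝ) < m := by exact_mod_cast hm
    push_cast; field_simp
  rwa [h2] at this

lemma All.mulg {β : ℝ} (h : All β) {g : ℝ} (hg : D6 g) : All (g * β) := fun g' hg' => by
  rw [← mul_assoc]; exact h _ (hg'.mul hg)

/-- **finite configurations** -/
theorem fin_tfae (j : ℤ) : List.TFAE [∃ x : Conf, IsFin x ∧ Uniform x,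
    ∀ x : Conf, IsFin x → x ≠ 0 → Uniform x,
    ∀ x : Conf, IsFin x → x ≠ 0 → Third x j,
    ∀ x : Conf, IsFin x → x ≠ 0 → Half x j] := by
  have key : ∀ {P : Conf → Prop}, (∀ g : ℝ, 0 ≤ g → All g → P (conf g)) → All 1 →
      ∀ x : Conf, IsFin x → x ≠ 0 → P x := by
    intro P hP h x hx hx0
    obtain ⟨g, hg, rfl⟩ := fin_of hx hx0
    refine hP g hg.pos.le ?_
    have := h.mulg hg
    rwa [mul_one] at this
  tfae_have 1 → 2 := by
    rintro ⟨x, hx, hU⟩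
    have hx0 : x ≠ 0 := fun h => not_uniform_zero (h ▸ hU)
    obtain ⟨g, hg, rfl⟩ := fin_of hx hx0
    exact key (fun g hg h => h.uniform hg) (all_one_of hg (all_of_uniform hg.pos.le hU))
  tfae_have 2 → 1 := by
    intro h
    have := conf_fin (D6.nat (le_refl 1))
    exact ⟨_, this.1, h _ this.1 this.2⟩
  have ex : ∀ {P : Conf → Prop}, (∀ x : Conf, IsFin x → x ≠ 0 → P x) → ∀ g : ℝ, D6 g → P (conf g) :=
    fun h g hg => h _ (conf_fin hg).1 (conf_fin hg).2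
  have back : ∀ z : ℝ, (6 : ℝ) ^ (j - 1) * ((6 : ℝ) ^ (1 - j) * z) = z := by
    intro z
    rw [← mul_assoc, ← zpow_add₀ (by norm_num)]
    have : j - 1 + (1 - j) = 0 := by ring
    rw [this, zpow_zero, one_mul]
  tfae_have 2 → 3 := by
    intro h
    have h1 : All 1 := all_of_uniform (by norm_num) (ex h 1 ⟨1, 0, one_pos, by simp⟩)
    exact key (fun g hg h => h.third hg j) h1
  tfae_have 3 → 2 := by
    intro h
    have h1 : All 1 := by
      refine all_of_CG fun g hg => cos_of_midG _ _ fun k hk => ?_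
      have hg' : D6 (k * (g * 1)) := by rw [mul_one]; exact (D6.nat hk).mul hg
      have h2 := ex h _ ((D6.zpow (1 - j)).mul hg')
      rwa [third_iff ((D6.zpow (1 - j)).mul hg').pos.le (conf_rep _), back] at h2
    exact key (fun g hg h => h.uniform hg) h1
  tfae_have 2 → 4 := by
    intro h
    have h1 : All 1 := all_of_uniform (by norm_num) (ex h 1 ⟨1, 0, one_pos, by simp⟩)
    exact key (fun g hg h => h.half hg j) h1
  tfae_have 4 → 2 := by
    intro h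
    have h1 : All 1 := by
      refine all_of_CG fun g hg => cos_of_bitG _ _ fun k hk => ?_
      have hg' : D6 (k * (g * 1)) := by rw [mul_one]; exact (D6.nat hk).mul hg
      have h2 := ex h _ ((D6.zpow (1 - j)).mul hg')
      rwa [half_iff' ((D6.zpow (1 - j)).mul hg').pos.le (conf_rep _), back] at h2
    exact key (fun g hg h => h.uniform hg) h1
  tfae_finish

/-- uniformly distributed orbits are dense -/
theorem dense_of_uniform {g : ℝ} (hg : 0 ≤ g) (h : Uniform (conf g)) : Dense (orbit (conf g)) := by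
  rw [Pool.Agent.H429R2.Mult.dense_iff hg (conf_rep g)]
  intro M u hu
  obtain ⟨w, hw, hV⟩ := V_surj 6 (by norm_num) (2 * M + 1) u hu
  have h1 := h (-(M : ℤ)) (2 * M + 1) (fun i => ⟨w i, hw i⟩)
  by_contra hcon
  push Not at hcon
  have h2 : ∀ N : ℕ, ((#{n ∈ range N | ∀ i : Fin (2 * M + 1),
      F^[n] (conf g) (-(M : ℤ) + (i : ℕ)) = (⟨w i, hw i⟩ : Fin 6)} : ℕ) : ℝ) / N = 0 := by
    intro N
    have : ({n ∈ range N | ∀ i : Fin (2 * M + 1),
      F^[n] (conf g) (-(M : ℤ) + (i : ℕ)) = (⟨w i, hw i⟩ : Fin 6)} : Finset ℕ) = ∅ := by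
      rw [filter_eq_empty_iff]
      intro n _ h3
      have h4 := (word hg (conf_rep g) n (-(M : ℤ)) (2 * M + 1) w hw).1 (by
        intro i hi
        have := congrArg Fin.val (h3 ⟨i, hi⟩)
        simpa using this)
      apply hcon n
      rw [hV] at h4
      unfold Pool.Agent.H429R2.Gap.val
      have h5 : ((6 ^ (2 * M + 1) : ℕ) : ℝ) * ((6 : ℝ) ^ (-(M : ℤ) - 1) * g * (3 / 2) ^ n) =
          (6 : ℝ) ^ M * ((3 / 2) ^ n * g) := by
        have h6 : (6 : ℝ) ^ (2 * M + 1) * (6 : ℝ) ^ (-(M : ℤ) - 1) = (6 : ℝ) ^ M := by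
          rw [← zpow_natCast (6 : ℝ) (2 * M + 1), ← zpow_add₀ (by norm_num), ← zpow_natCast (6 : ℝ) M]
          congr 1
          push_cast; ring
        push_cast
        calc (6 : ℝ) ^ (2 * M + 1) * ((6 : ℝ) ^ (-(M : ℤ) - 1) * g * (3 / 2) ^ n) =
            ((6 : ℝ) ^ (2 * M + 1) * (6 : ℝ) ^ (-(M : ℤ) - 1)) * ((3 / 2) ^ n * g) := by ring
          _ = _ := by rw [h6]
      rw [h5] at h4
      have h7 : 0 ≤ (6 : ℝ) ^ M * ((3 / 2) ^ n * g) := by positivity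
      rw [← Int.natCast_floor_eq_floor h7] at h4
      exact_mod_cast h4
    rw [this]; simp
  have h3 := tendsto_nhds_unique h1 ((tendsto_const_nhds (x := (0 : ℝ))).congr fun N => (h2 N).symm)
  have h4 : (0 : ℝ) < (1 / 6) ^ (2 * M + 1) := by positivity
  linarith

end Pool.Agent.U349.OB.Six
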