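import Pool.Agent.U349.OB.Geo
import Pool.Agent.U349.OB.Tuple

/-!
# Counts in boxes and exponential sums; complete uniform distribution of `x l ^ n`
-/

set_option autoImplicit false

namespace Pool.Agent.U349.OB

open Finset Filter Topology
open Pool.Agent.H469R2.NK (e norm_e e_add e_zero conj_e)

lemma e_sum {κ : Type} (s : Finset κ) (f : κ → ℝ) : e (∑ j ∈ s, f j) = ∏ j ∈ s, e (f j) := by
  classical
  induction s using Finset.induction_on with
  | empty => simp [e_zero]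
  | insert a s ha ih => rw [sum_insert ha, prod_insert ha, e_add, ih]

/-- counts in boxes give exponential sums -/
theorem weyl_of_boxes {ι : Type} {d : ℕ} (S : Finset ι) (y : ι → Fin d → ℝ) (M : ℕ) (hM : 0 < M)
    (l : Fin d → ℤ) (j0 : Fin d) (hh : ¬ (M : ℤ) ∣ l j0) (δ : ℝ)
    (hS : ∀ W : Fin d → ℕ, (∀ j, W j < M) →
      |((#{i ∈ S | ∀ j, ⌊(M : ℝ) * y i j⌋ % M = (W j : ℤ)} : ℕ) : ℝ) - #S / (M : ℝ) ^ d| ≤ δ * #S) :
    ‖∑ i ∈ S, e (∑ j, (l j : ℝ) * y i j)‖ ≤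
      ((M : ℝ) ^ d * δ + 2 * Real.pi * (∑ j, |(l j : ℝ)|) / M) * #S := by
  classical
  have hMR : (0 : ℝ) < M := by exact_mod_cast hM
  have hMz : (0 : ℤ) < M := by exact_mod_cast hM
  set Wf : ι → Fin d → ℕ := fun i j => (⌊(M : ℝ) * y i j⌋ % M).toNat with hWf
  have hWlt : ∀ i j, Wf i j < M := by
    intro i j
    have := Int.emod_lt_of_pos ⌊(M : ℝ) * y i j⌋ hMz
    have := Int.emod_nonneg ⌊(M : ℝ) * y i j⌋ hMz.ne'
    simp only [hWf]; omega
  have hWeq : ∀ i j, ((Wf i j : ℕ) : ℤ) = ⌊(M : ℝ) * y i j⌋ % M := by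
    intro i j
    have := Int.emod_nonneg ⌊(M : ℝ) * y i j⌋ hMz.ne'
    simp only [hWf]; omega
  set E : (Fin d → ℕ) → ℂ := fun W => e (∑ j, (l j : ℝ) * (W j : ℕ) / M) with hE
  have h1 : ∀ i, ‖e (∑ j, (l j : ℝ) * y i j) - E (Wf i)‖ ≤ 2 * Real.pi * (∑ j, |(l j : ℝ)|) / M := by
    intro i
    have h2 : ∑ j, (l j : ℝ) * y i j = ∑ j, (l j : ℝ) * (Wf i j : ℕ) / M +
        ∑ j, (l j : ℝ) * Int.fract ((M : ℝ) * y i j) / M +
        ((∑ j, l j * (⌊(M : ℝ) * y i j⌋ / M) : ℤ) : ℝ) := by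
      push_cast
      rw [← sum_add_distrib, ← sum_add_distrib]
      refine sum_congr rfl fun j _ => ?_
      have hmr : (M : ℝ) * y i j = ⌊(M : ℝ) * y i j⌋ + Int.fract ((M : ℝ) * y i j) :=
        (Int.floor_add_fract _).symm
      have hmq : ((⌊(M : ℝ) * y i j⌋ : ℤ) : ℝ) = M * ((⌊(M : ℝ) * y i j⌋ / M : ℤ) : ℝ) + Wf i j := by
        have := Int.emod_add_mul_ediv ⌊(M : ℝ) * y i j⌋ M
        rw [← hWeq i] at this
        have h2 : (⌊(M : ℝ) * y i j⌋ : ℤ) = M * (⌊(M : ℝ) * y i j⌋ / M) + Wf i j := by linarith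
        exact_mod_cast h2
      have h3 : y i j = (⌊(M : ℝ) * y i j⌋ + Int.fract ((M : ℝ) * y i j)) / M := by
        rw [← hmr]; field_simp
      rw [hmq] at h3
      calc (l j : ℝ) * y i j = (l j : ℝ) * ((M * ((⌊(M : ℝ) * y i j⌋ / M : ℤ) : ℝ) + Wf i j +
            Int.fract ((M : ℝ) * y i j)) / M) := by rw [← h3]
        _ = _ := by field_simp; ring
    rw [h2, e_add, e_int, mul_one, e_add]
    have h3 : e (∑ j, (l j : ℝ) * (Wf i j : ℕ) / M) * e (∑ j, (l j : ℝ) * Int.fract ((M : ℝ) * y i j) / M) -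
        E (Wf i) = E (Wf i) * (e (∑ j, (l j : ℝ) * Int.fract ((M : ℝ) * y i j) / M) - 1) := by
      simp only [hE]; ring
    rw [h3, norm_mul]
    have h4 : ‖E (Wf i)‖ = 1 := norm_e _
    rw [h4, one_mul]
    refine (norm_e_sub_one _).trans ?_
    rw [mul_div_assoc (2 * Real.pi)]
    refine mul_le_mul_of_nonneg_left ?_ Real.two_pi_pos.le
    refine (abs_sum_le_sum_abs _ _).trans ?_
    rw [sum_div]
    refine sum_le_sum fun j _ => ?_
    rw [abs_div, abs_of_pos hMR, abs_mul]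
    apply div_le_div_of_nonneg_right _ hMR.le
    have h5 : |Int.fract ((M : ℝ) * y i j)| ≤ 1 := by
      rw [abs_of_nonneg (Int.fract_nonneg _)]
      exact (Int.fract_lt_one _).le
    exact mul_le_of_le_one_right (abs_nonneg _) h5
  set B : Finset (Fin d → ℕ) := Fintype.piFinset fun _ => range M with hB
  have hzero : ∑ W ∈ B, E W = 0 := by
    simp only [hE, hB]
    simp only [e_sum]
    rw [← prod_univ_sum (fun _ : Fin d => range M) (fun j w => e ((l j : ℝ) * (w : ℕ) / M))]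
    apply prod_eq_zero (mem_univ j0)
    rw [orth M hM, if_neg hh]
  set cnt : (Fin d → ℕ) → ℝ := fun W => ((#{i ∈ S | ∀ j, ⌊(M : ℝ) * y i j⌋ % M = (W j : ℤ)} : ℕ) : ℝ) with hcnt
  have h2 : ∑ i ∈ S, E (Wf i) = ∑ W ∈ B, E W * (((cnt W - #S / (M : ℝ) ^ d : ℝ)) : ℂ) := by
    have h3 : ∑ W ∈ B, E W * (((cnt W - #S / (M : ℝ) ^ d : ℝ)) : ℂ) = ∑ W ∈ B, E W * (cnt W : ℂ) := by
      have h4 : ∀ W ∈ B, E W * (((cnt W - #S / (M : ℝ) ^ d : ℝ)) : ℂ) =
          E W * (cnt W : ℂ) - E W * ((#S : ℂ) / (M : ℂ) ^ d) := by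
        intro W _
        push_cast; ring
      rw [sum_congr rfl h4, sum_sub_distrib, ← sum_mul, hzero, zero_mul, sub_zero]
    rw [h3]
    have h5 : ∀ W ∈ B, E W * (cnt W : ℂ) = ∑ i ∈ S, if W = Wf i then E (Wf i) else 0 := by
      intro W _
      simp only [hcnt]
      rw [Complex.ofReal_natCast, ← sum_boole, mul_sum]
      refine sum_congr rfl fun i _ => ?_
      by_cases h6 : W = Wf i
      · rw [if_pos h6, if_pos (fun j => by rw [h6, hWeq]), h6, mul_one]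
      · rw [if_neg h6, if_neg, mul_zero]
        intro h7
        apply h6
        funext j
        have := h7 j
        rw [← hWeq] at this
        exact_mod_cast this.symm
    rw [sum_congr rfl h5, sum_comm]
    refine sum_congr rfl fun i _ => ?_
    rw [sum_ite_eq', if_pos]
    rw [hB, Fintype.mem_piFinset]
    exact fun j => mem_range.2 (hWlt i j)
  have h3 : ∑ i ∈ S, e (∑ j, (l j : ℝ) * y i j) =
      ∑ i ∈ S, (e (∑ j, (l j : ℝ) * y i j) - E (Wf i)) + ∑ i ∈ S, E (Wf i) := by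
    rw [← sum_add_distrib]
    refine sum_congr rfl fun i _ => ?_
    ring
  rw [h3]
  refine (norm_add_le _ _).trans ?_
  have h4 : ‖∑ i ∈ S, (e (∑ j, (l j : ℝ) * y i j) - E (Wf i))‖ ≤
      2 * Real.pi * (∑ j, |(l j : ℝ)|) / M * #S := by
    refine (norm_sum_le _ _).trans ((sum_le_sum fun i _ => h1 i).trans (le_of_eq ?_))
    rw [sum_const, nsmul_eq_mul, mul_comm]
  have h5 : ‖∑ i ∈ S, E (Wf i)‖ ≤ (M : ℝ) ^ d * δ * #S := by
    rw [h2]
    refine (norm_sum_le _ _).trans ?_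
    have h6 : ∀ W ∈ B, ‖E W * (((cnt W - #S / (M : ℝ) ^ d : ℝ)) : ℂ)‖ ≤ δ * #S := by
      intro W hW
      rw [norm_mul]
      have h7 : ‖E W‖ = 1 := norm_e _
      rw [h7, one_mul, Complex.norm_real, Real.norm_eq_abs]
      rw [hB, Fintype.mem_piFinset] at hW
      exact hS W fun j => mem_range.1 (hW j)
    refine (sum_le_sum h6).trans (le_of_eq ?_)
    rw [sum_const, nsmul_eq_mul, hB, Fintype.card_piFinset]
    simp only [card_range, prod_const, card_univ, Fintype.card_fin]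
    push_cast; ring
  linarith

/-- counts in the boxes of the tuples are right along `1 ≤ n ≤ N` -/
def BoxEqui {d : ℕ} (u : ℕ → Fin d → ℝ) : Prop :=
  ∀ a b : Fin d → ℝ, (∀ j, 0 ≤ a j) → (∀ j, a j < b j) → (∀ j, b j ≤ 1) →
    Tendsto (fun N : ℕ => (((Icc 1 N).filter (fun n : ℕ => ∀ j, a j ≤ Int.fract (u n j) ∧
      Int.fract (u n j) < b j)).card : ℝ) / (N : ℝ)) atTop (𝓝 (∏ j, (b j - a j)))

/-- equidistribution of the tuples makes the exponential sums small -/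
theorem weyl_of_boxEqui {d : ℕ} (u : ℕ → Fin d → ℝ) (hu : BoxEqui u) (l : Fin d → ℤ) (hl : l ≠ 0)
    (ε : ℝ) (hε : 0 < ε) : ∃ N0 : ℕ, ∀ N, N0 ≤ N → ‖∑ n ∈ Icc 1 N, e (∑ j, (l j : ℝ) * u n j)‖ ≤ ε * N := by
  obtain ⟨j0, hj0⟩ : ∃ j, l j ≠ 0 := by
    by_contra hcon
    push Not at hcon
    exact hl (funext hcon)
  set A : ℝ := ∑ j, |(l j : ℝ)| with hA
  have hA0 : 0 ≤ A := sum_nonneg fun _ _ => abs_nonneg _
  obtain ⟨M, hM⟩ := exists_nat_gt (max (((l j0).natAbs : ℝ)) (4 * Real.pi * A / ε))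
  have hk1 : ((l j0).natAbs : ℝ) < M := lt_of_le_of_lt (le_max_left _ _) hM
  have hk2 : 4 * Real.pi * A / ε < M := lt_of_le_of_lt (le_max_right _ _) hM
  have hMR : (0 : ℝ) < M := lt_of_le_of_lt (Nat.cast_nonneg _) hk1
  have hM0 : 0 < M := by exact_mod_cast hMR
  have hhM : (l j0).natAbs < M := by exact_mod_cast hk1
  set δ : ℝ := ε / (2 * (M : ℝ) ^ d) with hδ
  have hδ0 : 0 < δ := by positivity
  obtain ⟨n0, hn0⟩ := exists_finset_max (Fintype.piFinset fun _ : Fin d => range M) (fun W n =>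
    |((#{i ∈ Icc 1 n | ∀ j, ⌊(M : ℝ) * u i j⌋ % M = (W j : ℤ)} : ℕ) : ℝ) - 1 / (M : ℝ) ^ d * n| ≤ δ * n) (by
    intro W hW
    rw [Fintype.mem_piFinset] at hW
    have hW' : ∀ j, W j < M := fun j => mem_range.1 (hW j)
    have h1 := hu (fun j => (W j : ℝ) / M) (fun j => ((W j + 1 : ℕ) : ℝ) / M) (fun j => by positivity)
      (fun j => by
        apply div_lt_div_of_pos_right _ hMR
        push_cast; linarith)
      (fun j => by
        rw [div_le_one hMR]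
        exact_mod_cast hW' j)
    have h2 : ∏ j : Fin d, (((W j + 1 : ℕ) : ℝ) / M - (W j : ℝ) / M) = 1 / (M : ℝ) ^ d := by
      have : ∀ j : Fin d, (((W j + 1 : ℕ) : ℝ) / M - (W j : ℝ) / M) = 1 / M := by
        intro j; push_cast; ring
      simp only [this]
      rw [prod_const, card_univ, Fintype.card_fin, one_div_pow]
    rw [h2, ← freq_iff (fun N : ℕ => (((Icc 1 N).filter (fun n : ℕ => ∀ j, (W j : ℝ) / M ≤ Int.fract (u n j) ∧
      Int.fract (u n j) < ((W j + 1 : ℕ) : ℝ) / M)).card : ℝ))] at h1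
    obtain ⟨n0, hn0⟩ := h1 δ hδ0
    refine ⟨n0, fun n hn => ?_⟩
    have h3 := hn0 n hn
    have h4 : ({i ∈ Icc 1 n | ∀ j, ⌊(M : ℝ) * u i j⌋ % M = (W j : ℤ)} : Finset ℕ) =
        {i ∈ Icc 1 n | ∀ j, (W j : ℝ) / M ≤ Int.fract (u i j) ∧
          Int.fract (u i j) < ((W j + 1 : ℕ) : ℝ) / M} := by
      refine filter_congr fun i _ => ?_
      exact forall_congr' fun j => cell_iff M hM0 (W j) (hW' j) _
    rw [h4]
    exact h3)
  refine ⟨n0, fun n hn => ?_⟩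
  have hcard : #(Icc 1 n) = n := by rw [Nat.card_Icc]; omega
  have h1 := weyl_of_boxes (Icc 1 n) u M hM0 l j0 (fun h' => by
      have h2 := Int.natAbs_dvd_natAbs.2 h'
      rw [Int.natAbs_natCast] at h2
      have := Nat.le_of_dvd (by omega) h2
      omega) δ (by
    intro W hW
    have := hn0 n hn W (by
      rw [Fintype.mem_piFinset]
      exact fun j => mem_range.2 (hW j))
    rw [hcard]
    have h2 : (n : ℝ) / (M : ℝ) ^ d = 1 / (M : ℝ) ^ d * n := by ring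
    rw [h2]
    exact this)
  rw [hcard] at h1
  refine h1.trans ?_
  apply mul_le_mul_of_nonneg_right _ (Nat.cast_nonneg _)
  have h4 : (M : ℝ) ^ d * δ = ε / 2 := by rw [hδ]; field_simp
  have h5 : 2 * Real.pi * A / (M : ℝ) ≤ ε / 2 := by
    rw [div_lt_iff₀ hε] at hk2
    rw [div_le_div_iff₀ hMR (by norm_num)]
    linarith
  linarith

/-- small exponential sums give the equidistribution of the tuples -/
theorem boxEqui_of_weyl {d : ℕ} (u : ℕ → Fin d → ℝ)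
    (h : ∀ l : Fin d → ℤ, l ≠ 0 → ∀ ε : ℝ, 0 < ε → ∃ N0 : ℕ, ∀ N, N0 ≤ N →
      ‖∑ n ∈ Icc 1 N, e (∑ j, (l j : ℝ) * u n j)‖ ≤ ε * N) : BoxEqui u := by
  intro a b ha hab hb
  rw [← freq_iff (fun N : ℕ => (((Icc 1 N).filter (fun n : ℕ => ∀ j, a j ≤ Int.fract (u n j) ∧
      Int.fract (u n j) < b j)).card : ℝ))]
  intro ε hε
  obtain ⟨K, hK⟩ := exists_nat_gt (24 * (d : ℝ) / ε)
  have hKR : (0 : ℝ) < K := lt_of_le_of_lt (by positivity) hK
  have hK0 : 0 < K := by exact_mod_cast hKR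
  set C : ℝ := (2 * (K : ℝ) ^ 3 + 1) ^ d + d * 5 with hC
  have hC0 : 0 < C := by positivity
  set Δ : ℝ := ε / (2 * C) with hΔ
  have hΔ0 : 0 < Δ := by positivity
  classical
  set H : Finset (Fin d → ℤ) := (Fintype.piFinset fun _ : Fin d =>
    Icc (-((K : ℤ) ^ 3)) ((K : ℤ) ^ 3)).filter (· ≠ 0) with hH
  obtain ⟨n0, hn0⟩ := exists_finset_max H (fun l n =>
      ‖∑ i ∈ Icc 1 n, e (∑ j, (l j : ℝ) * u i j)‖ ≤ Δ * n) (by
    intro l hl
    rw [hH, mem_filter] at hl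
    exact h l hl.2 Δ hΔ0)
  refine ⟨max n0 1, fun N hN => ?_⟩
  have hNn0 : n0 ≤ N := le_trans (le_max_left _ _) hN
  have hN1 : 1 ≤ N := le_trans (le_max_right _ _) hN
  have hcard : #(Icc 1 N) = N := by rw [Nat.card_Icc]; omega
  have hbox := Pool.Agent.R485.TransS.weyl_box hK0 (Icc 1 N) ⟨1, by rw [mem_Icc]; omega⟩
    u Δ hΔ0.le (by
      intro l hl0 hlK
      have h1 := hn0 N hNn0 l (by
        rw [hH, mem_filter, Fintype.mem_piFinset]
        refine ⟨fun j => ?_, hl0⟩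
        rw [mem_Icc]
        exact abs_le.1 (hlK j))
      rw [hcard]
      exact h1)
    a b ha (fun j => (hab j).le) hb
  rw [hcard] at hbox
  beta_reduce
  rw [mul_comm (∏ j, (b j - a j))]
  refine hbox.trans ?_
  apply mul_le_mul_of_nonneg_right _ (Nat.cast_nonneg _)
  have h1 : (2 * (K : ℝ) ^ 3 + 1) ^ d * Δ + d * (12 / K + 5 * Δ) = C * Δ + 12 * d / K := by
    rw [hC]; ring
  rw [h1]
  have h2 : C * Δ = ε / 2 := by rw [hΔ]; field_simp
  have h3 : 12 * (d : ℝ) / K ≤ ε / 2 := by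
    rw [div_lt_iff₀ hε] at hK
    rw [div_le_div_iff₀ hKR (by norm_num)]
    linarith
  linarith

end Pool.Agent.U349.OB
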