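import Pool.Agent.U349.OB.Unif

/-!
# Uniform convergence along the powers of two
-/

set_option autoImplicit false

namespace Pool.Agent.U349.OB

open Finset Filter Topology
open Pool.Agent.H469R2.NK (e norm_e e_add e_zero conj_e)
open Pool.Agent.H373R2.T7 (muR muR_abs)

/-- summation by parts with decreasing weights -/
lemma abel_anti (a : ℕ → ℂ) (g : ℕ → ℝ) (hg : Antitone g) (hg0 : ∀ n, 0 ≤ g n) (M m : ℕ) (D : ℝ)
    (hD : ∀ k, k ≤ m → ‖∑ n ∈ Ico M k, a n‖ ≤ D) (hMm : M ≤ m) :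
    ‖∑ n ∈ Ico M m, (g n : ℂ) * a n‖ ≤ D * g M := by
  have hD0 : 0 ≤ D := (norm_nonneg _).trans (hD 0 (Nat.zero_le _))
  have key : ∀ k, M ≤ k → ∑ n ∈ Ico M k, (g n : ℂ) * a n = (g k : ℂ) * ∑ n ∈ Ico M k, a n +
      ∑ n ∈ Ico M k, ((g n - g (n + 1) : ℝ) : ℂ) * ∑ i ∈ Ico M (n + 1), a i := by
    intro k hk
    induction k, hk using Nat.le_induction with
    | base => simp
    | succ k hk ih =>
      rw [sum_Ico_succ_top hk, ih, sum_Ico_succ_top hk (fun n => ((g n - g (n + 1) : ℝ) : ℂ) *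
        ∑ i ∈ Ico M (n + 1), a i), sum_Ico_succ_top hk a]
      push_cast
      ring
  rw [key m hMm]
  refine (norm_add_le _ _).trans ?_
  have h1 : ‖(g m : ℂ) * ∑ n ∈ Ico M m, a n‖ ≤ g m * D := by
    rw [norm_mul, Complex.norm_real, Real.norm_eq_abs, abs_of_nonneg (hg0 m)]
    exact mul_le_mul_of_nonneg_left (hD m le_rfl) (hg0 m)
  have h2 : ‖∑ n ∈ Ico M m, ((g n - g (n + 1) : ℝ) : ℂ) * ∑ i ∈ Ico M (n + 1), a i‖ ≤
      (g M - g m) * D := by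
    refine (norm_sum_le _ _).trans ?_
    have e1 : (g M - g m) * D = ∑ n ∈ Ico M m, (g n - g (n + 1)) * D := by
      rw [← sum_mul]
      congr 1
      have := Finset.sum_Ico_sub g hMm
      have h3 : ∑ n ∈ Ico M m, (g n - g (n + 1)) = -∑ n ∈ Ico M m, (g (n + 1) - g n) := by
        rw [← sum_neg_distrib]; exact sum_congr rfl fun n _ => by ring
      rw [h3, this]; ring
    rw [e1]
    refine sum_le_sum fun n hn => ?_
    have h4 : 0 ≤ g n - g (n + 1) := sub_nonneg.2 (hg (Nat.le_succ n))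
    rw [norm_mul, Complex.norm_real, Real.norm_eq_abs, abs_of_nonneg h4]
    exact mul_le_mul_of_nonneg_left (hD (n + 1) (mem_Ico.1 hn).2) h4
  linarith

/-- the partial sums -/
noncomputable def SS (chi : ℕ → ℂ) (J : ℕ) (y θ : ℝ) : ℂ :=
  ∑ n ∈ Ico 1 (2 ^ J), (((muR n : ℝ) : ℂ) * chi n / n) * (psi (n * y + θ) : ℂ)

lemma block (c : ℕ) (hc : 0 < c) (chi v : ℕ → ℂ) (hper : ∀ n, chi (n % c) = chi n)
    (hbd : ∀ n, ‖chi n‖ ≤ 1)
    (hadd : ∀ n, 1 ≤ n → chi n = ∑ j ∈ range c, v j * e (-(n * j / c))) :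
    ∃ J0 : ℕ, 2 ≤ J0 ∧ ∀ J : ℕ, J0 ≤ J → ∀ y θ : ℝ,
      ‖SS chi (J + 1) y θ - SS chi J y θ‖ ≤ 36 * ((J : ℝ) ^ 2)⁻¹ := by
  obtain ⟨N0, h⟩ := unif c hc chi v hper hbd hadd
  refine ⟨max 2 (N0 + 1), le_max_left _ _, fun J hJ y θ => ?_⟩
  have hJ2 : 2 ≤ J := (le_max_left _ _).trans hJ
  have hJN : N0 + 1 ≤ J := (le_max_right _ _).trans hJ
  set M : ℕ := 2 ^ J with hM
  have hJM : J < M := Nat.lt_two_pow_self
  have hM1 : 1 ≤ M := by omega
  have hMM : (2 : ℕ) ^ (J + 1) = 2 * M := by rw [hM]; ring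
  have h1 : SS chi (J + 1) y θ - SS chi J y θ = ∑ n ∈ Ico M (2 * M),
      (((n : ℝ)⁻¹ : ℝ) : ℂ) * ((((muR n : ℝ) : ℂ) * chi n) * (psi (n * y + θ) : ℂ)) := by
    unfold SS
    rw [hMM, ← hM, ← sum_Ico_consecutive _ hM1 (by omega : M ≤ 2 * M), add_sub_cancel_left]
    refine sum_congr rfl fun n _ => ?_
    push_cast
    ring
  rw [h1]
  -- replace the weight by an antitone function
  set g : ℕ → ℝ := fun n => ((max n M : ℕ) : ℝ)⁻¹ with hg
  have hganti : Antitone g := by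
    intro a b hab
    have : (max a M : ℕ) ≤ max b M := max_le_max_right _ hab
    have h0 : (0 : ℝ) < ((max a M : ℕ) : ℝ) := by
      have : 0 < max a M := lt_of_lt_of_le (by omega) (le_max_right a M)
      exact_mod_cast this
    exact inv_anti₀ h0 (by exact_mod_cast this)
  have h2 : ∑ n ∈ Ico M (2 * M), (((n : ℝ)⁻¹ : ℝ) : ℂ) *
      ((((muR n : ℝ) : ℂ) * chi n) * (psi (n * y + θ) : ℂ)) = ∑ n ∈ Ico M (2 * M), (g n : ℂ) *
      ((((muR n : ℝ) : ℂ) * chi n) * (psi (n * y + θ) : ℂ)) := by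
    refine sum_congr rfl fun n hn => ?_
    rw [mem_Ico] at hn
    simp only [hg]
    rw [max_eq_left hn.1]
  rw [h2]
  set l : ℝ := Real.log ((M - 1 : ℕ) : ℝ) with hl
  have hlog : (J : ℝ) / 3 ≤ l := by
    have a1 : 2 ^ (J - 1) ≤ M - 1 := by
      have : M = 2 * 2 ^ (J - 1) := by rw [hM, ← pow_succ']; congr 1; omega
      have : 1 ≤ 2 ^ (J - 1) := Nat.one_le_two_pow
      omega
    have a2 : ((2 : ℝ) ^ (J - 1)) ≤ ((M - 1 : ℕ) : ℝ) := by exact_mod_cast a1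
    have a3 : Real.log ((2 : ℝ) ^ (J - 1)) ≤ l := Real.log_le_log (by positivity) a2
    rw [Real.log_pow] at a3
    have a4 := Real.log_two_gt_d9
    have a5 : ((J - 1 : ℕ) : ℝ) = J - 1 := by
      rw [Nat.cast_sub (by omega)]; simp
    rw [a5] at a3
    have a6 : (2 : ℝ) ≤ J := by exact_mod_cast hJ2
    nlinarith
  have hJ0 : (0 : ℝ) < J := by exact_mod_cast (by omega : 0 < J)
  have hl0 : 0 < l := lt_of_lt_of_le (by positivity) hlog
  have hMR : (0 : ℝ) < M := by exact_mod_cast hM1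
  have hpart : ∀ k : ℕ, M - 1 ≤ k → k ≤ 2 * M →
      ‖∑ n ∈ Icc 1 k, (((muR n : ℝ) : ℂ) * chi n) * (psi (n * y + θ) : ℂ)‖ ≤ 2 * M / l ^ 2 := by
    intro k hk1 hk2
    refine (h k (by omega) y θ).trans ?_
    have a1 : l ≤ Real.log k := by
      apply Real.log_le_log
      · have : 0 < M - 1 := by omega
        exact_mod_cast this
      · exact_mod_cast hk1
    have a2 : (k : ℝ) ≤ 2 * M := by exact_mod_cast hk2
    gcongr
  have hD : ∀ k, k ≤ 2 * M → ‖∑ n ∈ Ico M k, (((muR n : ℝ) : ℂ) * chi n) *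
      (psi (n * y + θ) : ℂ)‖ ≤ 4 * M / l ^ 2 := by
    intro k hk
    rcases lt_or_ge k M with hkM | hkM
    · rw [Ico_eq_empty (by omega), sum_empty, norm_zero]; positivity
    · have a1 : ∑ n ∈ Ico M k, (((muR n : ℝ) : ℂ) * chi n) * (psi (n * y + θ) : ℂ) =
          ∑ n ∈ Icc 1 (k - 1), (((muR n : ℝ) : ℂ) * chi n) * (psi (n * y + θ) : ℂ) -
          ∑ n ∈ Icc 1 (M - 1), (((muR n : ℝ) : ℂ) * chi n) * (psi (n * y + θ) : ℂ) := by
        have b1 : ∀ m : ℕ, 1 ≤ m → Icc 1 (m - 1) = Ico 1 m := by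
          intro m hm; ext n; simp only [mem_Icc, mem_Ico]; omega
        rw [b1 k (by omega), b1 M hM1, ← sum_Ico_consecutive _ hM1 hkM, add_sub_cancel_left]
      rw [a1]
      refine (norm_sub_le _ _).trans ?_
      have a2 := hpart (k - 1) (by omega) (by omega)
      have a3 := hpart (M - 1) le_rfl (by omega)
      have a4 : 4 * (M : ℝ) / l ^ 2 = 2 * M / l ^ 2 + 2 * M / l ^ 2 := by ring
      linarith
  refine (abel_anti _ g hganti (fun n => by positivity) M (2 * M) _ hD (by omega)).trans ?_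
  have hgM : g M = (M : ℝ)⁻¹ := by simp [hg]
  rw [hgM]
  calc 4 * (M : ℝ) / l ^ 2 * (M : ℝ)⁻¹ = 4 / l ^ 2 := by field_simp
    _ ≤ 4 / ((J : ℝ) / 3) ^ 2 := by gcongr
    _ = _ := by field_simp; norm_num

/-- the partial sums are uniformly Cauchy -/
theorem cauchy (c : ℕ) (hc : 0 < c) (chi v : ℕ → ℂ) (hper : ∀ n, chi (n % c) = chi n)
    (hbd : ∀ n, ‖chi n‖ ≤ 1)
    (hadd : ∀ n, 1 ≤ n → chi n = ∑ j ∈ range c, v j * e (-(n * j / c))) (ε : ℝ) (hε : 0 < ε) :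
    ∃ J0 : ℕ, ∀ J J' : ℕ, J0 ≤ J → J ≤ J' → ∀ y θ : ℝ,
      ‖SS chi J' y θ - SS chi J y θ‖ ≤ ε := by
  obtain ⟨J1, hJ1, h⟩ := block c hc chi v hper hbd hadd
  obtain ⟨J2, hJ2⟩ := exists_nat_gt (36 / ε)
  refine ⟨max (J1 + 1) (J2 + 1), fun J J' hJ hJ' y θ => ?_⟩
  have hJa : J1 + 1 ≤ J := (le_max_left _ _).trans hJ
  have hJb : J2 + 1 ≤ J := (le_max_right _ _).trans hJ
  have h1 : SS chi J' y θ - SS chi J y θ = ∑ i ∈ Ico J J', (SS chi (i + 1) y θ - SS chi i y θ) :=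
    (Finset.sum_Ico_sub (fun i => SS chi i y θ) hJ').symm
  rw [h1]
  refine (norm_sum_le _ _).trans ?_
  have h2 : ∑ i ∈ Ico J J', ‖SS chi (i + 1) y θ - SS chi i y θ‖ ≤
      ∑ i ∈ Ico J J', 36 * ((i : ℝ) ^ 2)⁻¹ :=
    sum_le_sum fun i hi => h i (by have := (mem_Ico.1 hi).1; omega) y θ
  refine h2.trans ?_
  rw [← mul_sum]
  rcases Nat.lt_or_ge J J' with hlt | hge
  · have h3 : Ico J J' = Ioc (J - 1) (J' - 1) := by
      ext n; simp only [mem_Ico, mem_Ioc]; omega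
    have h4 : ∑ i ∈ Ioc (J - 1) (J' - 1), ((i : ℝ) ^ 2)⁻¹ ≤ (((J - 1 : ℕ) : ℝ))⁻¹ - (((J' - 1 : ℕ) : ℝ))⁻¹ :=
      sum_Ioc_inv_sq_le_sub (by omega) (by omega)
    rw [h3]
    have h5 : (0 : ℝ) ≤ (((J' - 1 : ℕ) : ℝ))⁻¹ := by positivity
    have h6 : (J2 : ℝ) ≤ ((J - 1 : ℕ) : ℝ) := by
      have : J2 ≤ J - 1 := by omega
      exact_mod_cast this
    have h7 : 36 / ε < ((J - 1 : ℕ) : ℝ) := lt_of_lt_of_le hJ2 h6
    have h8 : 0 < ((J - 1 : ℕ) : ℝ) := lt_trans (by positivity) h7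
    have h9 : 36 * (((J - 1 : ℕ) : ℝ))⁻¹ ≤ ε := by
      rw [div_lt_iff₀ hε] at h7
      rw [mul_inv_le_iff₀ h8]
      linarith
    linarith
  · rw [Ico_eq_empty (by omega), sum_empty, mul_zero]
    exact hε.le

end Pool.Agent.U349.OB
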