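import Pool.Agent.U349.OB.Core

/-!
# The data: Dirichlet characters modulo `c`
-/

set_option autoImplicit false

namespace Pool.Agent.U349.OB

open Finset Filter Topology
open Pool.Agent.H469R2.NK (e norm_e e_add e_zero conj_e)

lemma e_int (m : ℤ) : e (m : ℝ) = 1 := by
  unfold e
  have := Complex.exp_int_mul_two_pi_mul_I m
  convert this using 2
  push_cast; ring

lemma e_nat_mul (x : ℝ) (j : ℕ) : e (j * x) = e x ^ j := by
  induction j with
  | zero => simp [e_zero]
  | succ j ih =>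
    rw [pow_succ, ← ih, ← e_add]
    congr 1; push_cast; ring

lemma e_eq_one {x : ℝ} (h : e x = 1) : ∃ m : ℤ, x = m := by
  unfold e at h
  rw [Complex.exp_eq_one_iff] at h
  obtain ⟨m, hm⟩ := h
  refine ⟨m, ?_⟩
  have h2 : (2 * Real.pi * Complex.I : ℂ) ≠ 0 := Complex.two_pi_I_ne_zero
  have h3 : (x : ℂ) = m := by
    apply mul_right_cancel₀ h2
    rw [← hm]
    push_cast; ring
  exact_mod_cast h3

/-- orthogonality -/
lemma orth (c : ℕ) (hc : 0 < c) (m : ℤ) :
    ∑ j ∈ range c, e (m * j / c) = if (c : ℤ) ∣ m then (c : ℂ) else 0 := by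
  have hc' : (c : ℝ) ≠ 0 := by positivity
  split_ifs with h
  · obtain ⟨q, rfl⟩ := h
    have : ∀ j ∈ range c, e (((c : ℤ) * q : ℤ) * j / c) = 1 := by
      intro j _
      have h1 : (((c : ℤ) * q : ℤ) : ℝ) * j / c = ((q * j : ℤ) : ℝ) := by
        push_cast; field_simp
      rw [h1, e_int]
    rw [sum_congr rfl this]
    simp
  · have h1 : ∀ j ∈ range c, e (m * j / c) = e (m / c) ^ j := by
      intro j _
      rw [← e_nat_mul]
      congr 1; ring
    rw [sum_congr rfl h1]
    have h2 : e ((m : ℝ) / c) ≠ 1 := by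
      intro h3
      obtain ⟨q, hq⟩ := e_eq_one h3
      apply h
      refine ⟨q, ?_⟩
      rw [div_eq_iff hc'] at hq
      have : (m : ℝ) = ((c * q : ℤ) : ℝ) := by push_cast; rw [hq]; ring
      exact_mod_cast this
    rw [geom_sum_eq h2, ← e_nat_mul]
    have h3 : (c : ℝ) * (m / c) = (m : ℝ) := by field_simp
    rw [h3, e_int]
    simp

/-- finite Fourier inversion for a function on residues -/
lemma inv_fourier (c : ℕ) (hc : 0 < c) (f : ℕ → ℂ) (m : ℤ) :
    ∑ j ∈ range c, (1 / (c : ℂ) * ∑ a ∈ range c, f a * e (a * j / c)) * e (-(m * j / c)) =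
      f (m % c).toNat := by
  have hc' : (c : ℂ) ≠ 0 := by exact_mod_cast hc.ne'
  have hcz : (0 : ℤ) < c := by exact_mod_cast hc
  have h1 : ∀ j ∈ range c, (1 / (c : ℂ) * ∑ a ∈ range c, f a * e (a * j / c)) * e (-(m * j / c)) =
      ∑ a ∈ range c, 1 / (c : ℂ) * f a * e (((a - m : ℤ) : ℝ) * j / c) := by
    intro j _
    rw [mul_sum, sum_mul]
    refine sum_congr rfl fun a _ => ?_
    have : (((a - m : ℤ) : ℝ) * j / c) = a * j / c + (-(m * j / c)) := by push_cast; ring
    rw [this, e_add]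
    ring
  rw [sum_congr rfl h1, sum_comm]
  have h2 : ∀ a ∈ range c, ∑ j ∈ range c, 1 / (c : ℂ) * f a * e (((a - m : ℤ) : ℝ) * j / c) =
      if a = (m % c).toNat then f a else 0 := by
    intro a ha
    rw [← mul_sum, orth c hc]
    have hm0 := Int.emod_nonneg m hcz.ne'
    have hm1 := Int.emod_lt_of_pos m hcz
    have hiff : ((c : ℤ) ∣ (a : ℤ) - m) ↔ a = (m % c).toNat := by
      constructor
      · intro h
        have h3 : (a : ℤ) % c = m % c :=
          Int.emod_eq_emod_iff_emod_sub_eq_zero.2 (Int.emod_eq_zero_of_dvd h)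
        rw [Int.emod_eq_of_lt (by positivity) (by exact_mod_cast mem_range.1 ha)] at h3
        omega
      · intro h
        have h3 : (a : ℤ) = m % c := by omega
        rw [h3]
        have := Int.emod_add_mul_ediv m c
        exact ⟨-(m / c), by linarith⟩
    by_cases h : a = (m % c).toNat
    · rw [if_pos (hiff.2 h), if_pos h]
      field_simp
    · rw [if_neg (fun h' => h (hiff.1 h')), if_neg h, mul_zero]
  rw [sum_congr rfl h2, sum_ite_eq']
  rw [if_pos]
  rw [mem_range]
  have hm0 := Int.emod_nonneg m hcz.ne'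
  have hm1 := Int.emod_lt_of_pos m hcz
  omega

/-- the data given by a Dirichlet character modulo `c ≥ 2` -/
theorem good_char' (c : ℕ) (hc : 2 ≤ c) (χ : DirichletCharacter ℂ c) (s : ℂ) (hs : χ (-1) = s)
    (hs1 : ‖s‖ ≤ 1) :
    ∃ chi v : ℕ → ℂ, Good c chi v s ∧ ∑ j ∈ range c, v j = 0 ∧
      (∀ n : ℕ, chi n = χ (n : ZMod c)) ∧
      ∀ j, v j = 1 / (c : ℂ) * ∑ a ∈ range c, χ (a : ZMod c) * e (a * j / c) := by
  have : NeZero c := ⟨by omega⟩
  set f : ℕ → ℂ := fun n => χ (n : ZMod c) with hf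
  set v : ℕ → ℂ := fun j => 1 / (c : ℂ) * ∑ a ∈ range c, f a * e (a * j / c) with hv
  have hval : ∀ m : ℤ, f (m % c).toNat = χ (m : ZMod c) := by
    intro m
    simp only [hf]
    congr 1
    have hm0 := Int.emod_nonneg m (by omega : (c : ℤ) ≠ 0)
    have : (((m % c).toNat : ℤ) : ZMod c) = ((m % c : ℤ) : ZMod c) := by
      rw [Int.toNat_of_nonneg hm0]
    rw [Int.cast_natCast] at this
    rw [this, ZMod.intCast_mod]
  have h0 : 0 < c := by omega
  refine ⟨f, v, ⟨h0, ?_, ?_, ?_, ?_, hs1, ?_, ?_, ?_⟩, ?_, fun n => rfl, fun j => rfl⟩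
  · intro n
    simp only [hf]
    rw [ZMod.natCast_mod]
  · intro n
    exact DirichletCharacter.norm_le_one χ _
  · intro m n
    simp only [hf]
    rw [Nat.cast_mul, map_mul]
  · simp [hf]
  · intro n _
    have := inv_fourier c h0 f (n : ℤ)
    rw [hval] at this
    simp only [Int.cast_natCast] at this
    exact this.symm
  · intro n _
    have := inv_fourier c h0 f (-(n : ℤ))
    rw [hval] at this
    have h1 : χ (((-(n : ℤ) : ℤ)) : ZMod c) = s * f n := by
      rw [← hs]
      simp only [hf]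
      rw [← map_mul]
      congr 1
      push_cast; ring
    rw [h1] at this
    rw [← this]
    refine sum_congr rfl fun j _ => ?_
    congr 2
    push_cast; ring
  · intro n hn
    by_contra h
    apply hn
    simp only [hf]
    exact MulChar.map_nonunit χ (fun h' => h ((ZMod.isUnit_iff_coprime n c).1 h'))
  · have := inv_fourier c h0 f 0
    rw [hval] at this
    have h1 : χ ((0 : ℤ) : ZMod c) = 0 := by
      rw [Int.cast_zero]
      have : Nontrivial (ZMod c) := ZMod.nontrivial_iff.2 (by omega)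
      exact MulChar.map_zero χ
    rw [h1] at this
    rw [← this]
    refine sum_congr rfl fun j _ => ?_
    simp [e_zero, hv]

theorem good_char (c : ℕ) (hc : 2 ≤ c) (χ : DirichletCharacter ℂ c) (s : ℂ) (hs : χ (-1) = s)
    (hs1 : ‖s‖ ≤ 1) :
    ∃ chi v : ℕ → ℂ, Good c chi v s ∧ ∑ j ∈ range c, v j = 0 := by
  obtain ⟨chi, v, h1, h2, -, -⟩ := good_char' c hc χ s hs hs1
  exact ⟨chi, v, h1, h2⟩

theorem good_even (c : ℕ) (hc : 2 ≤ c) :
    ∃ chi v : ℕ → ℂ, Good c chi v 1 ∧ ∑ j ∈ range c, v j = 0 := by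
  refine good_char c hc 1 1 ?_ (by simp)
  have : NeZero c := ⟨by omega⟩
  exact MulChar.one_apply (isUnit_one.neg)

theorem good_odd (c : ℕ) (hc : 3 ≤ c) :
    ∃ chi v : ℕ → ℂ, Good c chi v (-1) ∧ ∑ j ∈ range c, v j = 0 := by
  have : NeZero c := ⟨by omega⟩
  have : Fact (2 < c) := ⟨by omega⟩
  have hne : (-1 : ZMod c) ≠ 1 := ZMod.neg_one_ne_one
  obtain ⟨χ, hχ⟩ := MulChar.exists_apply_ne_one_of_hasEnoughRootsOfUnity (ZMod c) ℂ hne
  have h2 : χ (-1) * χ (-1) = 1 := by
    rw [← map_mul]; simp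
  have h3 : χ (-1) = -1 := by
    rcases mul_self_eq_one_iff.1 h2 with h | h
    · exact absurd h hχ
    · exact h
  exact good_char c (by omega) χ (-1) h3 (by simp)

/-- explicit data modulo 4 -/
noncomputable def v0 (j : ℕ) : ℂ := if j = 0 then 1 / 2 else if j = 2 then -1 / 2 else 0
noncomputable def v1 (j : ℕ) : ℂ :=
  if j = 1 then Complex.I / 2 else if j = 3 then -Complex.I / 2 else 0

end Pool.Agent.U349.OB
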