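import Pool.Agent.U349.OB.Boxes

/-!
# Complete uniform distribution of `x l ^ n`
-/

set_option autoImplicit false

namespace Pool.Agent.U349.OB

open Finset Filter Topology Polynomial
open Pool.Agent.H469R2.NK (e norm_e e_add e_zero conj_e)

/-- `u` is equidistributed modulo 1 -/
def EquiI (u : ℕ → ℝ) : Prop :=
  ∀ a b : ℝ, 0 ≤ a → a < b → b ≤ 1 → Tendsto (fun N : ℕ =>
    (((Icc 1 N).filter (fun n : ℕ => a ≤ Int.fract (u n) ∧ Int.fract (u n) < b)).card : ℝ) / (N : ℝ))
    atTop (𝓝 (b - a))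

/-- half of the numbers `u n` lie in `[1/4, 3/4)` modulo 1 -/
def EvHalf (u : ℕ → ℝ) : Prop :=
  Tendsto (fun N : ℕ => (((Icc 1 N).filter (fun n : ℕ => 1 / 4 ≤ Int.fract (u n) ∧
    Int.fract (u n) < 3 / 4)).card : ℝ) / (N : ℝ)) atTop (𝓝 (1 / 2))

/-- a third of the numbers `u n` lies in `[1/3, 2/3)` modulo 1 -/
def EvThird (u : ℕ → ℝ) : Prop :=
  Tendsto (fun N : ℕ => (((Icc 1 N).filter (fun n : ℕ => 1 / 3 ≤ Int.fract (u n) ∧
    Int.fract (u n) < 2 / 3)).card : ℝ) / (N : ℝ)) atTop (𝓝 (1 / 3))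

lemma icc_eq_image (N : ℕ) : Icc 1 N = (range N).image (fun i => i + 1) := by
  ext i
  rw [mem_Icc, mem_image]
  constructor
  · rintro ⟨h1, h2⟩
    exact ⟨i - 1, by rw [mem_range]; omega, by omega⟩
  · rintro ⟨j, hj, rfl⟩
    rw [mem_range] at hj; omega

lemma card_icc_filter (p : ℕ → Prop) [DecidablePred p] (N : ℕ) :
    ((Icc 1 N).filter p).card = ((range N).filter (fun i => p (i + 1))).card := by
  rw [icc_eq_image, filter_image, card_image_of_injective _ (fun a b h => by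
    have : a + 1 = b + 1 := h
    omega)]

lemma sum_icc (f : ℕ → ℂ) (N : ℕ) : ∑ n ∈ Icc 1 N, f n = ∑ i ∈ range N, f (i + 1) := by
  rw [icc_eq_image, sum_image (fun a _ b _ h => by
    have : a + 1 = b + 1 := h
    omega)]

lemma half_iff_bitG (l z : ℝ) : EvHalf (fun n => z * l ^ n) ↔ BitG l (z * l) := by
  unfold EvHalf BitG
  rw [freq_iff]
  have h : ∀ N : ℕ, ((Icc 1 N).filter (fun n : ℕ => 1 / 4 ≤ Int.fract (z * l ^ n) ∧
    Int.fract (z * l ^ n) < 3 / 4)).card = #{i ∈ range N | 1 / 4 ≤ Int.fract (z * l * l ^ i) ∧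
      Int.fract (z * l * l ^ i) < 3 / 4} := by
    intro N
    rw [card_icc_filter]
    simp only [pow_succ', mul_assoc]
  simp only [h]

lemma third_iff_midG (l z : ℝ) : EvThird (fun n => z * l ^ n) ↔ MidG l (z * l) := by
  unfold EvThird MidG
  rw [freq_iff]
  have h : ∀ N : ℕ, ((Icc 1 N).filter (fun n : ℕ => 1 / 3 ≤ Int.fract (z * l ^ n) ∧
    Int.fract (z * l ^ n) < 2 / 3)).card = #{i ∈ range N | 1 / 3 ≤ Int.fract (z * l * l ^ i) ∧
      Int.fract (z * l * l ^ i) < 2 / 3} := by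
    intro N
    rw [card_icc_filter]
    simp only [pow_succ', mul_assoc]
  simp only [h]

lemma equi_of_WG (l z : ℝ) (h : ∀ k : ℕ, 1 ≤ k → WG l (k * (z * l))) : EquiI (fun n => z * l ^ n) := by
  intro a b ha hab hb
  have h1 := interval_of_WG l (z * l) h a b ha hab hb
  rw [freq_iff] at h1
  refine h1.congr fun N => ?_
  congr 2
  rw [card_icc_filter]
  simp only [pow_succ', mul_assoc]

lemma CG_shift {l z : ℝ} (h : CG l z) (a : ℕ) : CG l (l ^ a * z) := by
  intro ε' hε'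
  obtain ⟨n0, hn0⟩ := h (ε' / 2) (by positivity)
  obtain ⟨n1, hn1⟩ := exists_nat_gt (2 * a / (ε' / 2))
  refine ⟨max n0 n1, fun n hn => ?_⟩
  have h1 := hn0 n (le_trans (le_max_left _ _) hn)
  have h2 : (n1 : ℝ) ≤ n := by exact_mod_cast le_trans (le_max_right _ _) hn
  have h3 : 2 * a < (ε' / 2) * n := by
    have : 2 * a / (ε' / 2) < n := lt_of_lt_of_le hn1 h2
    rw [div_lt_iff₀ (by linarith)] at this
    linarith
  have h4 := (Complex.abs_re_le_norm _).trans (EG_shift l z a n)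
  rw [Complex.sub_re] at h4
  have h5 : (EG l (l ^ a * z) n).re = ((EG l (l ^ a * z) n).re - (EG l z n).re) + (EG l z n).re := by ring
  rw [h5]
  refine (abs_add_le _ _).trans ?_
  linarith

/-- the number `x P(l) l` -/
noncomputable def zP (l x : ℝ) (P : ℤ[X]) : ℝ := x * aeval l P * l

lemma X_pow_sub_ne {p q : ℕ} (h : q < p) : (X ^ p - X ^ q : ℤ[X]) ≠ 0 := by
  intro h0
  have h1 := congrArg (fun Q : ℤ[X] => Q.coeff p) h0
  simp only [coeff_sub, coeff_X_pow, coeff_zero] at h1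
  simp [h.ne'] at h1

/-- from the cosines -/
lemma WG_of_CG (l x : ℝ) (h : ∀ P : ℤ[X], P ≠ 0 → CG l (zP l x P)) (P : ℤ[X]) (hP : P ≠ 0) :
    WG l (zP l x P) := by
  refine vdcG _ _ fun _ => ⟨fun p => p, fun p q hqp _ => ?_⟩
  have h1 := h ((X ^ p - X ^ q) * P) (mul_ne_zero (X_pow_sub_ne hqp) hP)
  have h2 : zP l x ((X ^ p - X ^ q) * P) = (l ^ p - l ^ q) * zP l x P := by
    unfold zP
    simp only [map_mul, map_sub, map_pow, aeval_X]
    ring
  rwa [h2] at h1

lemma zP_nat (l x : ℝ) (P : ℤ[X]) (k : ℕ) : (k : ℝ) * zP l x P = zP l x ((k : ℤ[X]) * P) := by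
  unfold zP
  simp only [map_mul, map_natCast]
  ring

lemma nat_mul_ne (k : ℕ) (hk : 1 ≤ k) (P : ℤ[X]) (hP : P ≠ 0) : (k : ℤ[X]) * P ≠ 0 :=
  mul_ne_zero (by exact_mod_cast (by omega : k ≠ 0)) hP

lemma sum_tuple (l x : ℝ) (P : ℤ[X]) (n d : ℕ) (hd : P.natDegree < d) :
    ∑ j : Fin d, ((P.coeff j : ℤ) : ℝ) * (x * l ^ (n + 1 + (j : ℕ))) = zP l x P * l ^ n := by
  unfold zP
  rw [aeval_eq_sum_range' hd, Fin.sum_univ_eq_sum_range (fun j => ((P.coeff j : ℤ) : ℝ) * (x * l ^ (n + 1 + j))) d,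
    mul_sum, sum_mul, sum_mul]
  refine sum_congr rfl fun j _ => ?_
  rw [zsmul_eq_mul, pow_add, pow_succ]
  ring

/-- **complete uniform distribution of `x l ^ n`** -/
theorem complete_tfae (l x : ℝ) : List.TFAE [
    ∀ d : ℕ, BoxEqui (fun n (j : Fin d) => x * l ^ (n + (j : ℕ))),
    ∀ P : ℤ[X], P ≠ 0 → EquiI (fun n => x * aeval l P * l ^ n),
    ∀ P : ℤ[X], P ≠ 0 → EvHalf (fun n => x * aeval l P * l ^ n),
    ∀ P : ℤ[X], P ≠ 0 → EvThird (fun n => x * aeval l P * l ^ n)] := by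
  have hW1 : (∀ P : ℤ[X], P ≠ 0 → WG l (zP l x P)) →
      ∀ d : ℕ, BoxEqui (fun n (j : Fin d) => x * l ^ (n + (j : ℕ))) := by
    intro h d
    refine boxEqui_of_weyl _ fun m hm ε hε => ?_
    set P : ℤ[X] := ∑ j : Fin d, C (m j) * X ^ (j : ℕ) with hPdef
    have hcoeff : ∀ j : Fin d, P.coeff j = m j := by
      intro j
      rw [hPdef, finsetSum_coeff]
      simp only [coeff_C_mul, coeff_X_pow]
      rw [sum_eq_single j]
      · simp
      · intro i _ hij
        rw [if_neg, mul_zero]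
        intro h1
        exact hij (Fin.ext h1.symm)
      · intro h1; exact absurd (mem_univ j) h1
    have hP : P ≠ 0 := by
      intro h0
      apply hm
      funext j
      rw [← hcoeff, h0, coeff_zero]; rfl
    have hdeg : P.natDegree < d := by
      rcases Nat.eq_zero_or_pos d with h0 | h0
      · exfalso
        apply hm
        funext j
        exact absurd j.2 (by omega)
      · rw [natDegree_lt_iff_degree_lt hP]
        rw [hPdef]
        refine lt_of_le_of_lt (degree_sum_le _ _) ?_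
        rw [Finset.sup_lt_iff (by exact_mod_cast WithBot.bot_lt_coe d)]
        intro j _
        refine lt_of_le_of_lt (degree_C_mul_X_pow_le _ _) ?_
        exact_mod_cast j.2
    obtain ⟨n0, hn0⟩ := h P hP ε hε
    refine ⟨n0, fun N hN => ?_⟩
    rw [sum_icc]
    have h1 := hn0 N hN
    unfold EG at h1
    have h2 : ∀ i, ∑ j : Fin d, ((m j : ℤ) : ℝ) * (x * l ^ (i + 1 + (j : ℕ))) = zP l x P * l ^ i := by
      intro i
      rw [← sum_tuple l x P i d hdeg]
      refine sum_congr rfl fun j _ => ?_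
      rw [hcoeff]
    simp only [h2]
    exact h1
  tfae_have 1 → 2 := by
    intro h P hP
    have hW : ∀ P : ℤ[X], P ≠ 0 → WG l (zP l x P) := by
      intro P hP ε hε
      obtain ⟨n0, hn0⟩ := weyl_of_boxEqui _ (h (P.natDegree + 1)) (fun j => P.coeff j) (by
        intro h0
        have h1 := congrFun h0 (Fin.last P.natDegree)
        simp only [Fin.val_last, Pi.zero_apply] at h1
        exact hP (leadingCoeff_eq_zero.1 h1)) ε hε
      refine ⟨n0, fun N hN => ?_⟩
      have h1 := hn0 N hN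
      rw [sum_icc] at h1
      unfold EG
      simp only [sum_tuple l x P _ (P.natDegree + 1) (Nat.lt_succ_self _)] at h1
      exact h1
    refine equi_of_WG l (x * aeval l P) fun k hk => ?_
    have := hW _ (nat_mul_ne k hk P hP)
    rwa [← zP_nat] at this
  tfae_have 2 → 3 := by
    intro h P hP
    have h1 := h P hP (1 / 4) (3 / 4) (by norm_num) (by norm_num) (by norm_num)
    have h2 : (3 / 4 - 1 / 4 : ℝ) = 1 / 2 := by norm_num
    rw [h2] at h1
    exact h1
  tfae_have 2 → 4 := by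
    intro h P hP
    have h1 := h P hP (1 / 3) (2 / 3) (by norm_num) (by norm_num) (by norm_num)
    have h2 : (2 / 3 - 1 / 3 : ℝ) = 1 / 3 := by norm_num
    rw [h2] at h1
    exact h1
  tfae_have 3 → 1 := by
    intro h
    refine hW1 (WG_of_CG l x fun P hP => cos_of_bitG _ _ fun k hk => ?_)
    have h1 := (half_iff_bitG l _).1 (h _ (nat_mul_ne k hk P hP))
    rw [zP_nat]
    exact h1
  tfae_have 4 → 1 := by
    intro h
    refine hW1 (WG_of_CG l x fun P hP => cos_of_midG _ _ fun k hk => ?_)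
    have h1 := (third_iff_midG l _).1 (h _ (nat_mul_ne k hk P hP))
    rw [zP_nat]
    exact h1
  tfae_finish

/-- binomials suffice for one sequence -/
theorem binomial (l x : ℝ) (h : (∀ k a : ℕ, 1 ≤ k → 1 ≤ a → EvHalf (fun n => k * (x * (l ^ a - 1)) * l ^ n)) ∨
    (∀ k a : ℕ, 1 ≤ k → 1 ≤ a → EvThird (fun n => k * (x * (l ^ a - 1)) * l ^ n))) :
    EquiI (fun n => x * l ^ n) := by
  have hC : ∀ m a : ℕ, 1 ≤ m → 1 ≤ a → CG l ((l ^ a - 1) * (m * (x * l))) := by
    intro m a hm ha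
    rcases h with h | h
    · refine cos_of_bitG _ _ fun k hk => ?_
      have h1 := (half_iff_bitG l _).1 (h (k * m) a (Nat.mul_pos hk hm) ha)
      have h2 : ((k * m : ℕ) : ℝ) * (x * (l ^ a - 1)) * l = k * ((l ^ a - 1) * (m * (x * l))) := by
        push_cast; ring
      rwa [h2] at h1
    · refine cos_of_midG _ _ fun k hk => ?_
      have h1 := (third_iff_midG l _).1 (h (k * m) a (Nat.mul_pos hk hm) ha)
      have h2 : ((k * m : ℕ) : ℝ) * (x * (l ^ a - 1)) * l = k * ((l ^ a - 1) * (m * (x * l))) := by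
        push_cast; ring
      rwa [h2] at h1
  refine equi_of_WG l x fun k hk => vdcG _ _ fun _ => ⟨fun p => p, fun p q hqp _ => ?_⟩
  have h1 := CG_shift (hC k (p - q) hk (by omega)) q
  have h2 : l ^ q * ((l ^ (p - q) - 1) * (k * (x * l))) = (l ^ p - l ^ q) * (k * (x * l)) := by
    have : l ^ p = l ^ q * l ^ (p - q) := by rw [← pow_add]; congr 1; omega
    rw [this]; ring
  rwa [h2] at h1

end Pool.Agent.U349.OB
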