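import Pool.Agent.U349.OB.Lim
import Pool.Agent.R485.Trans.Saw

/-!
# The inversion on finite families of points
-/

set_option autoImplicit false

namespace Pool.Agent.U349.OB

open Finset Filter Topology
open Pool.Agent.H469R2.NK (e norm_e e_add e_zero conj_e)
open Pool.Agent.H373R2.T7 (muR muR_abs)

/-- data (a periodic completely multiplicative function together with a representation by a
finite Fourier series, and its value `s` at `-1`) which the inversion uses -/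
structure Good (c : ℕ) (chi v : ℕ → ℂ) (s : ℂ) : Prop where
  hc : 0 < c
  per : ∀ n, chi (n % c) = chi n
  bd : ∀ n, ‖chi n‖ ≤ 1
  mul : ∀ m n, chi (m * n) = chi m * chi n
  one : chi 1 = 1
  hs : ‖s‖ ≤ 1
  add : ∀ n, 1 ≤ n → chi n = ∑ j ∈ range c, v j * e (-(n * j / c))
  add' : ∀ n, 1 ≤ n → s * chi n = ∑ j ∈ range c, v j * e (n * j / c)
  cop : ∀ n, chi n ≠ 0 → Nat.Coprime n c

/-- the statistic -/
noncomputable def St (c : ℕ) (v : ℕ → ℂ) (t : ℝ) : ℂ :=
  ∑ j ∈ range c, v j * ((psi (t - j / c) : ℝ) : ℂ)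

lemma TT_eq (c : ℕ) (chi v : ℕ → ℂ) (J : ℕ) (y : ℝ) :
    TT c chi v J y = ∑ n ∈ Ico 1 (2 ^ J), ((muR n : ℝ) : ℂ) * chi n / n * St c v (n * y) := by
  unfold TT SS St
  simp_rw [mul_sum]
  rw [sum_comm]
  refine sum_congr rfl fun n _ => sum_congr rfl fun j _ => ?_
  rw [sub_eq_add_neg]
  ring

theorem core {c : ℕ} {chi v : ℕ → ℂ} {s : ℂ} (g : Good c chi v s) (ε : ℝ) (hε : 0 < ε) :
    ∃ K : ℕ, ∃ δ : ℝ, 0 < δ ∧ ∀ {ι : Type} (S : Finset ι) (y : ι → ℝ),
      (∀ k : ℕ, 1 ≤ k → k ≤ K → Nat.Coprime k c → ‖∑ i ∈ S, St c v (k * y i)‖ ≤ δ * (#S : ℝ)) →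
      ‖∑ i ∈ S, (e (y i) - s * e (-y i))‖ ≤ ε * (#S : ℝ) := by
  obtain ⟨J, hJ⟩ := approx c chi v s g.hc g.per g.bd g.mul g.one g.hs g.add g.add'
    (ε / (4 * Real.pi)) (by positivity)
  have hJ := hJ J le_rfl
  refine ⟨2 ^ J, ε / (4 * Real.pi * 2 ^ J), by positivity, ?_⟩
  intro ι S y h
  have h1 : ‖∑ i ∈ S, TT c chi v J (y i)‖ ≤ ε / (4 * Real.pi) * (#S : ℝ) := by
    have : ∑ i ∈ S, TT c chi v J (y i) = ∑ n ∈ Ico 1 (2 ^ J), ((muR n : ℝ) : ℂ) * chi n / n *
        ∑ i ∈ S, St c v (n * y i) := by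
      simp_rw [TT_eq, mul_sum]
      rw [sum_comm]
    rw [this]
    refine (norm_sum_le _ _).trans ?_
    have h2 : ∀ n ∈ Ico 1 (2 ^ J), ‖((muR n : ℝ) : ℂ) * chi n / n * ∑ i ∈ S, St c v (n * y i)‖ ≤
        ε / (4 * Real.pi * 2 ^ J) * (#S : ℝ) := by
      intro n hn
      rw [mem_Ico] at hn
      by_cases hchi : chi n = 0
      · rw [hchi]
        simp only [mul_zero, zero_div, zero_mul, norm_zero]
        positivity
      rw [norm_mul]
      have h3 : ‖((muR n : ℝ) : ℂ) * chi n / n‖ ≤ 1 := by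
        rw [norm_div, norm_mul, Complex.norm_real, Real.norm_eq_abs]
        have h4 : ‖(n : ℂ)‖ = n := by simp
        rw [h4]
        have h5 : (1 : ℝ) ≤ n := by exact_mod_cast hn.1
        rw [div_le_one (by linarith)]
        have h6 := muR_abs n
        have h7 := g.bd n
        calc |muR n| * ‖chi n‖ ≤ 1 * 1 := by gcongr
          _ ≤ n := by linarith
      calc _ ≤ 1 * (ε / (4 * Real.pi * 2 ^ J) * (#S : ℝ)) :=
            mul_le_mul h3 (h n hn.1 hn.2.le (g.cop n hchi)) (norm_nonneg _) zero_le_one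
        _ = _ := one_mul _
    refine (sum_le_sum h2).trans ?_
    rw [sum_const, nsmul_eq_mul, Nat.card_Ico]
    have h8 : ((2 ^ J - 1 : ℕ) : ℝ) ≤ 2 ^ J := by
      have : (2 ^ J - 1 : ℕ) ≤ 2 ^ J := Nat.sub_le _ _
      exact_mod_cast this
    calc ((2 ^ J - 1 : ℕ) : ℝ) * (ε / (4 * Real.pi * 2 ^ J) * (#S : ℝ))
        ≤ 2 ^ J * (ε / (4 * Real.pi * 2 ^ J) * (#S : ℝ)) := by gcongr
      _ = _ := by field_simp
  have h2 : ‖∑ i ∈ S, (TT c chi v J (y i) -
      Complex.I / (2 * Real.pi) * (e (y i) - s * e (-y i)))‖ ≤ ε / (4 * Real.pi) * (#S : ℝ) := by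
    refine (norm_sum_le _ _).trans ?_
    refine (sum_le_sum fun i _ => hJ (y i)).trans ?_
    rw [sum_const, nsmul_eq_mul, mul_comm]
  have h3 : Complex.I / (2 * Real.pi) * ∑ i ∈ S, (e (y i) - s * e (-y i)) =
      ∑ i ∈ S, TT c chi v J (y i) - ∑ i ∈ S, (TT c chi v J (y i) -
      Complex.I / (2 * Real.pi) * (e (y i) - s * e (-y i))) := by
    rw [← sum_sub_distrib, mul_sum]
    refine sum_congr rfl fun i _ => ?_
    ring
  have h4 : ‖Complex.I / (2 * Real.pi) * ∑ i ∈ S, (e (y i) - s * e (-y i))‖ ≤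
      ε / (2 * Real.pi) * (#S : ℝ) := by
    rw [h3]
    refine (norm_sub_le _ _).trans ((add_le_add h1 h2).trans (le_of_eq ?_))
    field_simp
    ring
  rw [norm_mul] at h4
  have h5 : ‖Complex.I / (2 * (Real.pi : ℂ))‖ = 1 / (2 * Real.pi) := by
    rw [norm_div, Complex.norm_I, norm_mul, Complex.norm_real, Real.norm_eq_abs,
      abs_of_pos Real.pi_pos]
    simp
  rw [h5] at h4
  have h6 := Real.pi_pos
  have h7 : ε / (2 * Real.pi) * (#S : ℝ) = 1 / (2 * Real.pi) * (ε * #S) := by ring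
  rw [h7] at h4
  exact le_of_mul_le_mul_left h4 (by positivity)

/-- two statistics, one even and one odd, give the exponential sums -/
theorem weyl_of_stat {c₁ : ℕ} {chi₁ v₁ : ℕ → ℂ} {c₂ : ℕ} {chi₂ v₂ : ℕ → ℂ}
    (g₁ : Good c₁ chi₁ v₁ 1) (g₂ : Good c₂ chi₂ v₂ (-1)) (ε : ℝ) (hε : 0 < ε) :
    ∃ K : ℕ, ∃ δ : ℝ, 0 < δ ∧ ∀ {ι : Type} (S : Finset ι) (y : ι → ℝ),
      (∀ k : ℕ, 1 ≤ k → k ≤ K → Nat.Coprime k c₁ → ‖∑ i ∈ S, St c₁ v₁ (k * y i)‖ ≤ δ * (#S : ℝ)) →
      (∀ k : ℕ, 1 ≤ k → k ≤ K → Nat.Coprime k c₂ → ‖∑ i ∈ S, St c₂ v₂ (k * y i)‖ ≤ δ * (#S : ℝ)) →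
      ‖∑ i ∈ S, e (y i)‖ ≤ ε * (#S : ℝ) := by
  obtain ⟨K₁, δ₁, hδ₁, hK₁⟩ := core g₁ ε hε
  obtain ⟨K₂, δ₂, hδ₂, hK₂⟩ := core g₂ ε hε
  refine ⟨max K₁ K₂, min δ₁ δ₂, lt_min hδ₁ hδ₂, ?_⟩
  intro ι S y hst₁ hst₂
  have hS : (0 : ℝ) ≤ #S := Nat.cast_nonneg _
  have a1 := hK₁ S y (fun k hk1 hk2 hk3 => (hst₁ k hk1 (hk2.trans (le_max_left _ _)) hk3).trans
    (mul_le_mul_of_nonneg_right (min_le_left _ _) hS))
  have a2 := hK₂ S y (fun k hk1 hk2 hk3 => (hst₂ k hk1 (hk2.trans (le_max_right _ _)) hk3).trans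
    (mul_le_mul_of_nonneg_right (min_le_right _ _) hS))
  have h3 : ∑ i ∈ S, e (y i) = 1 / 2 * (∑ i ∈ S, (e (y i) - 1 * e (-y i))) +
      1 / 2 * (∑ i ∈ S, (e (y i) - (-1) * e (-y i))) := by
    rw [← mul_add, ← sum_add_distrib, mul_sum]
    refine sum_congr rfl fun i _ => ?_
    ring
  rw [h3]
  refine (norm_add_le _ _).trans ?_
  rw [norm_mul, norm_mul]
  have h4 : ‖(1 / 2 : ℂ)‖ = 1 / 2 := by norm_num
  rw [h4]
  linarith

/-! ### the statistic of the character data in terms of digits -/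

/-- the value of the statistic only depends on `⌊c t⌋ mod c` -/
lemma St_eq (c : ℕ) (hc : 0 < c) (v : ℕ → ℂ) (hv : ∑ j ∈ range c, v j = 0) (t : ℝ) :
    St c v t = ∑ d ∈ range c, (∑ j ∈ range (d + 1), v j) *
      (1 / c - if ⌊(c : ℝ) * t⌋ % c = (d : ℤ) then 1 else 0) := by
  have hcR : (0 : ℝ) < c := by exact_mod_cast hc
  have hcz : (0 : ℤ) < c := by exact_mod_cast hc
  have hcC : (c : ℂ) ≠ 0 := by exact_mod_cast hc.ne'
  set m : ℤ := ⌊(c : ℝ) * t⌋ with hm
  set r : ℝ := Int.fract ((c : ℝ) * t) with hr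
  have hmr : (c : ℝ) * t = m + r := (Int.floor_add_fract _).symm
  have hr0 : 0 ≤ r := Int.fract_nonneg _
  have hr1 : r < 1 := Int.fract_lt_one _
  obtain ⟨d, hd⟩ : ∃ d : ℕ, (d : ℤ) = m % c :=
    ⟨(m % c).toNat, Int.toNat_of_nonneg (Int.emod_nonneg _ hcz.ne')⟩
  have hdc : d < c := by
    have := Int.emod_lt_of_pos m hcz
    omega
  have hmq : (m : ℝ) = c * ((m / c : ℤ) : ℝ) + d := by
    have := Int.emod_add_mul_ediv m c
    rw [← hd] at this
    have h2 : (m : ℤ) = c * (m / c) + d := by linarith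
    exact_mod_cast h2
  have hpsi : ∀ j ∈ range c, ((psi (t - j / c) : ℝ) : ℂ) =
      ((d + r) / c - 1 / 2 : ℝ) - (j : ℂ) / c + if d < j then 1 else 0 := by
    intro j hj
    rw [mem_range] at hj
    have ht : t - j / c = ((d : ℝ) - j + r) / c + ((m / c : ℤ) : ℝ) := by
      have : t = (m + r) / c := by rw [← hmr]; field_simp
      rw [this, hmq]; field_simp; ring
    rw [ht, psi_add_int]
    have hjc : (j : ℝ) ≤ c - 1 := by
      have : j + 1 ≤ c := hj
      have : (j : ℝ) + 1 ≤ c := by exact_mod_cast this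
      linarith
    have hdcR : (d : ℝ) + 1 ≤ c := by exact_mod_cast hdc
    unfold psi
    by_cases h : d < j
    · rw [if_pos h]
      have h1 : (d : ℝ) + 1 ≤ j := by exact_mod_cast h
      have h2 : Int.fract (((d : ℝ) - j + r) / c) = ((d : ℝ) - j + r) / c + 1 := by
        rw [Int.fract_eq_iff]
        refine ⟨?_, ?_, -1, by push_cast; ring⟩
        · rw [← sub_nonneg]
          have : ((d : ℝ) - j + r) / c + 1 - 0 = (d - j + r + c) / c := by field_simp; ring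
          rw [this]
          apply div_nonneg _ hcR.le
          have : (0 : ℝ) ≤ d := Nat.cast_nonneg _
          linarith
        · have : ((d : ℝ) - j + r) / c < 0 := div_neg_of_neg_of_pos (by linarith) hcR
          linarith
      rw [h2]
      push_cast; ring
    · rw [if_neg h]
      push Not at h
      have h1 : (j : ℝ) ≤ d := by exact_mod_cast h
      have h2 : Int.fract (((d : ℝ) - j + r) / c) = ((d : ℝ) - j + r) / c := by
        rw [Int.fract_eq_self]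
        refine ⟨div_nonneg (by linarith) hcR.le, ?_⟩
        rw [div_lt_one hcR]
        have : (0 : ℝ) ≤ j := Nat.cast_nonneg _
        linarith
      rw [h2]
      push_cast; ring
  have hW : ∀ a : ℕ, a ≤ c → ∑ i ∈ range a, ∑ j ∈ range (i + 1), v j =
      ∑ j ∈ range a, v j * ((a : ℂ) - j) := by
    intro a
    induction a with
    | zero => simp
    | succ a ih =>
      intro ha
      rw [sum_range_succ, ih (by omega), sum_range_succ (fun j => v j * (((a + 1 : ℕ) : ℂ) - j)),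
        sum_range_succ, ← add_assoc, ← sum_add_distrib]
      congr 1
      · refine sum_congr rfl fun j _ => ?_
        push_cast; ring
      · push_cast; ring
  have hleft : St c v t = (∑ j ∈ range c, v j * (1 - (j : ℂ) / c)) -
      ∑ j ∈ range (d + 1), v j := by
    unfold St
    have h1 : ∀ j ∈ range c, v j * ((psi (t - j / c) : ℝ) : ℂ) =
        v j * (((d + r) / c - 1 / 2 : ℝ) : ℂ) + (v j * (1 - (j : ℂ) / c) -
          if j < d + 1 then v j else 0) := by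
      intro j hj
      rw [hpsi j hj]
      by_cases h : d < j
      · rw [if_pos h, if_neg (by omega)]; ring
      · rw [if_neg h, if_pos (by omega)]; ring
    rw [sum_congr rfl h1, sum_add_distrib, ← sum_mul, hv, zero_mul, zero_add, sum_sub_distrib]
    congr 1
    rw [← sum_filter]
    refine sum_congr ?_ fun _ _ => rfl
    ext j
    simp only [mem_filter, mem_range]
    omega
  have hright : ∑ i ∈ range c, (∑ j ∈ range (i + 1), v j) *
      (1 / (c : ℂ) - if m % c = (i : ℤ) then 1 else 0) =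
      (∑ j ∈ range c, v j * (1 - (j : ℂ) / c)) - ∑ j ∈ range (d + 1), v j := by
    simp_rw [mul_sub]
    rw [sum_sub_distrib, ← sum_mul, hW c le_rfl, sum_mul]
    congr 1
    · refine sum_congr rfl fun j _ => ?_
      field_simp
    · have h1 : ∀ i ∈ range c, (∑ j ∈ range (i + 1), v j) * (if m % c = (i : ℤ) then (1 : ℂ) else 0) =
          if i = d then ∑ j ∈ range (i + 1), v j else 0 := by
        intro i _
        by_cases h : i = d
        · rw [if_pos h, if_pos (by rw [h, hd]), mul_one]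
        · rw [if_neg h, if_neg (by rw [← hd]; exact fun h' => h (by exact_mod_cast h'.symm)),
            mul_zero]
      rw [sum_congr rfl h1, sum_ite_eq', if_pos (mem_range.2 hdc)]
  rw [hleft, hright]

/-- if every digit has nearly the right frequency, then the statistic is small -/
lemma St_small (c : ℕ) (hc : 0 < c) (v : ℕ → ℂ) (hv : ∑ j ∈ range c, v j = 0) (δ : ℝ) (hδ : 0 < δ) :
    ∃ δ' : ℝ, 0 < δ' ∧ ∀ {ι : Type} (S : Finset ι) (y : ι → ℝ),
      (∀ d : ℕ, d < c → |((#{i ∈ S | ⌊(c : ℝ) * y i⌋ % c = (d : ℤ)} : ℕ) : ℝ) - #S / c| ≤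
        δ' * #S) → ‖∑ i ∈ S, St c v (y i)‖ ≤ δ * #S := by
  set W : ℝ := ∑ d ∈ range c, ‖∑ j ∈ range (d + 1), v j‖ with hW
  have hW0 : 0 ≤ W := sum_nonneg fun _ _ => norm_nonneg _
  refine ⟨δ / (W + 1), by positivity, ?_⟩
  intro ι S y h
  have h1 : ∑ i ∈ S, St c v (y i) = ∑ d ∈ range c, (∑ j ∈ range (d + 1), v j) *
      ((((#S : ℝ) / c - ((#{i ∈ S | ⌊(c : ℝ) * y i⌋ % c = (d : ℤ)} : ℕ) : ℝ) : ℝ)) : ℂ) := by
    simp_rw [St_eq c hc v hv]
    rw [sum_comm]
    refine sum_congr rfl fun d _ => ?_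
    rw [← mul_sum, sum_sub_distrib, sum_const, nsmul_eq_mul]
    congr 1
    push_cast
    congr 1
    · ring
    · rw [sum_boole]
  rw [h1]
  refine (norm_sum_le _ _).trans ?_
  have h2 : ∀ d ∈ range c, ‖(∑ j ∈ range (d + 1), v j) *
      ((((#S : ℝ) / c - ((#{i ∈ S | ⌊(c : ℝ) * y i⌋ % c = (d : ℤ)} : ℕ) : ℝ) : ℝ)) : ℂ)‖ ≤
      ‖∑ j ∈ range (d + 1), v j‖ * (δ / (W + 1) * #S) := by
    intro d hd
    rw [norm_mul, Complex.norm_real, Real.norm_eq_abs, abs_sub_comm]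
    exact mul_le_mul_of_nonneg_left (h d (mem_range.1 hd)) (norm_nonneg _)
  refine (sum_le_sum h2).trans ?_
  rw [← sum_mul, ← hW]
  have hS : (0 : ℝ) ≤ #S := Nat.cast_nonneg _
  calc W * (δ / (W + 1) * #S) = (W / (W + 1)) * (δ * #S) := by field_simp
    _ ≤ 1 * (δ * #S) := by
        apply mul_le_mul_of_nonneg_right _ (by positivity)
        rw [div_le_one (by positivity)]; linarith
    _ = _ := one_mul _

end Pool.Agent.U349.OB
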