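import Pool.Agent.U349.OB.Pair

/-!
# Orbits `z λ ^ i` of a real number `λ`
-/

set_option autoImplicit false

namespace Pool.Agent.U349.OB

open Finset Filter Topology
open Pool.Agent.H469R2.NK (e norm_e e_add e_zero conj_e)

/-- exponential sums along `z l ^ i` -/
noncomputable def EG (l z : ℝ) (n : ℕ) : ℂ := ∑ i ∈ range n, e (z * l ^ i)

/-- the exponential sums are `o(n)` -/
def WG (l z : ℝ) : Prop := ∀ ε : ℝ, 0 < ε → ∃ n0 : ℕ, ∀ n, n0 ≤ n → ‖EG l z n‖ ≤ ε * n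

/-- the cosine sums are `o(n)` -/
def CG (l z : ℝ) : Prop := ∀ ε : ℝ, 0 < ε → ∃ n0 : ℕ, ∀ n, n0 ≤ n → |(EG l z n).re| ≤ ε * n

lemma EG_shift (l z : ℝ) (a n : ℕ) : ‖EG l (l ^ a * z) n - EG l z n‖ ≤ 2 * a := by
  have h1 : EG l (l ^ a * z) n = EG l z (n + a) - EG l z a := by
    unfold EG
    rw [add_comm n a, sum_range_add, add_sub_cancel_left]
    refine sum_congr rfl fun i _ => ?_
    congr 1
    rw [pow_add]; ring
  have h2 : EG l z (n + a) = EG l z n + ∑ i ∈ range a, e (z * l ^ (n + i)) := by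
    unfold EG
    rw [sum_range_add]
  rw [h1, h2]
  have h3 : ∀ (f : ℕ → ℝ), ‖∑ i ∈ range a, e (f i)‖ ≤ a := by
    intro f
    refine (norm_sum_le _ _).trans ?_
    simp [norm_e]
  have h4 := h3 (fun i => z * l ^ (n + i))
  have h5 : ‖EG l z a‖ ≤ a := h3 _
  have h6 : EG l z n + ∑ i ∈ range a, e (z * l ^ (n + i)) - EG l z a - EG l z n =
      ∑ i ∈ range a, e (z * l ^ (n + i)) - EG l z a := by ring
  rw [h6]
  refine (norm_sub_le _ _).trans ?_
  linarith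

/-- van der Corput trick along `z l ^ i`: only the cosines of the differences are needed -/
theorem vdcG (l z : ℝ) (h : ∀ P : ℕ, ∃ a : ℕ → ℕ, ∀ p q, q < p → p < P →
    CG l ((l ^ (a p) - l ^ (a q)) * z)) : WG l z := by
  intro ε' hε'0
  obtain ⟨P, hP⟩ := exists_nat_gt (4 / ε' ^ 2)
  have hPR : (0 : ℝ) < P := lt_of_le_of_lt (by positivity) hP
  obtain ⟨a, ha⟩ := h P
  set ε : ℝ := ε' ^ 2 / 2 with hεdef
  have hε : 0 < ε := by positivity
  have hε' : 1 / (P : ℝ) + ε < ε' ^ 2 := by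
    have : 1 / (P : ℝ) < ε' ^ 2 / 4 := by
      rw [div_lt_iff₀ hPR]
      rw [div_lt_iff₀ (by positivity)] at hP
      linarith
    nlinarith [sq_pos_of_pos hε'0]
  -- a common threshold
  obtain ⟨n0, hn0⟩ := exists_max P (fun p n => ∀ q ≤ P, q < p → p < P →
      |(EG l ((l ^ (a p) - l ^ (a q)) * z) n).re| ≤ ε * n) (by
    intro p _
    have := exists_max P (fun q n => q < p → p < P →
      |(EG l ((l ^ (a p) - l ^ (a q)) * z) n).re| ≤ ε * n) (by
        intro q _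
        by_cases h' : q < p ∧ p < P
        · obtain ⟨n0, hn0⟩ := ha p q h'.1 h'.2 ε hε
          exact ⟨n0, fun n hn _ _ => hn0 n hn⟩
        · exact ⟨0, fun n _ h1 h2 => absurd ⟨h1, h2⟩ h'⟩)
    exact this)
  set B : ℝ := ∑ p ∈ range P, 2 * (a p : ℝ) with hB
  have hB0 : 0 ≤ B := sum_nonneg fun _ _ => by positivity
  set ρ : ℝ := Real.sqrt (1 / (P : ℝ) + ε) with hρ
  have hρε : ρ < ε' := by
    rw [hρ, Real.sqrt_lt' hε'0]
    exact hε'
  obtain ⟨n1, hn1⟩ := exists_nat_gt (B / (P * (ε' - ρ)))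
  refine ⟨max n0 n1, fun n hn => ?_⟩
  have hnn0 := le_trans (le_max_left _ _) hn
  have hnn1 : (n1 : ℝ) ≤ n := by exact_mod_cast le_trans (le_max_right _ _) hn
  set u : ℕ → ℂ := fun i => ∑ p ∈ range P, e (l ^ (a p) * z * l ^ i) with hu
  -- the second moment
  have h1 : ∑ i ∈ range n, ‖u i‖ ^ 2 ≤ (P + P ^ 2 * ε) * n := by
    have h2 : ∀ i, ((‖u i‖ ^ 2 : ℝ) : ℂ) = ∑ p ∈ range P, ∑ q ∈ range P,
        e ((l ^ (a p) - l ^ (a q)) * z * l ^ i) := by
      intro i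
      have : ((‖u i‖ ^ 2 : ℝ) : ℂ) = u i * (starRingEnd ℂ) (u i) := by
        rw [Complex.mul_conj, Complex.normSq_eq_norm_sq]
      rw [this]
      simp only [hu]
      rw [map_sum, sum_mul_sum]
      refine sum_congr rfl fun p _ => sum_congr rfl fun q _ => ?_
      rw [conj_e, ← e_add]
      congr 1; ring
    have h3 : ((∑ i ∈ range n, ‖u i‖ ^ 2 : ℝ) : ℂ) = ∑ p ∈ range P, ∑ q ∈ range P,
        EG l ((l ^ (a p) - l ^ (a q)) * z) n := by
      rw [Complex.ofReal_sum, sum_congr rfl fun i _ => h2 i, sum_comm]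
      refine sum_congr rfl fun p _ => ?_
      rw [sum_comm]
      rfl
    have h3' : ∑ i ∈ range n, ‖u i‖ ^ 2 = ∑ p ∈ range P, ∑ q ∈ range P,
        (EG l ((l ^ (a p) - l ^ (a q)) * z) n).re := by
      have := congrArg Complex.re h3
      rw [Complex.ofReal_re, Complex.re_sum] at this
      rw [this]
      refine sum_congr rfl fun p _ => ?_
      rw [Complex.re_sum]
    have h4 : ∑ i ∈ range n, ‖u i‖ ^ 2 ≤ ∑ p ∈ range P, ∑ q ∈ range P,
        ((if p = q then (n : ℝ) else 0) + ε * n) := by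
      rw [h3']
      refine (sum_le_sum fun p hp => (sum_le_sum fun q hq => ?_))
      rw [mem_range] at hp hq
      have hεn : 0 ≤ ε * n := by positivity
      rcases lt_trichotomy p q with hpq | hpq | hpq
      · rw [if_neg hpq.ne, zero_add]
        have h5 := hn0 n hnn0 q hq.le p hp.le hpq hq
        have h6 : EG l ((l ^ (a p) - l ^ (a q)) * z) n =
            (starRingEnd ℂ) (EG l ((l ^ (a q) - l ^ (a p)) * z) n) := by
          unfold EG
          rw [map_sum]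
          refine sum_congr rfl fun i _ => ?_
          rw [conj_e]
          congr 1; ring
        rw [h6, Complex.conj_re]
        exact (le_abs_self _).trans h5
      · rw [if_pos hpq]
        have : ‖EG l ((l ^ (a p) - l ^ (a q)) * z) n‖ ≤ n := by
          unfold EG
          refine (norm_sum_le _ _).trans ?_
          simp [norm_e]
        have := (le_abs_self _).trans ((Complex.abs_re_le_norm _).trans this)
        linarith
      · rw [if_neg hpq.ne', zero_add]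
        exact (le_abs_self _).trans (hn0 n hnn0 p hp.le q hq.le hpq hp)
    have h5 : ∑ p ∈ range P, ∑ q ∈ range P, ((if p = q then (n : ℝ) else 0) + ε * n) =
        (P + P ^ 2 * ε) * n := by
      have h6 : ∀ p ∈ range P, ∑ q ∈ range P, ((if p = q then (n : ℝ) else 0) + ε * n) =
          n + P * (ε * n) := by
        intro p hp
        rw [sum_add_distrib, sum_ite_eq, if_pos hp, sum_const, nsmul_eq_mul, card_range]
      rw [sum_congr rfl h6, sum_const, nsmul_eq_mul, card_range]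
      ring
    rw [h5] at h4
    exact h4
  have h2 : ‖∑ i ∈ range n, u i‖ ≤ P * ρ * n := by
    have h3 : ‖∑ i ∈ range n, u i‖ ^ 2 ≤ (P * ρ * n) ^ 2 := by
      calc ‖∑ i ∈ range n, u i‖ ^ 2 ≤ (∑ i ∈ range n, ‖u i‖) ^ 2 := by
            gcongr; exact norm_sum_le _ _
        _ ≤ (#(range n) : ℝ) * ∑ i ∈ range n, ‖u i‖ ^ 2 := sq_sum_le_card_mul_sum_sq
        _ ≤ n * ((P + P ^ 2 * ε) * n) := by
            rw [card_range]; gcongr
        _ = (P * ρ * n) ^ 2 := by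
            rw [mul_pow, mul_pow, hρ, Real.sq_sqrt (by positivity)]
            field_simp
    exact abs_le_of_sq_le_sq' h3 (by positivity) |>.2
  have h3 : ‖∑ i ∈ range n, u i - P * EG l z n‖ ≤ B := by
    have h4 : ∑ i ∈ range n, u i - P * EG l z n =
        ∑ p ∈ range P, (EG l (l ^ (a p) * z) n - EG l z n) := by
      rw [sum_sub_distrib, sum_const, nsmul_eq_mul, card_range]
      congr 1
      simp only [hu]
      rw [sum_comm]
      rfl
    rw [h4, hB]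
    exact (norm_sum_le _ _).trans (sum_le_sum fun p _ => EG_shift l z (a p) n)
  have h4 : (P : ℝ) * ‖EG l z n‖ ≤ P * ρ * n + B := by
    have h5 : (P : ℝ) * ‖EG l z n‖ = ‖(P : ℂ) * EG l z n‖ := by
      rw [norm_mul]; simp
    rw [h5]
    have h6 : (P : ℂ) * EG l z n = ∑ i ∈ range n, u i - (∑ i ∈ range n, u i - P * EG l z n) := by
      ring
    rw [h6]
    refine (norm_sub_le _ _).trans ?_
    linarith
  have h5 : B < P * (ε' - ρ) * n := by
    have : B / (P * (ε' - ρ)) < n := lt_of_lt_of_le hn1 hnn1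
    rw [div_lt_iff₀ (mul_pos hPR (by linarith))] at this
    linarith
  have h6 : (P : ℝ) * ‖EG l z n‖ ≤ P * (ε' * n) := by nlinarith
  exact le_of_mul_le_mul_left h6 hPR

lemma WG.cos {l z : ℝ} (h : WG l z) : CG l z := by
  intro ε hε
  obtain ⟨n0, hn0⟩ := h ε hε
  exact ⟨n0, fun n hn => (Complex.abs_re_le_norm _).trans (hn0 n hn)⟩

lemma WG.neg {l z : ℝ} (h : WG l z) : WG l (-z) := by
  intro ε hε
  obtain ⟨n0, hn0⟩ := h ε hε
  refine ⟨n0, fun n hn => ?_⟩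
  have h1 : EG l (-z) n = (starRingEnd ℂ) (EG l z n) := by
    unfold EG
    rw [map_sum]
    refine sum_congr rfl fun i _ => ?_
    rw [conj_e]
    congr 1; ring
  rw [h1, RCLike.norm_conj]
  exact hn0 n hn

/-! ### the two events -/

/-- half of the points `z l ^ i` lie in `[1/4, 3/4)` modulo one -/
def BitG (l z : ℝ) : Prop :=
  Freq (fun n => ((#{i ∈ range n | 1 / 4 ≤ Int.fract (z * l ^ i) ∧
      Int.fract (z * l ^ i) < 3 / 4} : ℕ) : ℝ)) (1 / 2)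

/-- a third of the points `z l ^ i` lie in `[1/3, 2/3)` modulo one -/
def MidG (l z : ℝ) : Prop :=
  Freq (fun n => ((#{i ∈ range n | 1 / 3 ≤ Int.fract (z * l ^ i) ∧
      Int.fract (z * l ^ i) < 2 / 3} : ℕ) : ℝ)) (1 / 3)

theorem cos_of_bitG (l z : ℝ) (hz : ∀ k : ℕ, 1 ≤ k → BitG l (k * z)) : CG l z := by
  intro ε hε
  obtain ⟨K, δ, hδ, hK⟩ := cos_of_bit ε hε
  obtain ⟨n0, hn0⟩ := exists_max K (fun k n => 1 ≤ k →
    |((#{i ∈ range n | 1 / 4 ≤ Int.fract (k * z * l ^ i) ∧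
      Int.fract (k * z * l ^ i) < 3 / 4} : ℕ) : ℝ) - 1 / 2 * n| ≤ δ * n) (by
    intro k hk
    by_cases hk1 : 1 ≤ k
    · obtain ⟨n0, hn0⟩ := hz k hk1 δ hδ
      exact ⟨n0, fun n hn _ => hn0 n hn⟩
    · exact ⟨0, fun n _ h => absurd h hk1⟩)
  refine ⟨n0, fun n hn => ?_⟩
  have h1 := hK (range n) (fun i => z * l ^ i) (by
    intro k hk1 hk2 _
    have := hn0 n hn k hk2 hk1
    rw [card_range]
    simp only [mul_assoc] at this ⊢
    exact this)
  rw [card_range] at h1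
  unfold EG
  rw [Complex.re_sum]
  simp only [re_e]
  exact h1

lemma mid_iff (t : ℝ) : (1 / 3 ≤ Int.fract t ∧ Int.fract t < 2 / 3) ↔
    ⌊((3 : ℕ) : ℝ) * t⌋ % ((3 : ℕ) : ℤ) = ((1 : ℕ) : ℤ) := by
  rw [cell_iff 3 (by norm_num) 1 (by norm_num)]
  norm_num

/-- `cos` sums are small if all multiples `k ≤ K` have the right frequency of the middle third -/
theorem cos_of_mid (ε : ℝ) (hε : 0 < ε) : ∃ K : ℕ, ∃ δ : ℝ, 0 < δ ∧ ∀ {ι : Type} (S : Finset ι)
    (y : ι → ℝ), (∀ k : ℕ, 1 ≤ k → k ≤ K → ¬ 3 ∣ k →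
      |((#{i ∈ S | 1 / 3 ≤ Int.fract (k * y i) ∧ Int.fract (k * y i) < 2 / 3} : ℕ) : ℝ) - 1 / 3 * #S| ≤
        δ * #S) → |∑ i ∈ S, Real.cos (2 * Real.pi * y i)| ≤ ε * #S := by
  obtain ⟨chi, v, hg, hv, hsym⟩ := good_odd_symm 3 le_rfl
  obtain ⟨K, δ, hδ, hK⟩ := core hg ε hε
  obtain ⟨δ', hδ', hs⟩ := St_small_pair 3 (by norm_num) v hv hsym δ hδ
  refine ⟨K, δ' / 2, by positivity, ?_⟩
  intro ι S y h
  have hS : (0 : ℝ) ≤ #S := Nat.cast_nonneg _
  have h1 := hK S y (by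
    intro k hk1 hk2 hk3
    have hk4 : ¬ 3 ∣ k := by
      intro h2
      have h5 : (3 : ℕ) ∣ Nat.gcd k 3 := Nat.dvd_gcd h2 (by norm_num)
      rw [hk3] at h5
      omega
    have h2 := h k hk1 hk2 hk4
    refine hs S (fun i => k * y i) fun d hd => ?_
    simp only [mid_iff] at h2
    set A : ℝ := ((#{i ∈ S | ⌊((3 : ℕ) : ℝ) * (k * y i)⌋ % ((3 : ℕ) : ℤ) = ((1 : ℕ) : ℤ)} : ℕ) : ℝ) with hA
    have hAB : |A - 1 / 3 * #S| ≤ δ' / 2 * #S := h2
    have hsum : ((#{i ∈ S | ⌊((3 : ℕ) : ℝ) * (k * y i)⌋ % ((3 : ℕ) : ℤ) = ((0 : ℕ) : ℤ)} : ℕ) : ℝ) +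
        ((#{i ∈ S | ⌊((3 : ℕ) : ℝ) * (k * y i)⌋ % ((3 : ℕ) : ℤ) = ((2 : ℕ) : ℤ)} : ℕ) : ℝ) = #S - A := by
      classical
      have h3 := card_filter_add_card_filter_not (s := S)
        (fun i => ⌊((3 : ℕ) : ℝ) * (k * y i)⌋ % ((3 : ℕ) : ℤ) = ((1 : ℕ) : ℤ))
      have h4 : ({i ∈ S | ¬ ⌊((3 : ℕ) : ℝ) * (k * y i)⌋ % ((3 : ℕ) : ℤ) = ((1 : ℕ) : ℤ)} : Finset ι) =
          {i ∈ S | ⌊((3 : ℕ) : ℝ) * (k * y i)⌋ % ((3 : ℕ) : ℤ) = ((0 : ℕ) : ℤ)} ∪
          {i ∈ S | ⌊((3 : ℕ) : ℝ) * (k * y i)⌋ % ((3 : ℕ) : ℤ) = ((2 : ℕ) : ℤ)} := by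
        rw [← filter_or]
        refine filter_congr fun i _ => ?_
        push_cast
        omega
      have h5 : Disjoint {i ∈ S | ⌊((3 : ℕ) : ℝ) * (k * y i)⌋ % ((3 : ℕ) : ℤ) = ((0 : ℕ) : ℤ)}
          {i ∈ S | ⌊((3 : ℕ) : ℝ) * (k * y i)⌋ % ((3 : ℕ) : ℤ) = ((2 : ℕ) : ℤ)} := by
        rw [disjoint_filter]
        intro i _ h6 h7
        rw [h6] at h7
        norm_num at h7
      rw [h4, card_union_of_disjoint h5] at h3
      have h6 : (#S : ℝ) = A + (((#{i ∈ S | ⌊((3 : ℕ) : ℝ) * (k * y i)⌋ % ((3 : ℕ) : ℤ) = ((0 : ℕ) : ℤ)} : ℕ) : ℝ) +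
          ((#{i ∈ S | ⌊((3 : ℕ) : ℝ) * (k * y i)⌋ % ((3 : ℕ) : ℤ) = ((2 : ℕ) : ℤ)} : ℕ) : ℝ)) := by
        rw [hA]
        exact_mod_cast h3.symm
      linarith
    have hd' : d = 0 ∨ d = 1 ∨ d = 2 := by omega
    rw [abs_le] at hAB ⊢
    have h7 : (2 / ((3 : ℕ) : ℝ)) * (#S : ℝ) = 2 / 3 * #S := by push_cast; ring
    rw [h7]
    rcases hd' with rfl | rfl | rfl
    · rw [show 3 - 1 - 0 = 2 from rfl, hsum]
      constructor <;> nlinarith [hAB.1, hAB.2, mul_nonneg hδ'.le hS]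
    · rw [show 3 - 1 - 1 = 1 from rfl, ← hA]
      constructor <;> nlinarith [hAB.1, hAB.2, mul_nonneg hδ'.le hS]
    · rw [show 3 - 1 - 2 = 0 from rfl, add_comm, hsum]
      constructor <;> nlinarith [hAB.1, hAB.2, mul_nonneg hδ'.le hS])
  have h2 : ∑ i ∈ S, (e (y i) - (-1) * e (-y i)) =
      ((2 * ∑ i ∈ S, Real.cos (2 * Real.pi * y i) : ℝ) : ℂ) := by
    push_cast
    rw [mul_sum]
    refine sum_congr rfl fun i _ => ?_
    have := cos_eq (y i)
    push_cast at this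
    rw [this]; ring
  rw [h2, Complex.norm_real, Real.norm_eq_abs, abs_mul, abs_of_pos (by norm_num : (0 : ℝ) < 2)] at h1
  have h3 := abs_nonneg (∑ i ∈ S, Real.cos (2 * Real.pi * y i))
  linarith

theorem cos_of_midG (l z : ℝ) (hz : ∀ k : ℕ, 1 ≤ k → MidG l (k * z)) : CG l z := by
  intro ε hε
  obtain ⟨K, δ, hδ, hK⟩ := cos_of_mid ε hε
  obtain ⟨n0, hn0⟩ := exists_max K (fun k n => 1 ≤ k →
    |((#{i ∈ range n | 1 / 3 ≤ Int.fract (k * z * l ^ i) ∧
      Int.fract (k * z * l ^ i) < 2 / 3} : ℕ) : ℝ) - 1 / 3 * n| ≤ δ * n) (by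
    intro k hk
    by_cases hk1 : 1 ≤ k
    · obtain ⟨n0, hn0⟩ := hz k hk1 δ hδ
      exact ⟨n0, fun n hn _ => hn0 n hn⟩
    · exact ⟨0, fun n _ h => absurd h hk1⟩)
  refine ⟨n0, fun n hn => ?_⟩
  have h1 := hK (range n) (fun i => z * l ^ i) (by
    intro k hk1 hk2 _
    have := hn0 n hn k hk2 hk1
    rw [card_range]
    simp only [mul_assoc] at this ⊢
    exact this)
  rw [card_range] at h1
  unfold EG
  rw [Complex.re_sum]
  simp only [re_e]
  exact h1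

/-- small exponential sums for all multiples give the frequency of every interval -/
theorem interval_of_WG (l x : ℝ) (hx : ∀ h : ℕ, 1 ≤ h → WG l (h * x))
    (α β : ℝ) (hα : 0 ≤ α) (hαβ : α < β) (hβ : β ≤ 1) :
    Freq (fun n => ((#{i ∈ range n | α ≤ Int.fract (x * l ^ i) ∧
      Int.fract (x * l ^ i) < β} : ℕ) : ℝ)) (β - α) := by
  intro ε hε
  obtain ⟨H, δ, hδ, hH⟩ := count_of_weyl ε hε
  obtain ⟨n0, hn0⟩ := exists_max H (fun h n => 1 ≤ h → ‖EG l (h * x) n‖ ≤ δ * n) (by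
    intro h _
    by_cases hh : 1 ≤ h
    · obtain ⟨n0, hn0⟩ := hx h hh δ hδ
      exact ⟨n0, fun n hn _ => hn0 n hn⟩
    · exact ⟨0, fun n _ h' => absurd h' hh⟩)
  refine ⟨n0, fun n hn => ?_⟩
  have h1 := hH (range n) (fun i => x * l ^ i) (by
    intro h hh1 hh2
    have := hn0 n hn h hh2 hh1
    unfold EG at this
    rw [card_range]
    simp only [mul_assoc] at this ⊢
    exact this) α β hα hαβ hβ
  rw [card_range] at h1
  exact h1

/-- the frequencies of all cells of the levels `B ^ L` make the exponential sums small -/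
theorem WG_of_cells (l x : ℝ) (B : ℕ) (hB : 2 ≤ B)
    (hx : ∀ L : ℕ, 0 < L → ∀ W : ℕ, W < B ^ L →
      Freq (fun n => ((#{i ∈ range n | ⌊((B ^ L : ℕ) : ℝ) * (x * l ^ i)⌋ % ((B ^ L : ℕ) : ℤ) = (W : ℤ)} : ℕ) : ℝ))
        (1 / (B : ℝ) ^ L)) (h : ℕ) (hh : 1 ≤ h) : WG l (h * x) := by
  intro ε hε
  have hbR : (1 : ℝ) < B := by exact_mod_cast (by omega : 1 < B)
  obtain ⟨k, hk⟩ : ∃ k : ℕ, max (h : ℝ) (4 * Real.pi * h / ε) < (B : ℝ) ^ k :=
    pow_unbounded_of_one_lt _ hbR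
  have hk1 : (h : ℝ) < (B : ℝ) ^ k := lt_of_le_of_lt (le_max_left _ _) hk
  have hk2 : 4 * Real.pi * h / ε < (B : ℝ) ^ k := lt_of_le_of_lt (le_max_right _ _) hk
  have hbk : (0 : ℝ) < (B : ℝ) ^ k := by positivity
  have hk0 : 0 < k := by
    rcases Nat.eq_zero_or_pos k with h0 | h0
    · rw [h0, pow_zero] at hk1
      have : (1 : ℝ) ≤ h := by exact_mod_cast hh
      linarith
    · exact h0
  have hhN : h < B ^ k := by exact_mod_cast hk1
  set δ : ℝ := ε / (2 * (B : ℝ) ^ k) with hδ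
  have hδ0 : 0 < δ := by positivity
  obtain ⟨n0, hn0⟩ := exists_max (B ^ k) (fun W n => W < B ^ k →
    |((#{i ∈ range n | ⌊((B ^ k : ℕ) : ℝ) * (x * l ^ i)⌋ % ((B ^ k : ℕ) : ℤ) = (W : ℤ)} : ℕ) : ℝ) -
      1 / (B : ℝ) ^ k * n| ≤ δ * n) (by
    intro W _
    by_cases hW : W < B ^ k
    · obtain ⟨n0, hn0⟩ := hx k hk0 W hW δ hδ0
      exact ⟨n0, fun n hn _ => hn0 n hn⟩
    · exact ⟨0, fun n _ h' => absurd h' hW⟩)
  refine ⟨n0, fun n hn => ?_⟩
  have h1 := weyl_of_cells (range n) (fun i => x * l ^ i) (B ^ k) (Nat.pow_pos (by omega)) h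
    (fun h' => by
      have := Nat.le_of_dvd (by omega) h'
      omega) δ (by
    intro W hW
    have := hn0 n hn W hW.le hW
    rw [card_range]
    have h2 : (n : ℝ) / ((B ^ k : ℕ) : ℝ) = 1 / (B : ℝ) ^ k * n := by push_cast; ring
    rw [h2]
    exact this)
  rw [card_range] at h1
  unfold EG
  simp only [mul_assoc]
  refine h1.trans ?_
  apply mul_le_mul_of_nonneg_right _ (Nat.cast_nonneg _)
  push_cast
  have h4 : (B : ℝ) ^ k * δ = ε / 2 := by rw [hδ]; field_simp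
  have h5 : 2 * Real.pi * h / (B : ℝ) ^ k ≤ ε / 2 := by
    rw [div_lt_iff₀ hε] at hk2
    rw [div_le_div_iff₀ hbk (by norm_num)]
    linarith
  linarith

end Pool.Agent.U349.OB
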