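import Mathlib

/-!
# Moebius inversion of `∑ F(n h)`
-/

set_option autoImplicit false

namespace Pool.Agent.U349.OB

open Finset Filter Topology

lemma sum_mu (l : ℕ) (hl : 1 ≤ l) :
    ∑ x ∈ l.divisorsAntidiagonal, ((ArithmeticFunction.moebius x.1 : ℤ) : ℂ) =
      if l = 1 then 1 else 0 := by
  have h1 : ∑ x ∈ l.divisorsAntidiagonal, ((ArithmeticFunction.moebius x.1 : ℤ) : ℂ) =
      ((∑ d ∈ l.divisors, ArithmeticFunction.moebius d : ℤ) : ℂ) := by
    rw [Nat.sum_divisorsAntidiagonal (fun a _ => ((ArithmeticFunction.moebius a : ℤ) : ℂ))]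
    push_cast
    rfl
  have h2 : (∑ d ∈ l.divisors, ArithmeticFunction.moebius d : ℤ) = if l = 1 then 1 else 0 := by
    rw [← ArithmeticFunction.coe_mul_zeta_apply, ArithmeticFunction.moebius_mul_coe_zeta,
      ArithmeticFunction.one_apply]
  rw [h1, h2]
  split_ifs <;> simp

theorem moeb (F : ℕ → ℂ) (C : ℝ) (hF : ∀ l, 1 ≤ l → ‖F l‖ ≤ C / (l : ℝ) ^ 2) (hF0 : F 0 = 0) :
    HasSum (fun n : ℕ => ((ArithmeticFunction.moebius n : ℤ) : ℂ) * ∑' h, F (n * h)) (F 1) := by
  have hC : 0 ≤ C := by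
    have := (norm_nonneg _).trans (hF 1 le_rfl)
    simpa using this
  set g : ℕ × ℕ → ℂ := fun p => ((ArithmeticFunction.moebius p.1 : ℤ) : ℂ) * F (p.1 * p.2) with hg
  have hs2 : Summable fun n : ℕ => 1 / (n : ℝ) ^ 2 := Real.summable_one_div_nat_pow.2 one_lt_two
  have hsum : Summable g := by
    have h1 : Summable fun p : ℕ × ℕ => C * (1 / (p.1 : ℝ) ^ 2 * (1 / (p.2 : ℝ) ^ 2)) :=
      (hs2.mul_of_nonneg hs2 (fun _ => by positivity) (fun _ => by positivity)).mul_left C
    refine h1.of_norm_bounded ?_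
    rintro ⟨n, h⟩
    rcases Nat.eq_zero_or_pos (n * h) with h0 | h0
    · simp only [hg, h0, hF0, mul_zero, norm_zero]; positivity
    · simp only [hg]
      rw [norm_mul]
      have e1 : ‖((ArithmeticFunction.moebius n : ℤ) : ℂ)‖ ≤ 1 := by
        rw [Complex.norm_intCast]
        exact_mod_cast ArithmeticFunction.abs_moebius_le_one (n := n)
      calc ‖((ArithmeticFunction.moebius n : ℤ) : ℂ)‖ * ‖F (n * h)‖ ≤ 1 * (C / ((n * h : ℕ) : ℝ) ^ 2) :=
            mul_le_mul e1 (hF _ h0) (norm_nonneg _) zero_le_one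
        _ = _ := by push_cast; rw [one_mul, mul_pow]; ring
  obtain ⟨a, ha⟩ := hsum
  -- by rows
  have hrow : HasSum (fun n : ℕ => ((ArithmeticFunction.moebius n : ℤ) : ℂ) * ∑' h, F (n * h)) a := by
    refine ha.prod_fiberwise fun n => ?_
    have h1 : Summable fun h : ℕ => g (n, h) := ha.summable.prod_factor n
    have h2 : ∑' h, g (n, h) = ((ArithmeticFunction.moebius n : ℤ) : ℂ) * ∑' h, F (n * h) := by
      simp only [hg]
      rw [tsum_mul_left]
    rw [← h2]
    exact h1.hasSum
  -- by products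
  have hprod : HasSum (fun l : ℕ => if l = 1 then F 1 else 0) a := by
    have h1 := ((Equiv.sigmaFiberEquiv (fun p : ℕ × ℕ => p.1 * p.2)).hasSum_iff (f := g)).2 ha
    refine h1.sigma fun l => ?_
    change HasSum (g ∘ ((↑) : {x : ℕ × ℕ | x.1 * x.2 = l} → ℕ × ℕ)) _
    rw [hasSum_subtype_iff_indicator]
    rcases Nat.eq_zero_or_pos l with rfl | hl
    · rw [if_neg (by norm_num)]
      have : ({x : ℕ × ℕ | x.1 * x.2 = 0}.indicator g) = fun _ => 0 := by
        funext x
        by_cases hx : x.1 * x.2 = 0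
        · rw [Set.indicator_of_mem (by exact hx)]
          simp only [hg, hx, hF0, mul_zero]
        · rw [Set.indicator_of_notMem (by exact hx)]
      rw [this]
      exact hasSum_zero
    · have h2 : HasSum ({x : ℕ × ℕ | x.1 * x.2 = l}.indicator g)
          (∑ x ∈ l.divisorsAntidiagonal, ({x : ℕ × ℕ | x.1 * x.2 = l}.indicator g) x) := by
        apply hasSum_sum_of_ne_finset_zero
        intro x hx
        apply Set.indicator_of_notMem
        intro hx'
        exact hx (Nat.mem_divisorsAntidiagonal.2 ⟨hx', by omega⟩)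
      have h3 : ∑ x ∈ l.divisorsAntidiagonal, ({x : ℕ × ℕ | x.1 * x.2 = l}.indicator g) x =
          if l = 1 then F 1 else 0 := by
        have h4 : ∀ x ∈ l.divisorsAntidiagonal, ({x : ℕ × ℕ | x.1 * x.2 = l}.indicator g) x =
            ((ArithmeticFunction.moebius x.1 : ℤ) : ℂ) * F l := by
          intro x hx
          have hx' := (Nat.mem_divisorsAntidiagonal.1 hx).1
          rw [Set.indicator_of_mem (by exact hx')]
          simp only [hg, hx']
        rw [sum_congr rfl h4, ← sum_mul, sum_mu l hl]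
        split_ifs with h
        · rw [h, one_mul]
        · rw [zero_mul]
      rw [h3] at h2
      exact h2
  have h5 : HasSum (fun l : ℕ => if l = 1 then F 1 else 0) (F 1) := hasSum_ite_eq 1 (F 1)
  have h6 := hprod.unique h5
  rw [h6] at hrow
  exact hrow

end Pool.Agent.U349.OB
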