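import Pool.Agent.U349.OB.Cauchy
import Pool.Agent.U349.OB.Moeb

/-!
# The limit of the sums of dilated sawtooth functions
-/

set_option autoImplicit false

namespace Pool.Agent.U349.OB

open Finset Filter Topology
open Pool.Agent.H469R2.NK (e norm_e e_add e_zero conj_e)
open Pool.Agent.H373R2.T7 (muR muR_abs)
open Pool.Agent.W565.MOFS (P2 cos_sum)

/-- the periodic second Bernoulli polynomial -/
noncomputable def PP (t : ℝ) : ℝ := P2 (Int.fract t)

lemma continuous_PP : Continuous PP := by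
  have h : ContinuousOn P2 (Set.Icc (0 : ℝ) 1) := by
    unfold P2; fun_prop
  exact h.comp_fract'' (by unfold P2; norm_num)

lemma fract_right (t : ℝ) : ∀ᶠ u : ℝ in 𝓝[Set.Ici t] t, Int.fract u = u - ⌊t⌋ := by
  have h1 : ∀ᶠ u : ℝ in 𝓝[Set.Ici t] t, u < ⌊t⌋ + 1 :=
    mem_nhdsWithin_of_mem_nhds (Iio_mem_nhds (Int.lt_floor_add_one t))
  filter_upwards [h1, self_mem_nhdsWithin] with u hu hu'
  have h2 : ⌊u⌋ = ⌊t⌋ := Int.floor_eq_iff.2 ⟨(Int.floor_le t).trans hu', hu⟩
  rw [← h2]; exact Int.self_sub_floor u ▸ rfl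

lemma psi_right (t : ℝ) : ContinuousWithinAt psi (Set.Ici t) t := by
  have h1 : psi =ᶠ[𝓝[Set.Ici t] t] fun u => u - ⌊t⌋ - 1 / 2 := by
    filter_upwards [fract_right t] with u hu
    unfold psi; rw [hu]
  refine ContinuousWithinAt.congr_of_eventuallyEq ?_ h1 ?_
  · fun_prop
  · unfold psi; rw [← Int.self_sub_floor t]

lemma PP_deriv (t : ℝ) : HasDerivWithinAt PP (2 * psi t) (Set.Ici t) t := by
  have h1 : PP =ᶠ[𝓝[Set.Ici t] t] fun u => P2 (u - ⌊t⌋) := by
    filter_upwards [fract_right t] with u hu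
    unfold PP; rw [hu]
  have h2 : PP t = P2 (t - ⌊t⌋) := by unfold PP; rw [← Int.self_sub_floor t]
  refine HasDerivWithinAt.congr_of_eventuallyEq ?_ h1 h2
  have h3 : HasDerivAt (fun u : ℝ => P2 (u - ⌊t⌋)) (2 * psi t) t := by
    unfold P2
    have a1 : HasDerivAt (fun u : ℝ => u - (⌊t⌋ : ℝ)) 1 t := (hasDerivAt_id t).sub_const _
    have a2 := ((a1.fun_pow 2).fun_sub a1).add_const (1 / 6 : ℝ)
    refine a2.congr_deriv ?_
    unfold psi
    rw [← Int.self_sub_floor t]
    push_cast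
    ring
  exact h3.hasDerivWithinAt

variable (c : ℕ) (chi v : ℕ → ℂ) (s : ℂ)

/-- the combination of dilated sawtooth functions -/
noncomputable def TT (J : ℕ) (y : ℝ) : ℂ := ∑ j ∈ range c, v j * SS chi J y (-(j / c))

/-- its primitive -/
noncomputable def GG (J : ℕ) (y : ℝ) : ℂ :=
  ∑ n ∈ Ico 1 (2 ^ J), (((muR n : ℝ) : ℂ) * chi n / (2 * (n : ℂ) ^ 2)) *
    ∑ j ∈ range c, v j * (PP (n * y + -(j / c)) : ℂ)

lemma continuous_GG (J : ℕ) : Continuous (GG c chi v J) := by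
  unfold GG
  have := continuous_PP
  fun_prop

lemma GG_deriv (J : ℕ) (y : ℝ) : HasDerivWithinAt (GG c chi v J) (TT c chi v J y) (Set.Ici y) y := by
  have h1 : TT c chi v J y = ∑ n ∈ Ico 1 (2 ^ J), (((muR n : ℝ) : ℂ) * chi n / (2 * (n : ℂ) ^ 2)) *
      ∑ j ∈ range c, v j * ((2 * psi (n * y + -(j / c)) * n : ℝ) : ℂ) := by
    unfold TT SS
    simp only [mul_sum]
    rw [sum_comm]
    refine sum_congr rfl fun n hn => sum_congr rfl fun j _ => ?_
    have hn0 : (n : ℂ) ≠ 0 := by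
      have : n ≠ 0 := by have := (mem_Ico.1 hn).1; omega
      exact_mod_cast this
    push_cast
    field_simp
  rw [h1]
  unfold GG
  refine HasDerivWithinAt.fun_sum fun n _ => ?_
  refine HasDerivWithinAt.const_mul _ ?_
  refine HasDerivWithinAt.fun_sum fun j _ => ?_
  refine HasDerivWithinAt.const_mul _ ?_
  have h2 : HasDerivWithinAt (fun t : ℝ => (n : ℝ) * t + -((j : ℝ) / c)) (n : ℝ) (Set.Ici y) y := by
    have := ((hasDerivAt_id y).const_mul (n : ℝ)).add_const (-((j : ℝ) / c))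
    simpa using this.hasDerivWithinAt
  have h3 := (PP_deriv (n * y + -((j : ℝ) / c))).comp y h2 (by
    intro t ht
    rw [Set.mem_Ici] at ht ⊢
    have : (0 : ℝ) ≤ n := Nat.cast_nonneg n
    nlinarith)
  exact h3.ofReal_comp

lemma TT_right (J : ℕ) (y : ℝ) : ContinuousWithinAt (TT c chi v J) (Set.Ici y) y := by
  unfold TT SS
  refine tendsto_finsetSum _ fun j _ => ?_
  refine Tendsto.const_mul _ ?_
  refine tendsto_finsetSum _ fun n _ => ?_
  refine Tendsto.const_mul _ ?_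
  have h1 : ContinuousWithinAt (fun t : ℝ => (n : ℝ) * t + -((j : ℝ) / c)) (Set.Ici y) y := by
    fun_prop
  have h2 : ContinuousWithinAt (psi ∘ fun t : ℝ => (n : ℝ) * t + -((j : ℝ) / c)) (Set.Ici y) y := by
    refine ContinuousWithinAt.comp (t := Set.Ici (n * y + -((j : ℝ) / c))) (psi_right _) h1 ?_
    intro t ht
    rw [Set.mem_Ici] at ht ⊢
    have : (0 : ℝ) ≤ n := Nat.cast_nonneg n
    nlinarith
  exact (Complex.continuous_ofReal.tendsto _).comp h2

/-- `e(t) + s e(-t)` -/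
noncomputable def EE (t : ℝ) : ℂ := e t + s * e (-t)

lemma cv_sum (hadd : ∀ n, 1 ≤ n → chi n = ∑ j ∈ range c, v j * e (-(n * j / c)))
    (hadd' : ∀ n, 1 ≤ n → s * chi n = ∑ j ∈ range c, v j * e (n * j / c)) (t : ℝ) :
    HasSum (fun h : ℕ => chi h / (h : ℂ) ^ 2 * EE s (h * t))
      (2 * Real.pi ^ 2 * ∑ j ∈ range c, v j * (PP (t + -(j / c)) : ℂ)) := by
  have h1 : ∀ j ∈ range c, HasSum (fun h : ℕ => 2 * v j *
      ((1 / (h : ℝ) ^ 2 * Real.cos (2 * Real.pi * h * (t + -(j / c))) : ℝ) : ℂ))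
      (2 * v j * ((Real.pi ^ 2 * PP (t + -(j / c)) : ℝ) : ℂ)) := by
    intro j _
    exact (Complex.hasSum_ofReal.2 (cos_sum (t + -(j / c)))).mul_left _
  have h2 := hasSum_sum h1
  have e1 : ∑ j ∈ range c, 2 * v j * ((Real.pi ^ 2 * PP (t + -(j / c)) : ℝ) : ℂ) =
      2 * Real.pi ^ 2 * ∑ j ∈ range c, v j * (PP (t + -(j / c)) : ℂ) := by
    rw [mul_sum]
    refine sum_congr rfl fun j _ => ?_
    push_cast; ring
  rw [e1] at h2
  convert h2 using 2 with h
  rcases Nat.eq_zero_or_pos h with rfl | hh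
  · simp
  have h0 : (h : ℂ) ≠ 0 := by exact_mod_cast (by omega : h ≠ 0)
  have e2 : ∀ j ∈ range c, 2 * v j *
      ((1 / (h : ℝ) ^ 2 * Real.cos (2 * Real.pi * h * (t + -(j / c))) : ℝ) : ℂ) =
      (1 / (h : ℂ) ^ 2) * (e (h * t) * (v j * e (-(h * j / c))) + e (-(h * t)) * (v j * e (h * j / c))) := by
    intro j _
    have a1 : 2 * Real.pi * (h : ℝ) * (t + -(j / c)) = 2 * Real.pi * (h * (t + -(j / c))) := by ring
    rw [a1]
    push_cast
    have a2 := cos_eq (h * (t + -(j / c)))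
    push_cast at a2
    rw [a2]
    have a3 : e ((h : ℝ) * (t + -(j / c))) = e (h * t) * e (-(h * j / c)) := by
      rw [← e_add]; congr 1; ring
    have a4 : e (-((h : ℝ) * (t + -(j / c)))) = e (-(h * t)) * e (h * j / c) := by
      rw [← e_add]; congr 1; ring
    rw [a3, a4]
    ring
  rw [sum_congr rfl e2, ← mul_sum, sum_add_distrib, ← mul_sum, ← mul_sum, ← hadd h hh, ← hadd' h hh]
  unfold EE
  ring

lemma EE_norm (hs : ‖s‖ ≤ 1) (t : ℝ) : ‖EE s t‖ ≤ 2 := by
  unfold EE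
  refine (norm_add_le _ _).trans ?_
  rw [norm_mul, norm_e, norm_e]
  linarith

lemma GG_lim (hbd : ∀ n, ‖chi n‖ ≤ 1) (hmul : ∀ m n, chi (m * n) = chi m * chi n)
    (hone : chi 1 = 1) (hs : ‖s‖ ≤ 1)
    (hadd : ∀ n, 1 ≤ n → chi n = ∑ j ∈ range c, v j * e (-(n * j / c)))
    (hadd' : ∀ n, 1 ≤ n → s * chi n = ∑ j ∈ range c, v j * e (n * j / c)) (y : ℝ) :
    Tendsto (fun J => GG c chi v J y) atTop (𝓝 (EE s y / (4 * Real.pi ^ 2))) := by
  set F : ℕ → ℂ := fun l => chi l / (l : ℂ) ^ 2 * EE s (l * y) with hF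
  have hpi : (Real.pi : ℂ) ≠ 0 := by exact_mod_cast Real.pi_ne_zero
  have h1 := moeb F 2 (by
    intro l hl
    simp only [hF]
    rw [norm_mul, norm_div, norm_pow, Complex.norm_natCast]
    have hl0 : (0 : ℝ) < l := by exact_mod_cast hl
    calc ‖chi l‖ / (l : ℝ) ^ 2 * ‖EE s (l * y)‖ ≤ 1 / (l : ℝ) ^ 2 * 2 := by
          gcongr
          · exact hbd l
          · exact EE_norm s hs _
      _ = _ := by ring) (by simp [hF])
  have h2 : ∀ n : ℕ, ((ArithmeticFunction.moebius n : ℤ) : ℂ) * ∑' h, F (n * h) =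
      (4 * Real.pi ^ 2 : ℂ) * ((((muR n : ℝ) : ℂ) * chi n / (2 * (n : ℂ) ^ 2)) *
        ∑ j ∈ range c, v j * (PP (n * y + -(j / c)) : ℂ)) := by
    intro n
    have h3 : ∑' h, F (n * h) = chi n / (n : ℂ) ^ 2 *
        (2 * Real.pi ^ 2 * ∑ j ∈ range c, v j * (PP (n * y + -(j / c)) : ℂ)) := by
      rw [← (cv_sum c chi v s hadd hadd' (n * y)).tsum_eq, ← tsum_mul_left]
      refine tsum_congr fun h => ?_
      simp only [hF]
      rw [hmul]
      push_cast
      have : (n : ℝ) * (h : ℝ) * y = h * (n * y) := by ring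
      rw [this, mul_pow]
      ring
    rw [h3]
    unfold Pool.Agent.H373R2.T7.muR
    push_cast
    ring
  simp only [h2] at h1
  have h4 := h1.mul_left ((4 * Real.pi ^ 2 : ℂ)⁻¹)
  have h5 : HasSum (fun n : ℕ => (((muR n : ℝ) : ℂ) * chi n / (2 * (n : ℂ) ^ 2)) *
        ∑ j ∈ range c, v j * (PP (n * y + -(j / c)) : ℂ)) (EE s y / (4 * Real.pi ^ 2)) := by
    have e1 : (fun n : ℕ => (((muR n : ℝ) : ℂ) * chi n / (2 * (n : ℂ) ^ 2)) *
        ∑ j ∈ range c, v j * (PP (n * y + -(j / c)) : ℂ)) = fun i : ℕ => (4 * Real.pi ^ 2 : ℂ)⁻¹ *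
        ((4 * Real.pi ^ 2 : ℂ) * ((((muR i : ℝ) : ℂ) * chi i / (2 * (i : ℂ) ^ 2)) *
        ∑ j ∈ range c, v j * (PP (i * y + -(j / c)) : ℂ))) := by
      funext n
      rw [← mul_assoc, inv_mul_cancel₀ (by simp [hpi]), one_mul]
    have e2 : EE s y / (4 * Real.pi ^ 2) = (4 * Real.pi ^ 2 : ℂ)⁻¹ * F 1 := by
      simp only [hF]
      rw [hone]
      push_cast
      rw [one_mul]
      field_simp
    rw [e1, e2]
    exact h4
  have h6 := h5.tendsto_sum_nat.comp (tendsto_pow_atTop_atTop_of_one_lt (r := 2) one_lt_two)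
  refine h6.congr fun J => ?_
  simp only [Function.comp]
  unfold GG
  rw [range_eq_Ico, ← sum_Ico_consecutive _ (Nat.zero_le 1) (Nat.one_le_two_pow (n := J))]
  simp

lemma EE_deriv (y : ℝ) : HasDerivAt (fun t => EE s t / (4 * Real.pi ^ 2))
    (Complex.I / (2 * Real.pi) * (e y - s * e (-y))) y := by
  have hpi : (Real.pi : ℂ) ≠ 0 := by exact_mod_cast Real.pi_ne_zero
  have h1 : HasDerivAt e (2 * Real.pi * Complex.I * e y) y := by
    unfold Pool.Agent.H469R2.NK.e
    have a1 : HasDerivAt (fun t : ℝ => ((2 * Real.pi * t : ℝ) : ℂ) * Complex.I)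
        (2 * Real.pi * Complex.I) y := by
      have b1 : HasDerivAt (fun t : ℝ => (2 * Real.pi * t : ℝ)) (2 * Real.pi) y := by
        simpa using (hasDerivAt_id y).const_mul (2 * Real.pi)
      have b2 := b1.ofReal_comp.mul_const Complex.I
      exact b2.congr_deriv (by push_cast; ring)
    have a2 := a1.cexp
    exact a2.congr_deriv (by ring)
  have h2 : HasDerivAt (fun t : ℝ => e (-t)) (-(2 * Real.pi * Complex.I * e (-y))) y := by
    unfold Pool.Agent.H469R2.NK.e
    have a1 : HasDerivAt (fun t : ℝ => ((2 * Real.pi * (-t) : ℝ) : ℂ) * Complex.I)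
        (-(2 * Real.pi * Complex.I)) y := by
      have b1 : HasDerivAt (fun t : ℝ => (2 * Real.pi * (-t) : ℝ)) (-(2 * Real.pi)) y := by
        have := ((hasDerivAt_id y).neg).const_mul (2 * Real.pi)
        simpa using this
      have b2 := b1.ofReal_comp.mul_const Complex.I
      exact b2.congr_deriv (by push_cast; ring)
    have a2 := a1.cexp
    exact a2.congr_deriv (by ring)
  have h3 := (h1.fun_add (h2.const_mul s)).div_const (4 * Real.pi ^ 2 : ℂ)
  unfold EE
  refine h3.congr_deriv ?_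
  field_simp
  ring

/-- **The approximation theorem.** -/
theorem approx (hc : 0 < c) (hper : ∀ n, chi (n % c) = chi n)
    (hbd : ∀ n, ‖chi n‖ ≤ 1) (hmul : ∀ m n, chi (m * n) = chi m * chi n)
    (hone : chi 1 = 1) (hs : ‖s‖ ≤ 1)
    (hadd : ∀ n, 1 ≤ n → chi n = ∑ j ∈ range c, v j * e (-(n * j / c)))
    (hadd' : ∀ n, 1 ≤ n → s * chi n = ∑ j ∈ range c, v j * e (n * j / c)) (ε : ℝ) (hε : 0 < ε) :
    ∃ J0 : ℕ, ∀ J, J0 ≤ J → ∀ y : ℝ,
      ‖TT c chi v J y - Complex.I / (2 * Real.pi) * (e y - s * e (-y))‖ ≤ ε := by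
  set V : ℝ := ∑ j ∈ range c, ‖v j‖ with hV
  have hV0 : 0 ≤ V := sum_nonneg fun _ _ => norm_nonneg _
  obtain ⟨J0, hJ0⟩ := cauchy c hc chi v hper hbd hadd (ε / (2 * (V + 1))) (by positivity)
  refine ⟨J0, fun J1 hJ1 y => ?_⟩
  have hclose : ∀ J, J1 ≤ J → ∀ t : ℝ, ‖TT c chi v J t - TT c chi v J1 t‖ ≤ ε / 2 := by
    intro J hJ t
    unfold TT
    rw [← sum_sub_distrib]
    refine (norm_sum_le _ _).trans ?_
    have h1 : ∀ j ∈ range c, ‖v j * SS chi J t (-(j / c)) - v j * SS chi J1 t (-(j / c))‖ ≤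
        ‖v j‖ * (ε / (2 * (V + 1))) := by
      intro j _
      rw [← mul_sub, norm_mul]
      exact mul_le_mul_of_nonneg_left (hJ0 J1 J hJ1 hJ t _) (norm_nonneg _)
    refine (sum_le_sum h1).trans ?_
    rw [← sum_mul, ← hV]
    rw [mul_div_assoc', div_le_div_iff₀ (by positivity) (by norm_num)]
    nlinarith
  set D : ℂ := Complex.I / (2 * Real.pi) * (e y - s * e (-y)) with hD
  set η : ℝ := ε / 4 with hη
  have hη0 : 0 < η := by positivity
  -- right continuity
  have h1 := TT_right c chi v J1 y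
  rw [Metric.continuousWithinAt_iff] at h1
  obtain ⟨d1, hd1, h1⟩ := h1 η hη0
  -- the derivative of the limit
  have h2 := (EE_deriv s y).isLittleO
  have h3 := h2.def hη0
  rw [Metric.eventually_nhds_iff] at h3
  obtain ⟨d2, hd2, h3⟩ := h3
  set σ : ℝ := min d1 d2 / 2 with hσ
  have hσ0 : 0 < σ := by positivity
  have hσ1 : σ < d1 := by
    have := min_le_left d1 d2
    linarith [hd1]
  have hσ2 : σ < d2 := by
    have := min_le_right d1 d2
    linarith [hd2]
  have h4 : ∀ J, J1 ≤ J → ‖GG c chi v J (y + σ) - GG c chi v J y - σ * TT c chi v J1 y‖ ≤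
      (ε / 2 + η) * σ := by
    intro J hJ
    have h5 := norm_image_sub_le_of_norm_deriv_right_le_segment
      (f := fun t : ℝ => GG c chi v J t - (t : ℂ) * TT c chi v J1 y) (a := y) (b := y + σ)
      (f' := fun t => TT c chi v J t - TT c chi v J1 y) (C := ε / 2 + η)
      (by
        have := continuous_GG c chi v J
        fun_prop)
      (by
        intro t _
        have a1 : HasDerivAt (fun t : ℝ => (t : ℂ) * TT c chi v J1 y) (TT c chi v J1 y) t := by
          have := (Complex.ofRealCLM.hasDerivAt (x := t)).mul_const (TT c chi v J1 y)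
          simpa using this
        exact (GG_deriv c chi v J t).sub a1.hasDerivWithinAt)
      (by
        intro t ht
        have a1 := hclose J hJ t
        have a2 : dist (TT c chi v J1 t) (TT c chi v J1 y) < η := by
          refine h1 ht.1 ?_
          rw [Real.dist_eq, abs_of_nonneg (by linarith [ht.1])]
          linarith [ht.2]
        rw [dist_eq_norm] at a2
        have a3 : TT c chi v J t - TT c chi v J1 y = (TT c chi v J t - TT c chi v J1 t) +
            (TT c chi v J1 t - TT c chi v J1 y) := by ring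
        rw [a3]
        exact (norm_add_le _ _).trans (by linarith))
      (y + σ) ⟨by linarith, le_rfl⟩
    have h6 : GG c chi v J (y + σ) - ((y + σ : ℝ) : ℂ) * TT c chi v J1 y -
        (GG c chi v J y - (y : ℂ) * TT c chi v J1 y) =
        GG c chi v J (y + σ) - GG c chi v J y - σ * TT c chi v J1 y := by
      push_cast; ring
    rw [h6] at h5
    have h7 : y + σ - y = σ := by ring
    rw [h7] at h5
    exact h5
  have h5 : ‖EE s (y + σ) / (4 * Real.pi ^ 2) - EE s y / (4 * Real.pi ^ 2) -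
      σ * TT c chi v J1 y‖ ≤ (ε / 2 + η) * σ := by
    have a1 := GG_lim c chi v s hbd hmul hone hs hadd hadd' (y + σ)
    have a2 := GG_lim c chi v s hbd hmul hone hs hadd hadd' y
    have a3 := ((a1.sub a2).sub_const (σ * TT c chi v J1 y)).norm
    exact le_of_tendsto a3 (eventually_atTop.2 ⟨J1, h4⟩)
  have h6 := h3 (y := y + σ) (by
    rw [Real.dist_eq, add_sub_cancel_left, abs_of_pos hσ0]; exact hσ2)
  have h7 : ‖(σ : ℂ) * (TT c chi v J1 y - D)‖ ≤ (ε / 2 + 2 * η) * σ := by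
    have e1 : (σ : ℂ) * (TT c chi v J1 y - D) =
        (EE s (y + σ) / (4 * Real.pi ^ 2) - EE s y / (4 * Real.pi ^ 2) - (y + σ - y) • D) -
        (EE s (y + σ) / (4 * Real.pi ^ 2) - EE s y / (4 * Real.pi ^ 2) - σ * TT c chi v J1 y) := by
      rw [add_sub_cancel_left, Complex.real_smul]
      ring
    rw [e1]
    refine (norm_sub_le _ _).trans ?_
    have e2 : ‖y + σ - y‖ = σ := by
      rw [add_sub_cancel_left, Real.norm_eq_abs, abs_of_pos hσ0]
    rw [e2] at h6
    linarith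
  rw [norm_mul, Complex.norm_real, Real.norm_eq_abs, abs_of_pos hσ0] at h7
  have h8 : ‖TT c chi v J1 y - D‖ ≤ ε / 2 + 2 * η := by
    have : σ * ‖TT c chi v J1 y - D‖ ≤ σ * (ε / 2 + 2 * η) := by linarith
    exact le_of_mul_le_mul_left this hσ0
  rw [hη] at h8
  linarith

end Pool.Agent.U349.OB
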