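import Pool.Agent.U349.OB.Sparse

/-!
# One-bit statistics
-/

set_option autoImplicit false

namespace Pool.Agent.U349.OB

open Finset Filter Topology
open Pool.Agent.H469R2.NK (e norm_e e_add e_zero conj_e)

/-! ### the data modulo 4 -/

noncomputable def chi4 (n : ℕ) : ℂ := if n % 4 = 1 then 1 else if n % 4 = 3 then -1 else 0

lemma e_quarter : e (-(1 / 4 : ℝ)) = -Complex.I := by
  unfold e
  have h : (2 * Real.pi * -(1 / 4) : ℝ) = -(Real.pi / 2) := by ring
  rw [h, Complex.exp_mul_I, ← Complex.ofReal_cos, ← Complex.ofReal_sin, Real.cos_neg,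
    Real.sin_neg, Real.cos_pi_div_two, Real.sin_pi_div_two]
  simp

lemma e_quarter_mul (n j : ℕ) : e (-(n * j / 4 : ℝ)) = ((-Complex.I) ^ j) ^ n := by
  rw [← e_quarter, ← e_nat_mul, ← e_nat_mul]
  congr 1
  push_cast; ring

lemma e_quarter_mul' (n j : ℕ) : e (n * j / 4 : ℝ) = (Complex.I ^ j) ^ n := by
  have h := e_quarter_mul n j
  have h2 := congrArg (starRingEnd ℂ) h
  rw [conj_e, neg_neg, map_pow, map_pow, map_neg, Complex.conj_I, neg_neg] at h2
  exact h2

lemma I_pow_mod (n : ℕ) : Complex.I ^ n = Complex.I ^ (n % 4) := by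
  conv_lhs => rw [← Nat.mod_add_div n 4, pow_add, pow_mul, Complex.I_pow_four, one_pow, mul_one]

lemma good4 : Good 4 chi4 v1 (-1) := by
  have hI3 : Complex.I ^ 3 = -Complex.I := by
    rw [pow_succ, Complex.I_sq]; ring
  have hcases : ∀ n : ℕ, n % 4 = 0 ∨ n % 4 = 1 ∨ n % 4 = 2 ∨ n % 4 = 3 := by intro n; omega
  refine ⟨by norm_num, ?_, ?_, ?_, ?_, by simp, ?_, ?_, ?_⟩
  · intro n
    unfold chi4
    rw [Nat.mod_mod]
  · intro n
    unfold chi4
    rcases hcases n with h | h | h | h <;> simp [h]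
  · intro m n
    unfold chi4
    rw [Nat.mul_mod]
    rcases hcases m with h | h | h | h <;> rcases hcases n with h' | h' | h' | h' <;> simp [h, h']
  · simp [chi4]
  · intro n _
    rw [sum_range_succ, sum_range_succ, sum_range_succ, sum_range_one]
    have h1 := e_quarter_mul n 1
    have h3 := e_quarter_mul n 3
    push_cast at h1 h3 ⊢
    rw [h1, h3]
    have h4 : (-Complex.I) ^ 3 = Complex.I := by
      rw [neg_pow, hI3]; norm_num
    rw [pow_one, h4, neg_pow, I_pow_mod n]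
    have h5 : (-1 : ℂ) ^ n = (-1) ^ (n % 4) := by
      conv_lhs => rw [← Nat.mod_add_div n 4, pow_add, pow_mul]
      norm_num
    rw [h5]
    unfold chi4 v1
    rcases hcases n with h | h | h | h
    · rw [h]; simp; ring
    · rw [h]
      simp only [if_true, pow_one]
      norm_num
      ring_nf
      rw [Complex.I_sq]; norm_num
    · rw [h]; simp; ring
    · rw [h, hI3]
      norm_num
      ring_nf
      simp [Complex.I_sq]
  · intro n _
    rw [sum_range_succ, sum_range_succ, sum_range_succ, sum_range_one]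
    have h1 := e_quarter_mul' n 1
    have h3 := e_quarter_mul' n 3
    push_cast at h1 h3 ⊢
    rw [h1, h3]
    rw [pow_one, hI3, neg_pow, I_pow_mod n]
    have h5 : (-1 : ℂ) ^ n = (-1) ^ (n % 4) := by
      conv_lhs => rw [← Nat.mod_add_div n 4, pow_add, pow_mul]
      norm_num
    rw [h5]
    unfold chi4 v1
    rcases hcases n with h | h | h | h
    · rw [h]; simp; ring
    · rw [h]
      norm_num
      ring_nf
      simp [Complex.I_sq]
    · rw [h]; simp; ring
    · rw [h, hI3]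
      norm_num
      ring_nf
      simp [Complex.I_sq]
  · intro n hn
    unfold chi4 at hn
    have h4 : Nat.Coprime n (2 ^ 2) := by
      rw [Nat.coprime_pow_right_iff (by norm_num), Nat.coprime_two_right]
      rw [Nat.odd_iff]
      rcases hcases n with h | h | h | h <;> simp [h] at hn <;> omega
    simpa using h4

/-- the statistic of the data modulo 4 -/
lemma St4 (t : ℝ) : St 4 v1 t = -(Complex.I / 2) *
    (((if 1 / 4 ≤ Int.fract t ∧ Int.fract t < 3 / 4 then (1 : ℝ) else 0) - 1 / 2 : ℝ) : ℂ) := by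
  have h := Pool.Agent.R485.Trans.indicator_eq t (1 / 4) (3 / 4) (by norm_num) (by norm_num) (by norm_num)
  have h2 : (3 / 4 - 1 / 4 : ℝ) = 1 / 2 := by norm_num
  rw [h2] at h
  rw [h]
  unfold St psi
  rw [sum_range_succ, sum_range_succ, sum_range_succ, sum_range_one]
  unfold v1
  push_cast
  norm_num
  ring

/-- `cos` sums are small if all odd multiples `k ≤ K` have the right one-bit frequency -/
theorem cos_of_bit (ε : ℝ) (hε : 0 < ε) : ∃ K : ℕ, ∃ δ : ℝ, 0 < δ ∧ ∀ {ι : Type} (S : Finset ι)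
    (y : ι → ℝ), (∀ k : ℕ, 1 ≤ k → k ≤ K → ¬ 2 ∣ k →
      |((#{i ∈ S | 1 / 4 ≤ Int.fract (k * y i) ∧ Int.fract (k * y i) < 3 / 4} : ℕ) : ℝ) - 1 / 2 * #S| ≤
        δ * #S) → |∑ i ∈ S, Real.cos (2 * Real.pi * y i)| ≤ ε * #S := by
  obtain ⟨K, δ, hδ, hK⟩ := core good4 ε hε
  refine ⟨K, δ, hδ, ?_⟩
  intro ι S y h
  have h1 := hK S y (by
    intro k hk1 hk2 hk3
    have hk4 : ¬ 2 ∣ k := by
      intro h2
      have h5 : (2 : ℕ) ∣ Nat.gcd k 4 := Nat.dvd_gcd h2 (by norm_num)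
      rw [hk3] at h5
      omega
    have h2 := h k hk1 hk2 hk4
    simp_rw [St4]
    rw [← mul_sum, norm_mul, ← Complex.ofReal_sum, Complex.norm_real, sum_sub_distrib, sum_boole,
      sum_const, nsmul_eq_mul, norm_neg, norm_div, Complex.norm_I]
    rw [Real.norm_eq_abs, mul_comm (#S : ℝ)]
    have h3 : ‖(2 : ℂ)‖ = 2 := by norm_num
    rw [h3]
    have h4 : 0 ≤ |((#{i ∈ S | 1 / 4 ≤ Int.fract (k * y i) ∧ Int.fract (k * y i) < 3 / 4} : ℕ) : ℝ) - 1 / 2 * #S| :=
      abs_nonneg _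
    linarith)
  have h2 : ∑ i ∈ S, (e (y i) - (-1) * e (-y i)) =
      ((2 * ∑ i ∈ S, Real.cos (2 * Real.pi * y i) : ℝ) : ℂ) := by
    push_cast
    rw [mul_sum]
    refine sum_congr rfl fun i _ => ?_
    have := cos_eq (y i)
    push_cast at this
    rw [this]; ring
  rw [h2, Complex.norm_real, Real.norm_eq_abs, abs_mul, abs_of_pos (by norm_num : (0 : ℝ) < 2)] at h1
  have h3 := abs_nonneg (∑ i ∈ S, Real.cos (2 * Real.pi * y i))
  linarith

/-! ### cosine sums along orbits -/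

lemma re_e (t : ℝ) : (e t).re = Real.cos (2 * Real.pi * t) := by
  unfold e
  exact Complex.exp_ofReal_mul_I_re _

/-- eventually the real part is at most `ε n` -/
def SmR (b : ℕ) (ε : ℝ) (z : ℝ) : Prop := ∃ n0 : ℕ, ∀ n, n0 ≤ n → |(EE' b z n).re| ≤ ε * n

lemma SmR_shift (b : ℕ) (z : ℝ) (a : ℕ) (ε ε' : ℝ) (hε : ε < ε') (h : SmR b ε z) :
    SmR b ε' ((b : ℝ) ^ a * z) := by
  obtain ⟨n0, hn0⟩ := h
  obtain ⟨n1, hn1⟩ := exists_nat_gt (2 * a / (ε' - ε))
  refine ⟨max n0 n1, fun n hn => ?_⟩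
  have h1 := hn0 n (le_trans (le_max_left _ _) hn)
  have h2 : (n1 : ℝ) ≤ n := by exact_mod_cast le_trans (le_max_right _ _) hn
  have h3 : 2 * a < (ε' - ε) * n := by
    have : 2 * a / (ε' - ε) < n := lt_of_lt_of_le hn1 h2
    rw [div_lt_iff₀ (by linarith)] at this
    linarith
  have h4 := (Complex.abs_re_le_norm _).trans (EE'_shift b z a n)
  rw [Complex.sub_re] at h4
  have h5 : (EE' b ((b : ℝ) ^ a * z) n).re =
      ((EE' b ((b : ℝ) ^ a * z) n).re - (EE' b z n).re) + (EE' b z n).re := by ring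
  rw [h5]
  refine (abs_add_le _ _).trans ?_
  nlinarith

/-- van der Corput trick: only the cosines of the differences are needed -/
theorem vdcR (b : ℕ) (z : ℝ) (P : ℕ) (hP : 1 ≤ P) (a : ℕ → ℕ) (ε ε' : ℝ) (hε : 0 ≤ ε)
    (hε' : 1 / (P : ℝ) + ε < ε' ^ 2) (hε'0 : 0 < ε')
    (h : ∀ p q, q < p → p < P → SmR b ε (((b : ℝ) ^ (a p) - (b : ℝ) ^ (a q)) * z)) : Sm b ε' z := by
  -- a common threshold
  obtain ⟨n0, hn0⟩ := exists_max P (fun p n => ∀ q ≤ P, q < p → p < P →
      |(EE' b (((b : ℝ) ^ (a p) - (b : ℝ) ^ (a q)) * z) n).re| ≤ ε * n) (by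
    intro p _
    have := exists_max P (fun q n => q < p → p < P →
      |(EE' b (((b : ℝ) ^ (a p) - (b : ℝ) ^ (a q)) * z) n).re| ≤ ε * n) (by
        intro q _
        by_cases h' : q < p ∧ p < P
        · obtain ⟨n0, hn0⟩ := h p q h'.1 h'.2
          exact ⟨n0, fun n hn _ _ => hn0 n hn⟩
        · exact ⟨0, fun n _ h1 h2 => absurd ⟨h1, h2⟩ h'⟩)
    exact this)
  have hPR : (0 : ℝ) < P := by exact_mod_cast hP
  set B : ℝ := ∑ p ∈ range P, 2 * (a p : ℝ) with hB
  have hB0 : 0 ≤ B := sum_nonneg fun _ _ => by positivity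
  set ρ : ℝ := Real.sqrt (1 / (P : ℝ) + ε) with hρ
  have hρε : ρ < ε' := by
    rw [hρ, Real.sqrt_lt' hε'0]
    exact hε'
  obtain ⟨n1, hn1⟩ := exists_nat_gt (B / (P * (ε' - ρ)))
  refine ⟨max n0 n1, fun n hn => ?_⟩
  have hnn0 := le_trans (le_max_left _ _) hn
  have hnn1 : (n1 : ℝ) ≤ n := by exact_mod_cast le_trans (le_max_right _ _) hn
  set u : ℕ → ℂ := fun i => ∑ p ∈ range P, e ((b : ℝ) ^ (a p) * z * (b : ℝ) ^ i) with hu
  -- the second moment
  have h1 : ∑ i ∈ range n, ‖u i‖ ^ 2 ≤ (P + P ^ 2 * ε) * n := by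
    have h2 : ∀ i, ((‖u i‖ ^ 2 : ℝ) : ℂ) = ∑ p ∈ range P, ∑ q ∈ range P,
        e (((b : ℝ) ^ (a p) - (b : ℝ) ^ (a q)) * z * (b : ℝ) ^ i) := by
      intro i
      have : ((‖u i‖ ^ 2 : ℝ) : ℂ) = u i * (starRingEnd ℂ) (u i) := by
        rw [Complex.mul_conj, Complex.normSq_eq_norm_sq]
      rw [this]
      simp only [hu]
      rw [map_sum, sum_mul_sum]
      refine sum_congr rfl fun p _ => sum_congr rfl fun q _ => ?_
      rw [conj_e, ← e_add]
      congr 1; ring
    have h3 : ((∑ i ∈ range n, ‖u i‖ ^ 2 : ℝ) : ℂ) = ∑ p ∈ range P, ∑ q ∈ range P,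
        EE' b (((b : ℝ) ^ (a p) - (b : ℝ) ^ (a q)) * z) n := by
      rw [Complex.ofReal_sum, sum_congr rfl fun i _ => h2 i, sum_comm]
      refine sum_congr rfl fun p _ => ?_
      rw [sum_comm]
      rfl
    have h3' : ∑ i ∈ range n, ‖u i‖ ^ 2 = ∑ p ∈ range P, ∑ q ∈ range P,
        (EE' b (((b : ℝ) ^ (a p) - (b : ℝ) ^ (a q)) * z) n).re := by
      have := congrArg Complex.re h3
      rw [Complex.ofReal_re, Complex.re_sum] at this
      rw [this]
      refine sum_congr rfl fun p _ => ?_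
      rw [Complex.re_sum]
    have h4 : ∑ i ∈ range n, ‖u i‖ ^ 2 ≤ ∑ p ∈ range P, ∑ q ∈ range P,
        ((if p = q then (n : ℝ) else 0) + ε * n) := by
      rw [h3']
      refine (sum_le_sum fun p hp => (sum_le_sum fun q hq => ?_))
      rw [mem_range] at hp hq
      have hεn : 0 ≤ ε * n := by positivity
      rcases lt_trichotomy p q with hpq | hpq | hpq
      · rw [if_neg hpq.ne, zero_add]
        have h5 := hn0 n hnn0 q hq.le p hp.le hpq hq
        have h6 : EE' b (((b : ℝ) ^ (a p) - (b : ℝ) ^ (a q)) * z) n =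
            (starRingEnd ℂ) (EE' b (((b : ℝ) ^ (a q) - (b : ℝ) ^ (a p)) * z) n) := by
          unfold EE'
          rw [map_sum]
          refine sum_congr rfl fun i _ => ?_
          rw [conj_e]
          congr 1; ring
        rw [h6, Complex.conj_re]
        exact (le_abs_self _).trans h5
      · rw [if_pos hpq]
        have : ‖EE' b (((b : ℝ) ^ (a p) - (b : ℝ) ^ (a q)) * z) n‖ ≤ n := by
          unfold EE'
          refine (norm_sum_le _ _).trans ?_
          simp [norm_e]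
        have := (le_abs_self _).trans ((Complex.abs_re_le_norm _).trans this)
        linarith
      · rw [if_neg hpq.ne', zero_add]
        exact (le_abs_self _).trans (hn0 n hnn0 p hp.le q hq.le hpq hp)
    have h5 : ∑ p ∈ range P, ∑ q ∈ range P, ((if p = q then (n : ℝ) else 0) + ε * n) =
        (P + P ^ 2 * ε) * n := by
      have h6 : ∀ p ∈ range P, ∑ q ∈ range P, ((if p = q then (n : ℝ) else 0) + ε * n) =
          n + P * (ε * n) := by
        intro p hp
        rw [sum_add_distrib, sum_ite_eq, if_pos hp, sum_const, nsmul_eq_mul, card_range]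
      rw [sum_congr rfl h6, sum_const, nsmul_eq_mul, card_range]
      ring
    rw [h5] at h4
    exact h4
  have h2 : ‖∑ i ∈ range n, u i‖ ≤ P * ρ * n := by
    have h3 : ‖∑ i ∈ range n, u i‖ ^ 2 ≤ (P * ρ * n) ^ 2 := by
      calc ‖∑ i ∈ range n, u i‖ ^ 2 ≤ (∑ i ∈ range n, ‖u i‖) ^ 2 := by
            gcongr; exact norm_sum_le _ _
        _ ≤ (#(range n) : ℝ) * ∑ i ∈ range n, ‖u i‖ ^ 2 := sq_sum_le_card_mul_sum_sq
        _ ≤ n * ((P + P ^ 2 * ε) * n) := by
            rw [card_range]; gcongr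
        _ = (P * ρ * n) ^ 2 := by
            rw [mul_pow, mul_pow, hρ, Real.sq_sqrt (by positivity)]
            field_simp
    exact abs_le_of_sq_le_sq' h3 (by positivity) |>.2
  have h3 : ‖∑ i ∈ range n, u i - P * EE' b z n‖ ≤ B := by
    have h4 : ∑ i ∈ range n, u i - P * EE' b z n =
        ∑ p ∈ range P, (EE' b ((b : ℝ) ^ (a p) * z) n - EE' b z n) := by
      rw [sum_sub_distrib, sum_const, nsmul_eq_mul, card_range]
      congr 1
      simp only [hu]
      rw [sum_comm]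
      rfl
    rw [h4, hB]
    exact (norm_sum_le _ _).trans (sum_le_sum fun p _ => EE'_shift b z (a p) n)
  have h4 : (P : ℝ) * ‖EE' b z n‖ ≤ P * ρ * n + B := by
    have h5 : (P : ℝ) * ‖EE' b z n‖ = ‖(P : ℂ) * EE' b z n‖ := by
      rw [norm_mul]; simp
    rw [h5]
    have h6 : (P : ℂ) * EE' b z n = ∑ i ∈ range n, u i - (∑ i ∈ range n, u i - P * EE' b z n) := by
      ring
    rw [h6]
    refine (norm_sub_le _ _).trans ?_
    linarith
  have h5 : B < P * (ε' - ρ) * n := by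
    have : B / (P * (ε' - ρ)) < n := lt_of_lt_of_le hn1 hnn1
    rw [div_lt_iff₀ (mul_pos hPR (by linarith))] at this
    linarith
  have h6 : (P : ℝ) * ‖EE' b z n‖ ≤ P * (ε' * n) := by nlinarith
  exact le_of_mul_le_mul_left h6 hPR

/-- a property of real numbers which is invariant under the shift `z ↦ b z` and which, for the
multiples `k z`, `k ≤ K`, makes the cosine sums of `z` small -/
structure Tester (b : ℕ) (T : ℝ → Prop) : Prop where
  shift : ∀ (z : ℝ) (v : ℕ), T z → T ((b : ℝ) ^ v * z)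
  small : ∀ ε : ℝ, 0 < ε → ∃ K : ℕ, ∀ z : ℝ, (∀ k : ℕ, 1 ≤ k → k ≤ K → T (k * z)) → SmR b ε z

/-- criterion for testers -/
theorem criterionT (b : ℕ) (hb : 2 ≤ b) (T : ℝ → Prop) (hT : Tester b T) (x : ℝ)
    (hx : ∀ L P : ℕ, ∃ a : ℕ → ℕ, ∀ p q, q < p → p < P → a q < a p ∧
      ∀ j : ℕ, 1 ≤ j → j ≤ L → ¬ b ∣ j → T (((j * (b ^ (a p - a q) - 1) : ℕ) : ℝ) * x)) :
    CellN b x := by
  have hbR : (1 : ℝ) < b := by exact_mod_cast (by omega : 1 < b)
  refine cell_of_weyl b hb x ?_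
  intro h hh ε hε
  obtain ⟨P, hP⟩ := exists_nat_gt (4 / ε ^ 2)
  have hPR : (0 : ℝ) < P := lt_of_le_of_lt (by positivity) hP
  have hP1 : 1 ≤ P := by
    rcases Nat.eq_zero_or_pos P with h0 | h0
    · rw [h0] at hPR; simp at hPR
    · exact h0
  obtain ⟨K, hK⟩ := hT.small (ε ^ 2 / 4) (by positivity)
  obtain ⟨a, ha⟩ := hx (K * h) P
  refine vdcR b (h * x) P hP1 a (ε ^ 2 / 2) ε (by positivity) ?_ hε ?_
  · have : 1 / (P : ℝ) < ε ^ 2 / 4 := by
      rw [div_lt_iff₀ hPR]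
      rw [div_lt_iff₀ (by positivity)] at hP
      linarith
    nlinarith [sq_pos_of_pos hε]
  · intro p q hqp hpP
    obtain ⟨h1, h2⟩ := ha p q hqp hpP
    have h3 : SmR b (ε ^ 2 / 4) (((h * (b ^ (a p - a q) - 1) : ℕ) : ℝ) * x) := by
      refine hK _ fun k hk1 hk2 => ?_
      have hkh : k * h ≠ 0 := by positivity
      obtain ⟨v, j, hbj, hj⟩ := Nat.exists_eq_pow_mul_and_not_dvd hkh b (by omega)
      have hj1 : 1 ≤ j := by
        rcases Nat.eq_zero_or_pos j with h0 | h0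
        · rw [h0] at hbj; simp at hbj
        · exact h0
      have hj2 : j ≤ K * h := by
        calc j ≤ b ^ v * j := Nat.le_mul_of_pos_left _ (Nat.pow_pos (by omega))
          _ = k * h := hj.symm
          _ ≤ K * h := Nat.mul_le_mul_right _ hk2
      have h4 := hT.shift _ v (h2 j hj1 hj2 hbj)
      have h5 : (b : ℝ) ^ v * (((j * (b ^ (a p - a q) - 1) : ℕ) : ℝ) * x) =
          (k : ℝ) * (((h * (b ^ (a p - a q) - 1) : ℕ) : ℝ) * x) := by
        have h6 : ((k * h : ℕ) : ℝ) = ((b ^ v * j : ℕ) : ℝ) := by rw [hj]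
        push_cast at h6
        rw [Nat.cast_mul, Nat.cast_mul]
        calc (b : ℝ) ^ v * ((j : ℝ) * ((b ^ (a p - a q) - 1 : ℕ) : ℝ) * x) =
            ((b : ℝ) ^ v * j) * (((b ^ (a p - a q) - 1 : ℕ) : ℝ) * x) := by ring
          _ = ((k : ℝ) * h) * (((b ^ (a p - a q) - 1 : ℕ) : ℝ) * x) := by rw [h6]
          _ = _ := by ring
      rwa [h5] at h4
    have h4 := SmR_shift b _ (a q) (ε ^ 2 / 4) (ε ^ 2 / 2) (by nlinarith [sq_pos_of_pos hε]) h3
    have h5 : (b : ℝ) ^ a q * (((h * (b ^ (a p - a q) - 1) : ℕ) : ℝ) * x) =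
        ((b : ℝ) ^ a p - (b : ℝ) ^ a q) * (h * x) := by
      have h6 : 1 ≤ b ^ (a p - a q) := Nat.one_le_pow _ _ (by omega)
      rw [Nat.cast_mul, Nat.cast_sub h6]
      push_cast
      have h7 : (b : ℝ) ^ a p = (b : ℝ) ^ a q * (b : ℝ) ^ (a p - a q) := by
        rw [← pow_add]; congr 1; omega
      rw [h7]; ring
    rwa [h5] at h4

/-- explicit families for testers -/
theorem explicitT (b : ℕ) (hb : 2 ≤ b) (T : ℝ → Prop) (hT : Tester b T) (f : ℕ → ℕ)
    (hf : Tendsto f atTop atTop) (a : ℕ → ℕ) (ha : StrictMono a) (x : ℝ)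
    (hx : ∀ p q, q < p → ∀ k : ℕ, 1 ≤ k → k ≤ f (a p - a q) → ¬ b ∣ k →
      T (((k * (b ^ (a p - a q) - 1) : ℕ) : ℝ) * x)) : CellN b x := by
  refine criterionT b hb T hT x ?_
  intro L P
  obtain ⟨m0, hm0⟩ := eventually_atTop.1 (hf.eventually_ge_atTop L)
  set M := max m0 1 with hM
  have hM1 : 1 ≤ M := le_max_right _ _
  refine ⟨fun p => a (M * p), fun p q hqp _ => ?_⟩
  have hgap : a (M * q) + M ≤ a (M * p) := by
    have h1 := strictMono_gap a ha (M * q) (M * (p - q))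
    have h2 : M * q + M * (p - q) = M * p := by
      rw [← Nat.mul_add]; congr 1; omega
    rw [h2] at h1
    have h3 : M * 1 ≤ M * (p - q) := Nat.mul_le_mul_left _ (by omega)
    omega
  refine ⟨by beta_reduce; omega, fun j hj1 hj2 hj3 => ?_⟩
  refine hx (M * p) (M * q) (by nlinarith) j hj1 ?_ hj3
  refine le_trans hj2 (hm0 _ ?_)
  have : m0 ≤ M := le_max_left _ _
  omega

/-- arbitrarily sparse sets of multipliers, the same for all bases and all testers -/
theorem sparseT (g : ℕ → ℕ) (hg : Tendsto g atTop atTop) : ∃ A : Set ℕ, (∀ k ∈ A, 1 ≤ k) ∧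
    (∀ X : ℕ, (A ∩ Set.Icc 1 X).ncard ≤ g X) ∧
    ∀ b : ℕ, 2 ≤ b → ∀ T : ℝ → Prop, Tester b T →
      ∀ x : ℝ, (∀ k ∈ A, ¬ b ∣ k → T (k * x)) → CellN b x := by
  obtain ⟨q, hq⟩ := exists_surjective_nat (ℕ × ℕ × ℕ)
  set B : ℕ → ℕ := fun r => (q r).1 with hB
  set K : ℕ → ℕ := fun r => (q r).2.1 with hK
  set P : ℕ → ℕ := fun r => (q r).2.2 with hP
  have hT : ∀ r : ℕ, ∃ T : ℕ, r + 1 ≤ T ∧ ∀ X, T ≤ X → ∑ r' ∈ range (r + 1), K r' * P r' ≤ g X := by
    intro r
    obtain ⟨T, hT⟩ := eventually_atTop.1 (hg.eventually_ge_atTop (∑ r' ∈ range (r + 1), K r' * P r'))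
    exact ⟨max T (r + 1), le_max_right _ _, fun X hX => hT X (le_trans (le_max_left _ _) hX)⟩
  choose T hT1 hT2 using hT
  set F : ℕ → Finset ℕ := fun r => (Icc 1 (K r) ×ˢ Ico 1 (P r)).image
    (fun km => km.1 * (B r ^ (T r * km.2) - 1)) with hF
  have hFcard : ∀ r, #(F r) ≤ K r * P r := by
    intro r
    refine card_image_le.trans ?_
    rw [card_product, Nat.card_Icc, Nat.card_Ico]
    exact Nat.mul_le_mul (by omega) (by omega)
  have hFge : ∀ r, 2 ≤ B r → ∀ N ∈ F r, T r ≤ N := by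
    intro r hBr N hN
    simp only [hF, mem_image, mem_product, mem_Icc, mem_Ico, Prod.exists] at hN
    obtain ⟨k, m, ⟨⟨hk1, _⟩, hm1, _⟩, rfl⟩ := hN
    have h1 : T r < 2 ^ T r := Nat.lt_two_pow_self
    have h2 : 2 ^ T r ≤ B r ^ (T r * m) := by
      calc 2 ^ T r ≤ B r ^ T r := Nat.pow_le_pow_left (by omega) _
        _ ≤ B r ^ (T r * m) := Nat.pow_le_pow_right (by omega) (Nat.le_mul_of_pos_right _ hm1)
    calc T r ≤ 1 * (B r ^ (T r * m) - 1) := by omega
      _ ≤ _ := Nat.mul_le_mul_right _ hk1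
  refine ⟨{N | ∃ r, 2 ≤ B r ∧ N ∈ F r}, ?_, ?_, ?_⟩
  · rintro N ⟨r, h1, h3⟩
    have := hFge r h1 N h3
    have := hT1 r
    omega
  · intro X
    classical
    set R : Finset ℕ := {r ∈ range X | T r ≤ X} with hR
    have hsub : {N | ∃ r, 2 ≤ B r ∧ N ∈ F r} ∩ Set.Icc 1 X ⊆ (↑(R.biUnion F) : Set ℕ) := by
      rintro N ⟨⟨r, h1, h3⟩, _, hNX⟩
      rw [Finset.mem_coe, mem_biUnion]
      have := hFge r h1 N h3
      have := hT1 r
      exact ⟨r, by rw [hR, mem_filter, mem_range]; exact ⟨by omega, by omega⟩, h3⟩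
    refine (Set.ncard_le_ncard hsub (Finset.finite_toSet _)).trans ?_
    rw [Set.ncard_coe_finset]
    rcases R.eq_empty_or_nonempty with hR0 | hR0
    · rw [hR0]; simp
    · refine card_biUnion_le.trans ?_
      have hmem := (mem_filter.1 (hR ▸ R.max'_mem hR0 : R.max' hR0 ∈ {r ∈ range X | T r ≤ X}))
      refine le_trans ?_ (hT2 (R.max' hR0) X hmem.2)
      refine (sum_le_sum fun r _ => hFcard r).trans ?_
      refine sum_le_sum_of_subset_of_nonneg ?_ (fun _ _ _ => Nat.zero_le _)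
      intro r hr
      rw [mem_range]
      exact Nat.lt_succ_of_le (R.le_max' r hr)
  · intro b hb TT hTT x hx
    refine criterionT b hb TT hTT x ?_
    intro K' P'
    obtain ⟨r, hr⟩ := hq (b, K', P')
    have e1 : B r = b := by simp only [hB, hr]
    have e3 : K r = K' := by simp only [hK, hr]
    have e4 : P r = P' := by simp only [hP, hr]
    have hTr : 1 ≤ T r := by have := hT1 r; omega
    refine ⟨fun p => T r * p, fun p q' hqp hpP => ?_⟩
    have hlt : T r * q' < T r * p := Nat.mul_lt_mul_of_pos_left hqp hTr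
    refine ⟨hlt, fun j hj1 hj2 hj3 => ?_⟩
    have hsub : T r * p - T r * q' = T r * (p - q') := by rw [Nat.mul_sub]
    refine hx _ ⟨r, by rw [e1]; exact hb, ?_⟩ ?_
    · simp only [hF, mem_image, mem_product, mem_Icc, mem_Ico, Prod.exists]
      refine ⟨j, p - q', ⟨⟨hj1, by rw [e3]; exact hj2⟩, by omega, by rw [e4]; omega⟩, ?_⟩
      rw [e1, hsub]
    · intro hd
      have hcop : Nat.Coprime b (b ^ (T r * p - T r * q') - 1) := by
        have hpos : 0 < T r * p - T r * q' := by omega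
        have h1 : 1 ≤ b ^ (T r * p - T r * q') := Nat.one_le_pow _ _ (by omega)
        have h2 : b ∣ b ^ (T r * p - T r * q') := dvd_pow_self b (by omega)
        rw [Nat.coprime_iff_gcd_eq_one]
        have h3 : Nat.gcd b (b ^ (T r * p - T r * q') - 1) ∣ 1 := by
          have h4 : Nat.gcd b (b ^ (T r * p - T r * q') - 1) ∣ b ^ (T r * p - T r * q') :=
            (Nat.gcd_dvd_left _ _).trans h2
          have h5 := Nat.gcd_dvd_right b (b ^ (T r * p - T r * q') - 1)
          have h6 := Nat.dvd_sub h4 h5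
          rwa [Nat.sub_sub_self h1] at h6
        exact Nat.dvd_one.1 h3
      exact hj3 (hcop.dvd_of_dvd_mul_right hd)

end Pool.Agent.U349.OB
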