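import Pool.Agent.U349.OB.Weyl

/-!
# Orbits of the multiplication by `b`
-/

set_option autoImplicit false

namespace Pool.Agent.U349.OB

open Finset Filter Topology
open Pool.Agent.H469R2.NK (e norm_e e_add e_zero conj_e)

/-- asymptotic frequency, in the `ε`-form -/
def Freq (f : ℕ → ℝ) (L : ℝ) : Prop :=
  ∀ ε : ℝ, 0 < ε → ∃ n0 : ℕ, ∀ n, n0 ≤ n → |f n - L * n| ≤ ε * n

lemma freq_iff (f : ℕ → ℝ) (L : ℝ) :
    Freq f L ↔ Tendsto (fun n : ℕ => f n / (n : ℝ)) atTop (𝓝 L) := by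
  rw [Metric.tendsto_atTop]
  constructor
  · intro h ε hε
    obtain ⟨n0, hn0⟩ := h (ε / 2) (by positivity)
    refine ⟨max n0 1, fun n hn => ?_⟩
    have hn1 : 1 ≤ n := le_trans (le_max_right _ _) hn
    have hnR : (0 : ℝ) < n := by exact_mod_cast hn1
    have h1 := hn0 n (le_trans (le_max_left _ _) hn)
    rw [Real.dist_eq]
    have h2 : f n / n - L = (f n - L * n) / n := by field_simp
    rw [h2, abs_div, abs_of_pos hnR, div_lt_iff₀ hnR]
    nlinarith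
  · intro h ε hε
    obtain ⟨n0, hn0⟩ := h ε hε
    refine ⟨max n0 1, fun n hn => ?_⟩
    have hn1 : 1 ≤ n := le_trans (le_max_right _ _) hn
    have hnR : (0 : ℝ) < n := by exact_mod_cast hn1
    have h1 := hn0 n (le_trans (le_max_left _ _) hn)
    rw [Real.dist_eq] at h1
    have h2 : f n / n - L = (f n - L * n) / n := by field_simp
    rw [h2, abs_div, abs_of_pos hnR, div_lt_iff₀ hnR] at h1
    exact h1.le

/-- all cells of all levels have the right frequency -/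
def CellN (b : ℕ) (x : ℝ) : Prop := ∀ k : ℕ, 0 < k → ∀ W : ℕ, W < b ^ k →
  Freq (fun n => ((#{i ∈ range n | ⌊((b ^ k : ℕ) : ℝ) * (x * (b : ℝ) ^ i)⌋ % ((b ^ k : ℕ) : ℤ) = (W : ℤ)} : ℕ) : ℝ))
    (1 / (b : ℝ) ^ k)

/-- simple normality -/
def SN (b : ℕ) (x : ℝ) : Prop := ∀ d : ℕ, d < b →
  Freq (fun n => ((#{i ∈ range n | ⌊(b : ℝ) * (x * (b : ℝ) ^ i)⌋ % (b : ℤ) = (d : ℤ)} : ℕ) : ℝ)) (1 / (b : ℝ))

/-- the exponential sum along the orbit of `z` -/
noncomputable def EE' (b : ℕ) (z : ℝ) (n : ℕ) : ℂ := ∑ i ∈ range n, e (z * (b : ℝ) ^ i)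

/-- eventually at most `ε n` -/
def Sm (b : ℕ) (ε : ℝ) (z : ℝ) : Prop := ∃ n0 : ℕ, ∀ n, n0 ≤ n → ‖EE' b z n‖ ≤ ε * n

lemma exists_max (K : ℕ) (P : ℕ → ℕ → Prop) (h : ∀ k ≤ K, ∃ n0 : ℕ, ∀ n, n0 ≤ n → P k n) :
    ∃ n0 : ℕ, ∀ n, n0 ≤ n → ∀ k ≤ K, P k n := by
  choose! f hf using h
  refine ⟨(range (K + 1)).sup f, fun n hn k hk => hf k hk n ?_⟩
  exact le_trans (le_sup (f := f) (mem_range.2 (by omega))) hn

/-- small exponential sums imply normality (all cells) -/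
theorem cell_of_weyl (b : ℕ) (hb : 2 ≤ b) (x : ℝ)
    (hx : ∀ h : ℕ, 1 ≤ h → ∀ ε : ℝ, 0 < ε → Sm b ε (h * x)) : CellN b x := by
  intro k _ W hW ε hε
  obtain ⟨H, δ, hδ, hH⟩ := count_of_weyl ε hε
  obtain ⟨n0, hn0⟩ := exists_max H (fun h n => 1 ≤ h → ‖EE' b (h * x) n‖ ≤ δ * n) (by
    intro h _
    by_cases hh : 1 ≤ h
    · obtain ⟨n0, hn0⟩ := hx h hh δ hδ
      exact ⟨n0, fun n hn _ => hn0 n hn⟩
    · exact ⟨0, fun n _ h' => absurd h' hh⟩)
  refine ⟨n0, fun n hn => ?_⟩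
  have hM : 0 < b ^ k := Nat.pow_pos (by omega)
  have hMR : (0 : ℝ) < ((b ^ k : ℕ) : ℝ) := by exact_mod_cast hM
  have h1 := hH (range n) (fun i => x * (b : ℝ) ^ i) (by
    intro h hh1 hh2
    have := hn0 n hn h hh2 hh1
    unfold EE' at this
    rw [card_range]
    simp only [mul_assoc] at this ⊢
    exact this) (W / (b ^ k : ℕ)) ((W + 1 : ℕ) / (b ^ k : ℕ)) (by positivity)
    (by
      apply div_lt_div_of_pos_right _ hMR
      push_cast; linarith)
    (by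
      rw [div_le_one hMR]
      exact_mod_cast hW)
  have h2 : ((W + 1 : ℕ) : ℝ) / (b ^ k : ℕ) - W / (b ^ k : ℕ) = 1 / (b : ℝ) ^ k := by
    push_cast; ring
  rw [h2, card_range] at h1
  have h3 : ({i ∈ range n | ⌊((b ^ k : ℕ) : ℝ) * (x * (b : ℝ) ^ i)⌋ % ((b ^ k : ℕ) : ℤ) = (W : ℤ)} : Finset ℕ) =
      {i ∈ range n | (W : ℝ) / (b ^ k : ℕ) ≤ Int.fract (x * (b : ℝ) ^ i) ∧
        Int.fract (x * (b : ℝ) ^ i) < ((W + 1 : ℕ) : ℝ) / (b ^ k : ℕ)} := by
    refine filter_congr fun i _ => ?_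
    exact cell_iff (b ^ k) hM W hW _
  beta_reduce
  rw [h3]
  exact h1

/-- small exponential sums imply simple normality of the multiples -/
theorem sn_of_weyl (b : ℕ) (hb : 2 ≤ b) (x : ℝ)
    (hx : ∀ h : ℕ, 1 ≤ h → ∀ ε : ℝ, 0 < ε → Sm b ε (h * x)) (k : ℕ) (hk : 1 ≤ k) :
    SN b (k * x) := by
  have h1 : CellN b (k * x) := cell_of_weyl b hb _ (by
    intro h hh ε hε
    have := hx (h * k) (Nat.mul_pos hh hk) ε hε
    push_cast at this
    rwa [mul_assoc] at this)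
  intro d hd
  have := h1 1 one_pos d (by rwa [pow_one])
  simpa using this

/-- normality implies that the exponential sums are small -/
theorem weyl_of_cellN (b : ℕ) (hb : 2 ≤ b) (x : ℝ) (hx : CellN b x) (h : ℕ) (hh : 1 ≤ h)
    (ε : ℝ) (hε : 0 < ε) : Sm b ε (h * x) := by
  have hbR : (1 : ℝ) < b := by exact_mod_cast (by omega : 1 < b)
  -- choose the level
  obtain ⟨k, hk⟩ : ∃ k : ℕ, max (h : ℝ) (4 * Real.pi * h / ε) < (b : ℝ) ^ k :=
    pow_unbounded_of_one_lt _ hbR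
  have hk1 : (h : ℝ) < (b : ℝ) ^ k := lt_of_le_of_lt (le_max_left _ _) hk
  have hk2 : 4 * Real.pi * h / ε < (b : ℝ) ^ k := lt_of_le_of_lt (le_max_right _ _) hk
  have hbk : (0 : ℝ) < (b : ℝ) ^ k := by positivity
  have hk0 : 0 < k := by
    rcases Nat.eq_zero_or_pos k with h0 | h0
    · rw [h0, pow_zero] at hk1
      have : (1 : ℝ) ≤ h := by exact_mod_cast hh
      linarith
    · exact h0
  have hhN : h < b ^ k := by exact_mod_cast hk1
  set δ : ℝ := ε / (2 * (b : ℝ) ^ k) with hδ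
  have hδ0 : 0 < δ := by positivity
  obtain ⟨n0, hn0⟩ := exists_max (b ^ k) (fun W n => W < b ^ k →
    |((#{i ∈ range n | ⌊((b ^ k : ℕ) : ℝ) * (x * (b : ℝ) ^ i)⌋ % ((b ^ k : ℕ) : ℤ) = (W : ℤ)} : ℕ) : ℝ) -
      1 / (b : ℝ) ^ k * n| ≤ δ * n) (by
    intro W _
    by_cases hW : W < b ^ k
    · obtain ⟨n0, hn0⟩ := hx k hk0 W hW δ hδ0
      exact ⟨n0, fun n hn _ => hn0 n hn⟩
    · exact ⟨0, fun n _ h' => absurd h' hW⟩)
  refine ⟨n0, fun n hn => ?_⟩
  have h1 := weyl_of_cells (range n) (fun i => x * (b : ℝ) ^ i) (b ^ k) (Nat.pow_pos (by omega)) h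
    (fun h' => by
      have := Nat.le_of_dvd (by omega) h'
      omega) δ (by
    intro W hW
    have := hn0 n hn W hW.le hW
    rw [card_range]
    have h2 : (n : ℝ) / ((b ^ k : ℕ) : ℝ) = 1 / (b : ℝ) ^ k * n := by push_cast; ring
    rw [h2]
    exact this)
  rw [card_range] at h1
  unfold EE'
  have h3 : ∑ i ∈ range n, e (h * x * (b : ℝ) ^ i) = ∑ i ∈ range n, e (h * (x * (b : ℝ) ^ i)) := by
    refine sum_congr rfl fun i _ => ?_
    rw [mul_assoc]
  rw [h3]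
  refine h1.trans ?_
  apply mul_le_mul_of_nonneg_right _ (Nat.cast_nonneg _)
  push_cast
  have h4 : (b : ℝ) ^ k * δ = ε / 2 := by rw [hδ]; field_simp
  have h5 : 2 * Real.pi * h / (b : ℝ) ^ k ≤ ε / 2 := by
    rw [div_lt_iff₀ hε] at hk2
    rw [div_le_div_iff₀ hbk (by norm_num)]
    linarith
  linarith

/-- simple normality of the multiples `k z`, `k ≤ K` coprime to `b`, makes the sum small -/
theorem small_of_SN (b : ℕ) (hb : 3 ≤ b) (ε : ℝ) (hε : 0 < ε) : ∃ K : ℕ, ∀ z : ℝ,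
    (∀ k : ℕ, 1 ≤ k → k ≤ K → Nat.Coprime k b → SN b (k * z)) → Sm b ε z := by
  obtain ⟨chi₁, v₁, g₁, hv₁⟩ := good_even b (by omega)
  obtain ⟨chi₂, v₂, g₂, hv₂⟩ := good_odd b hb
  obtain ⟨K, δ, hδ, hK⟩ := weyl_of_stat g₁ g₂ ε hε
  obtain ⟨δ₁, hδ₁, hs₁⟩ := St_small b (by omega) v₁ hv₁ δ hδ
  obtain ⟨δ₂, hδ₂, hs₂⟩ := St_small b (by omega) v₂ hv₂ δ hδ
  refine ⟨K, fun z hz => ?_⟩
  have hmin : 0 < min δ₁ δ₂ := lt_min hδ₁ hδ₂
  obtain ⟨n0, hn0⟩ := exists_max K (fun k n => 1 ≤ k → Nat.Coprime k b → ∀ d ≤ b, d < b →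
    |((#{i ∈ range n | ⌊(b : ℝ) * (k * z * (b : ℝ) ^ i)⌋ % (b : ℤ) = (d : ℤ)} : ℕ) : ℝ) - 1 / (b : ℝ) * n| ≤
      min δ₁ δ₂ * n) (by
    intro k hk
    by_cases hk1 : 1 ≤ k ∧ Nat.Coprime k b
    · have h2 := exists_max b (fun d n => d < b →
        |((#{i ∈ range n | ⌊(b : ℝ) * (k * z * (b : ℝ) ^ i)⌋ % (b : ℤ) = (d : ℤ)} : ℕ) : ℝ) -
        1 / (b : ℝ) * n| ≤ min δ₁ δ₂ * n) (by
          intro d _
          by_cases hd : d < b
          · obtain ⟨n0, hn0⟩ := hz k hk1.1 hk hk1.2 d hd (min δ₁ δ₂) hmin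
            exact ⟨n0, fun n hn _ => hn0 n hn⟩
          · exact ⟨0, fun n _ h' => absurd h' hd⟩)
      obtain ⟨n0, hn0⟩ := h2
      exact ⟨n0, fun n hn _ _ => hn0 n hn⟩
    · exact ⟨0, fun n _ h1 h2 => absurd ⟨h1, h2⟩ hk1⟩)
  refine ⟨n0, fun n hn => ?_⟩
  have h1 := hK (range n) (fun i => z * (b : ℝ) ^ i) (by
    intro k hk1 hk2 hk3
    refine hs₁ (range n) (fun i => k * (z * (b : ℝ) ^ i)) fun d hd => ?_
    have := hn0 n hn k hk2 hk1 hk3 d hd.le hd
    rw [card_range]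
    simp only [mul_assoc] at this ⊢
    have h2 : (n : ℝ) / b = 1 / b * n := by ring
    rw [h2]
    exact this.trans (mul_le_mul_of_nonneg_right (min_le_left _ _) (Nat.cast_nonneg _))) (by
    intro k hk1 hk2 hk3
    refine hs₂ (range n) (fun i => k * (z * (b : ℝ) ^ i)) fun d hd => ?_
    have := hn0 n hn k hk2 hk1 hk3 d hd.le hd
    rw [card_range]
    simp only [mul_assoc] at this ⊢
    have h2 : (n : ℝ) / b = 1 / b * n := by ring
    rw [h2]
    exact this.trans (mul_le_mul_of_nonneg_right (min_le_right _ _) (Nat.cast_nonneg _)))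
  rw [card_range] at h1
  exact h1

/-! ### the van der Corput trick -/

lemma EE'_shift (b : ℕ) (z : ℝ) (a n : ℕ) : ‖EE' b ((b : ℝ) ^ a * z) n - EE' b z n‖ ≤ 2 * a := by
  have h1 : EE' b ((b : ℝ) ^ a * z) n = EE' b z (n + a) - EE' b z a := by
    unfold EE'
    rw [add_comm n a, sum_range_add, add_sub_cancel_left]
    refine sum_congr rfl fun i _ => ?_
    congr 1
    rw [pow_add]; ring
  have h2 : EE' b z (n + a) = EE' b z n + ∑ i ∈ range a, e (z * (b : ℝ) ^ (n + i)) := by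
    unfold EE'
    rw [sum_range_add]
  rw [h1, h2]
  have h3 : ∀ (f : ℕ → ℝ), ‖∑ i ∈ range a, e (f i)‖ ≤ a := by
    intro f
    refine (norm_sum_le _ _).trans ?_
    simp [norm_e]
  have h4 := h3 (fun i => z * (b : ℝ) ^ (n + i))
  have h5 : ‖EE' b z a‖ ≤ a := h3 _
  have h6 : EE' b z n + ∑ i ∈ range a, e (z * (b : ℝ) ^ (n + i)) - EE' b z a - EE' b z n =
      ∑ i ∈ range a, e (z * (b : ℝ) ^ (n + i)) - EE' b z a := by ring
  rw [h6]
  refine (norm_sub_le _ _).trans ?_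
  linarith

lemma Sm_shift (b : ℕ) (z : ℝ) (a : ℕ) (ε ε' : ℝ) (hε : ε < ε') (h : Sm b ε z) :
    Sm b ε' ((b : ℝ) ^ a * z) := by
  obtain ⟨n0, hn0⟩ := h
  obtain ⟨n1, hn1⟩ := exists_nat_gt (2 * a / (ε' - ε))
  refine ⟨max n0 n1, fun n hn => ?_⟩
  have h1 := hn0 n (le_trans (le_max_left _ _) hn)
  have h2 : (n1 : ℝ) ≤ n := by exact_mod_cast le_trans (le_max_right _ _) hn
  have h3 : 2 * a < (ε' - ε) * n := by
    have : 2 * a / (ε' - ε) < n := lt_of_lt_of_le hn1 h2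
    rw [div_lt_iff₀ (by linarith)] at this
    linarith
  have h4 := EE'_shift b z a n
  have h5 : EE' b ((b : ℝ) ^ a * z) n = (EE' b ((b : ℝ) ^ a * z) n - EE' b z n) + EE' b z n := by ring
  rw [h5]
  refine (norm_add_le _ _).trans ?_
  nlinarith

/-- van der Corput trick with the lacunary sequence `b ^ (a p)` -/
theorem vdc (b : ℕ) (z : ℝ) (P : ℕ) (hP : 1 ≤ P) (a : ℕ → ℕ) (ε ε' : ℝ) (hε : 0 ≤ ε)
    (hε' : 1 / (P : ℝ) + ε < ε' ^ 2) (hε'0 : 0 < ε')
    (h : ∀ p q, q < p → p < P → Sm b ε (((b : ℝ) ^ (a p) - (b : ℝ) ^ (a q)) * z)) : Sm b ε' z := by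
  -- a common threshold
  obtain ⟨n0, hn0⟩ := exists_max P (fun p n => ∀ q ≤ P, q < p → p < P →
      ‖EE' b (((b : ℝ) ^ (a p) - (b : ℝ) ^ (a q)) * z) n‖ ≤ ε * n) (by
    intro p _
    have := exists_max P (fun q n => q < p → p < P →
      ‖EE' b (((b : ℝ) ^ (a p) - (b : ℝ) ^ (a q)) * z) n‖ ≤ ε * n) (by
        intro q _
        by_cases h' : q < p ∧ p < P
        · obtain ⟨n0, hn0⟩ := h p q h'.1 h'.2
          exact ⟨n0, fun n hn _ _ => hn0 n hn⟩
        · exact ⟨0, fun n _ h1 h2 => absurd ⟨h1, h2⟩ h'⟩)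
    exact this)
  have hPR : (0 : ℝ) < P := by exact_mod_cast hP
  set B : ℝ := ∑ p ∈ range P, 2 * (a p : ℝ) with hB
  have hB0 : 0 ≤ B := sum_nonneg fun _ _ => by positivity
  set ρ : ℝ := Real.sqrt (1 / (P : ℝ) + ε) with hρ
  have hρε : ρ < ε' := by
    rw [hρ, Real.sqrt_lt' hε'0]
    exact hε'
  obtain ⟨n1, hn1⟩ := exists_nat_gt (B / (P * (ε' - ρ)))
  refine ⟨max n0 n1, fun n hn => ?_⟩
  have hnn0 := le_trans (le_max_left _ _) hn
  have hnn1 : (n1 : ℝ) ≤ n := by exact_mod_cast le_trans (le_max_right _ _) hn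
  set u : ℕ → ℂ := fun i => ∑ p ∈ range P, e ((b : ℝ) ^ (a p) * z * (b : ℝ) ^ i) with hu
  -- the second moment
  have h1 : ∑ i ∈ range n, ‖u i‖ ^ 2 ≤ (P + P ^ 2 * ε) * n := by
    have h2 : ∀ i, ((‖u i‖ ^ 2 : ℝ) : ℂ) = ∑ p ∈ range P, ∑ q ∈ range P,
        e (((b : ℝ) ^ (a p) - (b : ℝ) ^ (a q)) * z * (b : ℝ) ^ i) := by
      intro i
      have : ((‖u i‖ ^ 2 : ℝ) : ℂ) = u i * (starRingEnd ℂ) (u i) := by
        rw [Complex.mul_conj, Complex.normSq_eq_norm_sq]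
      rw [this]
      simp only [hu]
      rw [map_sum, sum_mul_sum]
      refine sum_congr rfl fun p _ => sum_congr rfl fun q _ => ?_
      rw [conj_e, ← e_add]
      congr 1; ring
    have h3 : ((∑ i ∈ range n, ‖u i‖ ^ 2 : ℝ) : ℂ) = ∑ p ∈ range P, ∑ q ∈ range P,
        EE' b (((b : ℝ) ^ (a p) - (b : ℝ) ^ (a q)) * z) n := by
      rw [Complex.ofReal_sum, sum_congr rfl fun i _ => h2 i, sum_comm]
      refine sum_congr rfl fun p _ => ?_
      rw [sum_comm]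
      rfl
    have h4 : ‖((∑ i ∈ range n, ‖u i‖ ^ 2 : ℝ) : ℂ)‖ ≤ ∑ p ∈ range P, ∑ q ∈ range P,
        ((if p = q then (n : ℝ) else 0) + ε * n) := by
      rw [h3]
      refine (norm_sum_le _ _).trans (sum_le_sum fun p hp => (norm_sum_le _ _).trans
        (sum_le_sum fun q hq => ?_))
      rw [mem_range] at hp hq
      have hεn : 0 ≤ ε * n := by positivity
      rcases lt_trichotomy p q with hpq | hpq | hpq
      · rw [if_neg hpq.ne, zero_add]
        have h5 := hn0 n hnn0 q hq.le p hp.le hpq hq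
        have h6 : EE' b (((b : ℝ) ^ (a p) - (b : ℝ) ^ (a q)) * z) n =
            (starRingEnd ℂ) (EE' b (((b : ℝ) ^ (a q) - (b : ℝ) ^ (a p)) * z) n) := by
          unfold EE'
          rw [map_sum]
          refine sum_congr rfl fun i _ => ?_
          rw [conj_e]
          congr 1; ring
        rw [h6, Complex.norm_conj]
        exact h5
      · rw [if_pos hpq]
        have : ‖EE' b (((b : ℝ) ^ (a p) - (b : ℝ) ^ (a q)) * z) n‖ ≤ n := by
          unfold EE'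
          refine (norm_sum_le _ _).trans ?_
          simp [norm_e]
        linarith
      · rw [if_neg hpq.ne', zero_add]
        exact hn0 n hnn0 p hp.le q hq.le hpq hp
    have h5 : ∑ p ∈ range P, ∑ q ∈ range P, ((if p = q then (n : ℝ) else 0) + ε * n) =
        (P + P ^ 2 * ε) * n := by
      have h6 : ∀ p ∈ range P, ∑ q ∈ range P, ((if p = q then (n : ℝ) else 0) + ε * n) =
          n + P * (ε * n) := by
        intro p hp
        rw [sum_add_distrib, sum_ite_eq, if_pos hp, sum_const, nsmul_eq_mul, card_range]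
      rw [sum_congr rfl h6, sum_const, nsmul_eq_mul, card_range]
      ring
    rw [h5, Complex.norm_real, Real.norm_eq_abs] at h4
    exact (le_abs_self _).trans h4
  have h2 : ‖∑ i ∈ range n, u i‖ ≤ P * ρ * n := by
    have h3 : ‖∑ i ∈ range n, u i‖ ^ 2 ≤ (P * ρ * n) ^ 2 := by
      calc ‖∑ i ∈ range n, u i‖ ^ 2 ≤ (∑ i ∈ range n, ‖u i‖) ^ 2 := by
            gcongr; exact norm_sum_le _ _
        _ ≤ (#(range n) : ℝ) * ∑ i ∈ range n, ‖u i‖ ^ 2 := sq_sum_le_card_mul_sum_sq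
        _ ≤ n * ((P + P ^ 2 * ε) * n) := by
            rw [card_range]; gcongr
        _ = (P * ρ * n) ^ 2 := by
            rw [mul_pow, mul_pow, hρ, Real.sq_sqrt (by positivity)]
            field_simp
    exact abs_le_of_sq_le_sq' h3 (by positivity) |>.2
  have h3 : ‖∑ i ∈ range n, u i - P * EE' b z n‖ ≤ B := by
    have h4 : ∑ i ∈ range n, u i - P * EE' b z n =
        ∑ p ∈ range P, (EE' b ((b : ℝ) ^ (a p) * z) n - EE' b z n) := by
      rw [sum_sub_distrib, sum_const, nsmul_eq_mul, card_range]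
      congr 1
      simp only [hu]
      rw [sum_comm]
      rfl
    rw [h4, hB]
    exact (norm_sum_le _ _).trans (sum_le_sum fun p _ => EE'_shift b z (a p) n)
  have h4 : (P : ℝ) * ‖EE' b z n‖ ≤ P * ρ * n + B := by
    have h5 : (P : ℝ) * ‖EE' b z n‖ = ‖(P : ℂ) * EE' b z n‖ := by
      rw [norm_mul]; simp
    rw [h5]
    have h6 : (P : ℂ) * EE' b z n = ∑ i ∈ range n, u i - (∑ i ∈ range n, u i - P * EE' b z n) := by
      ring
    rw [h6]
    refine (norm_sub_le _ _).trans ?_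
    linarith
  have h5 : B < P * (ε' - ρ) * n := by
    have : B / (P * (ε' - ρ)) < n := lt_of_lt_of_le hn1 hnn1
    rw [div_lt_iff₀ (mul_pos hPR (by linarith))] at this
    linarith
  have h6 : (P : ℝ) * ‖EE' b z n‖ ≤ P * (ε' * n) := by nlinarith
  exact le_of_mul_le_mul_left h6 hPR

/-- the criterion: for every `h` not divisible by `b` and all `K, P` there are exponents
`a 0 < ... < a (P-1)` such that all `k h (b ^ (a p - a q) - 1) x` with `k ≤ K` coprime to `b` are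
simply normal -/
theorem criterion (b : ℕ) (hb : 3 ≤ b) (x : ℝ)
    (hx : ∀ h K P : ℕ, 1 ≤ h → ¬ b ∣ h → ∃ a : ℕ → ℕ, ∀ p q, q < p → p < P → a q < a p ∧
      ∀ k : ℕ, 1 ≤ k → k ≤ K → Nat.Coprime k b →
        SN b (((k * h * (b ^ (a p - a q) - 1) : ℕ) : ℝ) * x)) : CellN b x := by
  have hbR : (1 : ℝ) < b := by exact_mod_cast (by omega : 1 < b)
  -- `h` not divisible by `b`
  have key : ∀ h : ℕ, 1 ≤ h → ¬ b ∣ h → ∀ ε : ℝ, 0 < ε → Sm b ε (h * x) := by
    intro h hh hbh ε hε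
    obtain ⟨P, hP⟩ := exists_nat_gt (4 / ε ^ 2)
    have hPR : (0 : ℝ) < P := lt_of_le_of_lt (by positivity) hP
    have hP1 : 1 ≤ P := by
      rcases Nat.eq_zero_or_pos P with h0 | h0
      · rw [h0] at hPR; simp at hPR
      · exact h0
    obtain ⟨K, hK⟩ := small_of_SN b hb (ε ^ 2 / 4) (by positivity)
    obtain ⟨a, ha⟩ := hx h K P hh hbh
    refine vdc b (h * x) P hP1 a (ε ^ 2 / 2) ε (by positivity) ?_ hε ?_
    · have : 1 / (P : ℝ) < ε ^ 2 / 4 := by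
        rw [div_lt_iff₀ hPR]
        rw [div_lt_iff₀ (by positivity)] at hP
        linarith
      nlinarith [sq_pos_of_pos hε]
    · intro p q hqp hpP
      obtain ⟨h1, h2⟩ := ha p q hqp hpP
      have h3 : Sm b (ε ^ 2 / 4) (((h * (b ^ (a p - a q) - 1) : ℕ) : ℝ) * x) := by
        refine hK _ fun k hk1 hk2 hk3 => ?_
        have := h2 k hk1 hk2 hk3
        rw [mul_assoc k, Nat.cast_mul, mul_assoc] at this
        exact this
      have h4 := Sm_shift b _ (a q) (ε ^ 2 / 4) (ε ^ 2 / 2) (by nlinarith [sq_pos_of_pos hε]) h3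
      have h5 : (b : ℝ) ^ a q * (((h * (b ^ (a p - a q) - 1) : ℕ) : ℝ) * x) =
          ((b : ℝ) ^ a p - (b : ℝ) ^ a q) * (h * x) := by
        have h6 : 1 ≤ b ^ (a p - a q) := Nat.one_le_pow _ _ (by omega)
        rw [Nat.cast_mul, Nat.cast_sub h6]
        push_cast
        have h7 : (b : ℝ) ^ a p = (b : ℝ) ^ a q * (b : ℝ) ^ (a p - a q) := by
          rw [← pow_add]; congr 1; omega
        rw [h7]; ring
      rwa [h5] at h4
  refine cell_of_weyl b (by omega) x ?_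
  -- general `h`
  intro h hh ε hε
  obtain ⟨i, h', hb', rfl⟩ := Nat.exists_eq_pow_mul_and_not_dvd (by omega : h ≠ 0) b (by omega)
  have hh' : 1 ≤ h' := by
    rcases Nat.eq_zero_or_pos h' with h0 | h0
    · rw [h0] at hb'; simp at hb'
    · exact h0
  have := Sm_shift b _ i (ε / 2) ε (by linarith) (key h' hh' hb' (ε / 2) (by positivity))
  push_cast
  rwa [mul_assoc]

end Pool.Agent.U349.OB
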