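import Pool.Agent.U349.OB.OneBit

/-!
# Testers: the one-bit statistic, pairs of digits, the middle digit in base 3
-/

set_option autoImplicit false

namespace Pool.Agent.U349.OB

open Finset Filter Topology
open Pool.Agent.H469R2.NK (e norm_e e_add e_zero conj_e)

lemma freq_close (f f' : ℕ → ℝ) (C L : ℝ) (h : ∀ n, |f' n - f n| ≤ C) (hf : Freq f L) :
    Freq f' L := by
  have hC : 0 ≤ C := (abs_nonneg _).trans (h 0)
  intro ε hε
  obtain ⟨n0, hn0⟩ := hf (ε / 2) (by positivity)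
  obtain ⟨n1, hn1⟩ := exists_nat_gt (2 * C / ε)
  refine ⟨max n0 n1, fun n hn => ?_⟩
  have h1 := hn0 n (le_trans (le_max_left _ _) hn)
  have h2 : (n1 : ℝ) ≤ n := by exact_mod_cast le_trans (le_max_right _ _) hn
  have h3 : 2 * C < ε * n := by
    have : 2 * C / ε < n := lt_of_lt_of_le hn1 h2
    rw [div_lt_iff₀ hε] at this
    linarith
  have h4 : f' n - L * n = (f' n - f n) + (f n - L * n) := by ring
  rw [h4]
  refine (abs_add_le _ _).trans ?_
  have := h n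
  linarith

lemma freq_add (f f' : ℕ → ℝ) (L L' : ℝ) (hf : Freq f L) (hf' : Freq f' L') :
    Freq (fun n => f n + f' n) (L + L') := by
  intro ε hε
  obtain ⟨n0, hn0⟩ := hf (ε / 2) (by positivity)
  obtain ⟨n1, hn1⟩ := hf' (ε / 2) (by positivity)
  refine ⟨max n0 n1, fun n hn => ?_⟩
  have h1 := hn0 n (le_trans (le_max_left _ _) hn)
  have h2 := hn1 n (le_trans (le_max_right _ _) hn)
  have h4 : f n + f' n - (L + L') * n = (f n - L * n) + (f' n - L' * n) := by ring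
  rw [h4]
  refine (abs_add_le _ _).trans ?_
  linarith

lemma count_shift (p : ℕ → Prop) [DecidablePred p] (v n : ℕ) :
    |((#{i ∈ range n | p (i + v)} : ℕ) : ℝ) - ((#{i ∈ range n | p i} : ℕ) : ℝ)| ≤ v := by
  have h1 : #{i ∈ range n | p (i + v)} = #{i ∈ Ico v (n + v) | p i} := by
    have h3 : Ico v (n + v) = (range n).image (fun i => i + v) := by
      ext i
      rw [mem_Ico, mem_image]
      constructor
      · rintro ⟨h1, h2⟩
        exact ⟨i - v, by rw [mem_range]; omega, by omega⟩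
      · rintro ⟨j, hj, rfl⟩
        rw [mem_range] at hj; omega
    rw [h3, filter_image, card_image_of_injective _ (fun a b h => by
      have : a + v = b + v := h
      omega)]
  have h2 : #{i ∈ Ico v (n + v) | p i} ≤ #{i ∈ range n | p i} + v := by
    calc #{i ∈ Ico v (n + v) | p i} ≤ #({i ∈ range n | p i} ∪ Ico n (n + v)) := by
          apply card_le_card
          intro i hi
          rw [mem_filter, mem_Ico] at hi
          rw [mem_union, mem_filter, mem_range, mem_Ico]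
          by_cases h : i < n
          · left; exact ⟨h, hi.2⟩
          · right; omega
      _ ≤ #{i ∈ range n | p i} + #(Ico n (n + v)) := card_union_le _ _
      _ = _ := by rw [Nat.card_Ico]; omega
  have h3 : #{i ∈ range n | p i} ≤ #{i ∈ Ico v (n + v) | p i} + v := by
    calc #{i ∈ range n | p i} ≤ #({i ∈ Ico v (n + v) | p i} ∪ range v) := by
          apply card_le_card
          intro i hi
          rw [mem_filter, mem_range] at hi
          rw [mem_union, mem_filter, mem_range, mem_Ico]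
          by_cases h : i < v
          · right; exact h
          · left; exact ⟨⟨by omega, by omega⟩, hi.2⟩
      _ ≤ #{i ∈ Ico v (n + v) | p i} + #(range v) := card_union_le _ _
      _ = _ := by rw [card_range]
  rw [h1]
  have h4 : ((#{i ∈ Ico v (n + v) | p i} : ℕ) : ℝ) ≤ #{i ∈ range n | p i} + v := by exact_mod_cast h2
  have h5 : ((#{i ∈ range n | p i} : ℕ) : ℝ) ≤ #{i ∈ Ico v (n + v) | p i} + v := by exact_mod_cast h3
  rw [abs_le]
  constructor <;> linarith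

/-! ### intervals -/

/-- small exponential sums give the frequency of every interval -/
theorem interval_of_weyl (b : ℕ) (x : ℝ) (hx : ∀ h : ℕ, 1 ≤ h → ∀ ε : ℝ, 0 < ε → Sm b ε (h * x))
    (α β : ℝ) (hα : 0 ≤ α) (hαβ : α < β) (hβ : β ≤ 1) :
    Freq (fun n => ((#{i ∈ range n | α ≤ Int.fract (x * (b : ℝ) ^ i) ∧
      Int.fract (x * (b : ℝ) ^ i) < β} : ℕ) : ℝ)) (β - α) := by
  intro ε hε
  obtain ⟨H, δ, hδ, hH⟩ := count_of_weyl ε hε
  obtain ⟨n0, hn0⟩ := exists_max H (fun h n => 1 ≤ h → ‖EE' b (h * x) n‖ ≤ δ * n) (by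
    intro h _
    by_cases hh : 1 ≤ h
    · obtain ⟨n0, hn0⟩ := hx h hh δ hδ
      exact ⟨n0, fun n hn _ => hn0 n hn⟩
    · exact ⟨0, fun n _ h' => absurd h' hh⟩)
  refine ⟨n0, fun n hn => ?_⟩
  have h1 := hH (range n) (fun i => x * (b : ℝ) ^ i) (by
    intro h hh1 hh2
    have := hn0 n hn h hh2 hh1
    unfold EE' at this
    rw [card_range]
    simp only [mul_assoc] at this ⊢
    exact this) α β hα hαβ hβ
  rw [card_range] at h1
  exact h1

/-! ### the one-bit statistic -/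

/-- half of the points `z b ^ i` lie in `[1/4, 3/4)` modulo one -/
def Bit (b : ℕ) (z : ℝ) : Prop :=
  Freq (fun n => ((#{i ∈ range n | 1 / 4 ≤ Int.fract (z * (b : ℝ) ^ i) ∧
      Int.fract (z * (b : ℝ) ^ i) < 3 / 4} : ℕ) : ℝ)) (1 / 2)

theorem tester_OB (b : ℕ) : Tester b (Bit b) := by
  constructor
  · intro z v h
    refine freq_close _ _ v _ (fun n => ?_) h
    have := count_shift (fun i => 1 / 4 ≤ Int.fract (z * (b : ℝ) ^ i) ∧
      Int.fract (z * (b : ℝ) ^ i) < 3 / 4) v n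
    have h2 : ∀ i : ℕ, (b : ℝ) ^ v * z * (b : ℝ) ^ i = z * (b : ℝ) ^ (i + v) := by
      intro i; rw [pow_add]; ring
    simp only [h2]
    exact this
  · intro ε hε
    obtain ⟨K, δ, hδ, hK⟩ := cos_of_bit ε hε
    refine ⟨K, fun z hz => ?_⟩
    obtain ⟨n0, hn0⟩ := exists_max K (fun k n => 1 ≤ k →
      |((#{i ∈ range n | 1 / 4 ≤ Int.fract (k * z * (b : ℝ) ^ i) ∧
        Int.fract (k * z * (b : ℝ) ^ i) < 3 / 4} : ℕ) : ℝ) - 1 / 2 * n| ≤ δ * n) (by
      intro k hk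
      by_cases hk1 : 1 ≤ k
      · obtain ⟨n0, hn0⟩ := hz k hk1 hk δ hδ
        exact ⟨n0, fun n hn _ => hn0 n hn⟩
      · exact ⟨0, fun n _ h => absurd h hk1⟩)
    refine ⟨n0, fun n hn => ?_⟩
    have h1 := hK (range n) (fun i => z * (b : ℝ) ^ i) (by
      intro k hk1 hk2 _
      have := hn0 n hn k hk2 hk1
      rw [card_range]
      simp only [mul_assoc] at this ⊢
      exact this)
    rw [card_range] at h1
    unfold EE'
    rw [Complex.re_sum]
    simp only [re_e]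
    exact h1

theorem OB_of_cellN (b : ℕ) (hb : 2 ≤ b) (x : ℝ) (hx : CellN b x) (k : ℕ) (hk : 1 ≤ k) :
    Bit b (k * x) := by
  have h := interval_of_weyl b (k * x) (by
    intro h hh ε hε
    have := weyl_of_cellN b hb x hx (h * k) (Nat.mul_pos hh hk) ε hε
    push_cast at this
    rwa [mul_assoc] at this) (1 / 4) (3 / 4) (by norm_num) (by norm_num) (by norm_num)
  have h2 : (3 / 4 - 1 / 4 : ℝ) = 1 / 2 := by norm_num
  rw [h2] at h
  exact h

/-- the event `[1/4, 3/4)` is the change of the binary digit -/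
lemma change_iff (y : ℝ) : (1 / 4 ≤ Int.fract y ∧ Int.fract y < 3 / 4) ↔
    ⌊y * 2⌋ % 2 ≠ ⌊y * 4⌋ % 2 := by
  have h1 := cell_iff 4 (by norm_num) 1 (by norm_num) y
  have h2 := cell_iff 4 (by norm_num) 2 (by norm_num) y
  push_cast at h1 h2
  have h3 : ⌊y * 2⌋ = ⌊y * 4⌋ / 2 := by
    have ha := Int.floor_le (y * 4)
    have hb := Int.lt_floor_add_one (y * 4)
    rw [Int.floor_eq_iff]
    have hc := Int.emod_add_mul_ediv ⌊y * 4⌋ 2
    have hd := Int.emod_nonneg ⌊y * 4⌋ (by norm_num : (2 : ℤ) ≠ 0)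
    have he := Int.emod_lt_of_pos ⌊y * 4⌋ (by norm_num : (0 : ℤ) < 2)
    have hc' : ((⌊y * 4⌋ % 2 : ℤ) : ℝ) + 2 * ((⌊y * 4⌋ / 2 : ℤ) : ℝ) = (⌊y * 4⌋ : ℝ) := by
      exact_mod_cast hc
    have hd' : (0 : ℝ) ≤ ((⌊y * 4⌋ % 2 : ℤ) : ℝ) := by exact_mod_cast hd
    have he' : ((⌊y * 4⌋ % 2 : ℤ) : ℝ) ≤ 1 := by
      have : ⌊y * 4⌋ % 2 ≤ 1 := by omega
      exact_mod_cast this
    constructor <;> linarith
  have h4 : (1 / 4 ≤ Int.fract y ∧ Int.fract y < 3 / 4) ↔
      (⌊y * 4⌋ % 4 = 1 ∨ ⌊y * 4⌋ % 4 = 2) := by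
    rw [mul_comm y 4]
    have e1 : (4 : ℝ) * y = 4 * y := rfl
    rw [show ((4 : ℤ)) = 4 from rfl] at *
    rw [h1, h2]
    constructor
    · rintro ⟨ha, hb⟩
      by_cases h : Int.fract y < 1 / 2
      · left; constructor <;> norm_num <;> linarith
      · right; push Not at h; constructor <;> norm_num <;> linarith
    · rintro (⟨ha, hb⟩ | ⟨ha, hb⟩)
      · norm_num at ha hb; constructor <;> linarith
      · norm_num at ha hb; constructor <;> linarith
  rw [h4, h3]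
  omega

/-! ### pairs of digits -/

/-- for every digit `d` the digits `d` and `b - 1 - d` together have the right frequency -/
def PN (b : ℕ) (z : ℝ) : Prop := ∀ d : ℕ, d < b →
  Freq (fun n => ((#{i ∈ range n | ⌊(b : ℝ) * (z * (b : ℝ) ^ i)⌋ % (b : ℤ) = (d : ℤ)} : ℕ) : ℝ) +
    ((#{i ∈ range n | ⌊(b : ℝ) * (z * (b : ℝ) ^ i)⌋ % (b : ℤ) = ((b - 1 - d : ℕ) : ℤ)} : ℕ) : ℝ))
    (2 / (b : ℝ))

/-- odd data with symmetric partial sums -/
theorem good_odd_symm (c : ℕ) (hc : 3 ≤ c) :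
    ∃ chi v : ℕ → ℂ, Good c chi v (-1) ∧ ∑ j ∈ range c, v j = 0 ∧
      ∀ d, d < c → ∑ j ∈ range (c - 1 - d + 1), v j = ∑ j ∈ range (d + 1), v j := by
  have : NeZero c := ⟨by omega⟩
  have : Fact (2 < c) := ⟨by omega⟩
  have hne : (-1 : ZMod c) ≠ 1 := ZMod.neg_one_ne_one
  obtain ⟨χ, hχ⟩ := MulChar.exists_apply_ne_one_of_hasEnoughRootsOfUnity (ZMod c) ℂ hne
  have h2 : χ (-1) * χ (-1) = 1 := by
    rw [← map_mul]; simp
  have h3 : χ (-1) = -1 := by
    rcases mul_self_eq_one_iff.1 h2 with h | h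
    · exact absurd h hχ
    · exact h
  have h0 : 0 < c := by omega
  have hcR : (c : ℝ) ≠ 0 := by positivity
  obtain ⟨chi, v, hg, hv, hvdef⟩ : ∃ chi v : ℕ → ℂ, Good c chi v (-1) ∧ ∑ j ∈ range c, v j = 0 ∧
      ∀ j, v j = 1 / (c : ℂ) * ∑ a ∈ range c, χ (a : ZMod c) * e (a * j / c) := by
    obtain ⟨chi, v, h1, h2, h3, h4⟩ := good_char' c (by omega) χ (-1) h3 (by simp)
    exact ⟨chi, v, h1, h2, h4⟩
  refine ⟨chi, v, hg, hv, ?_⟩
  -- symmetry of `v`
  have hχ0 : χ ((0 : ℕ) : ZMod c) = 0 := by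
    rw [Nat.cast_zero]
    have : Nontrivial (ZMod c) := ZMod.nontrivial_iff.2 (by omega)
    exact MulChar.map_zero χ
  have hsplit' : ∀ G : ℕ → ℂ, G 0 = 0 →
      ∑ a ∈ range c, G a = ∑ a ∈ range (c - 1), G (a + 1) := by
    intro G hG
    have h5 := sum_range_succ' G (c - 1)
    rw [Nat.sub_add_cancel (by omega : 1 ≤ c), hG, add_zero] at h5
    exact h5
  have hsplit : ∀ F : ℕ → ℂ, ∑ a ∈ range c, χ (a : ZMod c) * F a =
      ∑ a ∈ range (c - 1), χ ((a + 1 : ℕ) : ZMod c) * F (a + 1) := by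
    intro F
    exact hsplit' (fun a => χ (a : ZMod c) * F a) (by beta_reduce; rw [hχ0, zero_mul])
  have hsym : ∀ j, j ≤ c → v (c - j) = - v j := by
    intro j hj
    rw [hvdef, hvdef, hsplit, hsplit, ← sum_range_reflect, neg_mul_eq_mul_neg, ← sum_neg_distrib]
    congr 1
    refine sum_congr rfl fun a ha => ?_
    rw [mem_range] at ha
    have e1 : c - 1 - 1 - a + 1 = c - (a + 1) := by omega
    rw [e1]
    have e2 : ((c - (a + 1) : ℕ) : ZMod c) = (-1) * ((a + 1 : ℕ) : ZMod c) := by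
      rw [Nat.cast_sub (by omega), ZMod.natCast_self]; ring
    rw [e2, map_mul, h3]
    have e3 : e (((c - (a + 1) : ℕ) : ℝ) * ((c - j : ℕ) : ℝ) / c) = e (((a + 1 : ℕ) : ℝ) * (j : ℝ) / c) := by
      rw [Nat.cast_sub (by omega), Nat.cast_sub hj]
      have : ((c : ℝ) - ((a + 1 : ℕ) : ℝ)) * ((c : ℝ) - j) / c =
          ((a + 1 : ℕ) : ℝ) * (j : ℝ) / c + (((c : ℤ) - (a + 1 : ℕ) - j : ℤ) : ℝ) := by
        push_cast; field_simp; ring
      rw [this, e_add, e_int, mul_one]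
    rw [e3]
    ring
  intro d hd
  have h5 : ∑ j ∈ range (c - d), v j + ∑ j ∈ range d, v (c - (j + 1)) = 0 := by
    rw [← hv]
    conv_rhs => rw [show c = (c - d) + d by omega, sum_range_add]
    congr 1
    rw [← sum_range_reflect]
    refine sum_congr rfl fun j hj => ?_
    rw [mem_range] at hj
    congr 1; omega
  have h6 : ∑ j ∈ range d, v (c - (j + 1)) = - ∑ j ∈ range d, v (j + 1) := by
    rw [← sum_neg_distrib]
    refine sum_congr rfl fun j hj => ?_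
    rw [mem_range] at hj
    exact hsym (j + 1) (by omega)
  have h7 : v 0 = 0 := by
    have h8 := hsym 0 (by omega)
    have h9 : v c = v 0 := by
      rw [hvdef, hvdef]
      congr 1
      refine sum_congr rfl fun a _ => ?_
      congr 1
      have : (a : ℝ) * (c : ℝ) / c = (a : ℤ) := by push_cast; field_simp
      rw [this, e_int]
      simp [e_zero]
    rw [Nat.sub_zero, h9] at h8
    have : v 0 + v 0 = 0 := by
      nth_rewrite 1 [h8]; ring
    exact self_eq_neg.1 h8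
  rw [show c - 1 - d + 1 = c - d by omega, sum_range_succ' v d, h7, add_zero]
  rw [h6] at h5
  linear_combination h5

/-- pairs of digits make the odd-character statistic small -/
lemma St_small_pair (c : ℕ) (hc : 0 < c) (v : ℕ → ℂ) (hv : ∑ j ∈ range c, v j = 0)
    (hsym : ∀ d, d < c → ∑ j ∈ range (c - 1 - d + 1), v j = ∑ j ∈ range (d + 1), v j)
    (δ : ℝ) (hδ : 0 < δ) :
    ∃ δ' : ℝ, 0 < δ' ∧ ∀ {ι : Type} (S : Finset ι) (y : ι → ℝ),
      (∀ d : ℕ, d < c → |((#{i ∈ S | ⌊(c : ℝ) * y i⌋ % c = (d : ℤ)} : ℕ) : ℝ) +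
        ((#{i ∈ S | ⌊(c : ℝ) * y i⌋ % c = ((c - 1 - d : ℕ) : ℤ)} : ℕ) : ℝ) - 2 / c * #S| ≤
        δ' * #S) → ‖∑ i ∈ S, St c v (y i)‖ ≤ δ * #S := by
  set W : ℝ := ∑ d ∈ range c, ‖∑ j ∈ range (d + 1), v j‖ with hW
  have hW0 : 0 ≤ W := sum_nonneg fun _ _ => norm_nonneg _
  refine ⟨δ / (W + 1), by positivity, ?_⟩
  intro ι S y h
  set cnt : ℕ → ℝ := fun d => ((#{i ∈ S | ⌊(c : ℝ) * y i⌋ % c = (d : ℤ)} : ℕ) : ℝ) with hcnt
  have h1 : ∑ i ∈ S, St c v (y i) = ∑ d ∈ range c, (∑ j ∈ range (d + 1), v j) *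
      ((((#S : ℝ) / c - cnt d : ℝ)) : ℂ) := by
    simp_rw [St_eq c hc v hv]
    rw [sum_comm]
    refine sum_congr rfl fun d _ => ?_
    rw [← mul_sum, sum_sub_distrib, sum_const, nsmul_eq_mul]
    congr 1
    simp only [hcnt]
    push_cast
    congr 1
    · ring
    · rw [sum_boole]
  have h1' : ∑ i ∈ S, St c v (y i) = ∑ d ∈ range c, (∑ j ∈ range (d + 1), v j) *
      ((((#S : ℝ) / c - cnt (c - 1 - d) : ℝ)) : ℂ) := by
    rw [h1, ← sum_range_reflect]
    refine sum_congr rfl fun d hd => ?_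
    rw [mem_range] at hd
    rw [hsym d hd]
  have h2 : ∑ i ∈ S, St c v (y i) = 1 / 2 * ∑ d ∈ range c, (∑ j ∈ range (d + 1), v j) *
      (((-(cnt d + cnt (c - 1 - d) - 2 / c * #S) : ℝ)) : ℂ) := by
    have h3 : ∑ d ∈ range c, (∑ j ∈ range (d + 1), v j) *
        (((-(cnt d + cnt (c - 1 - d) - 2 / c * #S) : ℝ)) : ℂ) =
        ∑ d ∈ range c, (∑ j ∈ range (d + 1), v j) * ((((#S : ℝ) / c - cnt d : ℝ)) : ℂ) +
        ∑ d ∈ range c, (∑ j ∈ range (d + 1), v j) * ((((#S : ℝ) / c - cnt (c - 1 - d) : ℝ)) : ℂ) := by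
      rw [← sum_add_distrib]
      refine sum_congr rfl fun d _ => ?_
      rw [← mul_add]
      congr 1
      push_cast
      ring
    rw [h3, ← h1, ← h1']
    ring
  rw [h2, norm_mul]
  have hhalf : ‖(1 / 2 : ℂ)‖ = 1 / 2 := by norm_num
  rw [hhalf]
  have h4 : ‖∑ d ∈ range c, (∑ j ∈ range (d + 1), v j) *
      (((-(cnt d + cnt (c - 1 - d) - 2 / c * #S) : ℝ)) : ℂ)‖ ≤ W * (δ / (W + 1) * #S) := by
    refine (norm_sum_le _ _).trans ?_
    rw [hW, sum_mul]
    refine sum_le_sum fun d hd => ?_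
    rw [norm_mul, Complex.norm_real, Real.norm_eq_abs, abs_neg]
    exact mul_le_mul_of_nonneg_left (h d (mem_range.1 hd)) (norm_nonneg _)
  have hS : (0 : ℝ) ≤ #S := Nat.cast_nonneg _
  have h5 : W * (δ / (W + 1) * #S) ≤ δ * #S := by
    calc W * (δ / (W + 1) * #S) = (W / (W + 1)) * (δ * #S) := by field_simp
      _ ≤ 1 * (δ * #S) := by
          apply mul_le_mul_of_nonneg_right _ (by positivity)
          rw [div_le_one (by positivity)]; linarith
      _ = _ := one_mul _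
  have h6 : 0 ≤ ‖∑ d ∈ range c, (∑ j ∈ range (d + 1), v j) *
      (((-(cnt d + cnt (c - 1 - d) - 2 / c * #S) : ℝ)) : ℂ)‖ := norm_nonneg _
  linarith

theorem tester_PN (b : ℕ) (hb : 3 ≤ b) : Tester b (PN b) := by
  constructor
  · intro z v h d hd
    refine freq_close _ _ (v + v) _ (fun n => ?_) (h d hd)
    have h2 : ∀ i : ℕ, (b : ℝ) ^ v * z * (b : ℝ) ^ i = z * (b : ℝ) ^ (i + v) := by
      intro i; rw [pow_add]; ring
    simp only [h2]
    have e1 := count_shift (fun i => ⌊(b : ℝ) * (z * (b : ℝ) ^ i)⌋ % (b : ℤ) = (d : ℤ)) v n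
    have e2 := count_shift (fun i => ⌊(b : ℝ) * (z * (b : ℝ) ^ i)⌋ % (b : ℤ) = ((b - 1 - d : ℕ) : ℤ)) v n
    rw [abs_le] at e1 e2 ⊢
    constructor <;> linarith [e1.1, e1.2, e2.1, e2.2]
  · intro ε hε
    obtain ⟨chi, v, hg, hv, hsym⟩ := good_odd_symm b hb
    obtain ⟨K, δ, hδ, hK⟩ := core hg ε hε
    obtain ⟨δ', hδ', hs⟩ := St_small_pair b (by omega) v hv hsym δ hδ
    refine ⟨K, fun z hz => ?_⟩
    obtain ⟨n0, hn0⟩ := exists_max K (fun k n => 1 ≤ k → ∀ d ≤ b, d < b →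
      |((#{i ∈ range n | ⌊(b : ℝ) * (k * z * (b : ℝ) ^ i)⌋ % (b : ℤ) = (d : ℤ)} : ℕ) : ℝ) +
       ((#{i ∈ range n | ⌊(b : ℝ) * (k * z * (b : ℝ) ^ i)⌋ % (b : ℤ) = ((b - 1 - d : ℕ) : ℤ)} : ℕ) : ℝ) -
        2 / (b : ℝ) * n| ≤ δ' * n) (by
      intro k hk
      by_cases hk1 : 1 ≤ k
      · have h2 := exists_max b (fun d n => d < b →
          |((#{i ∈ range n | ⌊(b : ℝ) * (k * z * (b : ℝ) ^ i)⌋ % (b : ℤ) = (d : ℤ)} : ℕ) : ℝ) +
           ((#{i ∈ range n | ⌊(b : ℝ) * (k * z * (b : ℝ) ^ i)⌋ % (b : ℤ) = ((b - 1 - d : ℕ) : ℤ)} : ℕ) : ℝ) -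
            2 / (b : ℝ) * n| ≤ δ' * n) (by
            intro d _
            by_cases hd : d < b
            · obtain ⟨n0, hn0⟩ := hz k hk1 hk d hd δ' hδ'
              exact ⟨n0, fun n hn _ => hn0 n hn⟩
            · exact ⟨0, fun n _ h' => absurd h' hd⟩)
        obtain ⟨n0, hn0⟩ := h2
        exact ⟨n0, fun n hn _ => hn0 n hn⟩
      · exact ⟨0, fun n _ h1 => absurd h1 hk1⟩)
    refine ⟨n0, fun n hn => ?_⟩
    have h1 := hK (range n) (fun i => z * (b : ℝ) ^ i) (by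
      intro k hk1 hk2 hk3
      refine hs (range n) (fun i => k * (z * (b : ℝ) ^ i)) fun d hd => ?_
      have := hn0 n hn k hk2 hk1 d hd.le hd
      rw [card_range]
      simp only [mul_assoc] at this ⊢
      exact this)
    have h2 : ∑ i ∈ range n, (e (z * (b : ℝ) ^ i) - (-1) * e (-(z * (b : ℝ) ^ i))) =
        ((2 * ∑ i ∈ range n, Real.cos (2 * Real.pi * (z * (b : ℝ) ^ i)) : ℝ) : ℂ) := by
      push_cast
      rw [mul_sum]
      refine sum_congr rfl fun i _ => ?_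
      have := cos_eq (z * (b : ℝ) ^ i)
      push_cast at this
      rw [this]; ring
    rw [h2, card_range, Complex.norm_real, Real.norm_eq_abs, abs_mul,
      abs_of_pos (by norm_num : (0 : ℝ) < 2)] at h1
    unfold EE'
    rw [Complex.re_sum]
    simp only [re_e]
    have h3 := abs_nonneg (∑ i ∈ range n, Real.cos (2 * Real.pi * (z * (b : ℝ) ^ i)))
    linarith

theorem PN_of_cellN (b : ℕ) (hb : 2 ≤ b) (x : ℝ) (hx : CellN b x) (k : ℕ) (hk : 1 ≤ k) :
    PN b (k * x) := by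
  intro d hd
  have h := SN_of_cellN b hb x hx k hk
  have h1 := freq_add _ _ _ _ (h d hd) (h (b - 1 - d) (by omega))
  have h2 : (1 : ℝ) / b + 1 / b = 2 / b := by ring
  rw [h2] at h1
  exact h1

end Pool.Agent.U349.OB
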