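import Pool.Agent.R485.Trans.Saw
import Pool.Agent.H373R2.T7.SupMu

/-!
# Weighted sums of the sawtooth function
-/

set_option autoImplicit false

namespace Pool.Agent.U349.OB

open Finset Filter Topology
open Pool.Agent.H469R2.NK (e norm_e e_add e_zero conj_e)
open Pool.Agent.W565.MOFS (P2 diff_bound saw_upper saw_lower cos_sum re_e norm_e_sub_one)

/-- the sawtooth function -/
noncomputable def psi (t : ℝ) : ℝ := Int.fract t - 1 / 2

lemma abs_psi_le (t : ℝ) : |psi t| ≤ 1 / 2 := by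
  unfold psi
  have h0 := Int.fract_nonneg t
  have h1 := (Int.fract_lt_one t).le
  rw [abs_le]; constructor <;> linarith

lemma cos_eq (x : ℝ) : ((Real.cos (2 * Real.pi * x) : ℝ) : ℂ) = (e x + e (-x)) / 2 := by
  have h1 : e x = Complex.exp (((2 * Real.pi * x : ℝ) : ℂ) * Complex.I) := rfl
  have h2 : e (-x) = Complex.exp (-((2 * Real.pi * x : ℝ) : ℂ) * Complex.I) := by
    unfold Pool.Agent.H469R2.NK.e
    congr 1
    push_cast; ring
  rw [h1, h2, Complex.ofReal_cos, Complex.cos]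

/-- weighted differences of `P2` -/
theorem wdiff {ι : Type} (S : Finset ι) (w : ι → ℂ) (hw : ∀ n ∈ S, ‖w n‖ ≤ 1) (x : ι → ℝ) (δ : ℝ)
    (hδ : 0 ≤ δ) (K : ℕ) (hK : 1 ≤ K) (E : ℝ)
    (hE : ∀ h : ℤ, h ≠ 0 → |h| ≤ K → ‖∑ n ∈ S, w n * e (h * x n)‖ ≤ E) :
    ‖∑ n ∈ S, w n * ((P2 (Int.fract (x n + δ)) - P2 (Int.fract (x n)) : ℝ) : ℂ)‖ ≤
      2 * δ * K * E + S.card / K := by
  have hE0 : 0 ≤ E := (norm_nonneg _).trans (hE 1 one_ne_zero (by simpa using hK))
  have hK0 : (0 : ℝ) < K := by exact_mod_cast hK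
  let f : ℕ → ℂ := fun h => ∑ n ∈ S, w n * ((1 / (h : ℝ) ^ 2 *
    (Real.cos (2 * Real.pi * h * (x n + δ)) - Real.cos (2 * Real.pi * h * x n)) : ℝ) : ℂ)
  have hf : HasSum f (∑ n ∈ S, w n * ((Real.pi ^ 2 * (P2 (Int.fract (x n + δ)) -
      P2 (Int.fract (x n))) : ℝ) : ℂ)) := by
    refine hasSum_sum fun n _ => ?_
    refine HasSum.mul_left _ ?_
    have h := (cos_sum (x n + δ)).sub (cos_sum (x n))
    have h2 : HasSum (fun h : ℕ => (1 / (h : ℝ) ^ 2 *
        (Real.cos (2 * Real.pi * h * (x n + δ)) - Real.cos (2 * Real.pi * h * x n)) : ℝ))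
        (Real.pi ^ 2 * (P2 (Int.fract (x n + δ)) - P2 (Int.fract (x n)))) := by
      simpa only [mul_sub] using h
    exact_mod_cast (Complex.hasSum_ofReal.2 h2)
  have hf0 : f 0 = 0 := by simp [f]
  have hf1 : ∀ h : ℕ, 1 ≤ h → h ≤ K → ‖f h‖ ≤ 2 * Real.pi * δ / h * E := by
    intro h hh hhK
    have hh0 : (0 : ℝ) < h := by exact_mod_cast hh
    have e1 : f h = ((1 / (h : ℝ) ^ 2 : ℝ) : ℂ) * (((e (h * δ) - 1) * ∑ n ∈ S, w n * e (((h : ℤ) : ℝ) * x n) +
        (e (-(h * δ)) - 1) * ∑ n ∈ S, w n * e (((-(h : ℤ) : ℤ) : ℝ) * x n)) / 2) := by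
      simp only [f]
      rw [mul_sum, mul_sum, ← sum_add_distrib, sum_div, mul_sum]
      refine sum_congr rfl fun n _ => ?_
      have e2 : e (((h : ℤ) : ℝ) * x n) = e (h * x n) := by push_cast; rfl
      have e3 : e (((-(h : ℤ) : ℤ) : ℝ) * x n) = e (-(h * x n)) := by
        congr 1; push_cast; ring
      rw [e2, e3]
      have e4 : e (h * (x n + δ)) = e (h * δ) * e (h * x n) := by
        rw [← e_add]; congr 1; ring
      have e5 : e (-(h * (x n + δ))) = e (-(h * δ)) * e (-(h * x n)) := by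
        rw [← e_add]; congr 1; ring
      have e6 := cos_eq (h * (x n + δ))
      have e7 := cos_eq (h * x n)
      rw [e4, e5] at e6
      have e8 : 2 * Real.pi * (h : ℝ) * (x n + δ) = 2 * Real.pi * (h * (x n + δ)) := by ring
      have e9 : 2 * Real.pi * (h : ℝ) * x n = 2 * Real.pi * (h * x n) := by ring
      rw [e8, e9]
      push_cast [Complex.ofReal_sub, Complex.ofReal_mul] at e6 e7 ⊢
      rw [e6, e7]
      ring
    have h1 : ‖e (h * δ) - 1‖ ≤ 2 * Real.pi * (h * δ) := by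
      have := norm_e_sub_one (h * δ)
      rwa [abs_of_nonneg (by positivity)] at this
    have h2 : ‖e (-(h * δ)) - 1‖ ≤ 2 * Real.pi * (h * δ) := by
      have := norm_e_sub_one (-(h * δ))
      rwa [abs_neg, abs_of_nonneg (by positivity)] at this
    have h3 := hE (h : ℤ) (by exact_mod_cast (by omega : h ≠ 0)) (by
      rw [abs_of_nonneg (by positivity)]; exact_mod_cast hhK)
    have h4 := hE (-(h : ℤ)) (by
      have : (h : ℤ) ≠ 0 := by exact_mod_cast (by omega : h ≠ 0)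
      exact neg_ne_zero.2 this) (by
      rw [abs_neg, abs_of_nonneg (by positivity)]; exact_mod_cast hhK)
    rw [e1, norm_mul, norm_div, Complex.norm_real, Real.norm_eq_abs,
      abs_of_pos (by positivity : (0 : ℝ) < 1 / (h : ℝ) ^ 2)]
    have h5 : ‖(e (h * δ) - 1) * ∑ n ∈ S, w n * e (((h : ℤ) : ℝ) * x n) +
        (e (-(h * δ)) - 1) * ∑ n ∈ S, w n * e (((-(h : ℤ) : ℤ) : ℝ) * x n)‖ ≤
        2 * (2 * Real.pi * (h * δ) * E) := by
      refine (norm_add_le _ _).trans ?_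
      rw [norm_mul, norm_mul]
      have a1 : ‖e (h * δ) - 1‖ * ‖∑ n ∈ S, w n * e (((h : ℤ) : ℝ) * x n)‖ ≤
          2 * Real.pi * (h * δ) * E := mul_le_mul h1 h3 (norm_nonneg _) (by positivity)
      have a2 : ‖e (-(h * δ)) - 1‖ * ‖∑ n ∈ S, w n * e (((-(h : ℤ) : ℤ) : ℝ) * x n)‖ ≤
          2 * Real.pi * (h * δ) * E := mul_le_mul h2 h4 (norm_nonneg _) (by positivity)
      linarith
    have h6 : ‖(2 : ℂ)‖ = 2 := by simp
    rw [h6]
    calc 1 / (h : ℝ) ^ 2 * (‖(e (h * δ) - 1) * ∑ n ∈ S, w n * e (((h : ℤ) : ℝ) * x n) +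
        (e (-(h * δ)) - 1) * ∑ n ∈ S, w n * e (((-(h : ℤ) : ℤ) : ℝ) * x n)‖ / 2)
        ≤ 1 / (h : ℝ) ^ 2 * (2 * (2 * Real.pi * (h * δ) * E) / 2) := by gcongr
      _ = _ := by field_simp
  have hf2 : ∀ h : ℕ, ‖f h‖ ≤ ((h : ℝ) ^ 2)⁻¹ * (2 * S.card) := by
    intro h
    refine (norm_sum_le _ _).trans ?_
    have h2 : ∀ n ∈ S, ‖w n * ((1 / (h : ℝ) ^ 2 *
        (Real.cos (2 * Real.pi * h * (x n + δ)) - Real.cos (2 * Real.pi * h * x n)) : ℝ) : ℂ)‖ ≤
        ((h : ℝ) ^ 2)⁻¹ * 2 := by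
      intro n hn
      rw [norm_mul, Complex.norm_real, Real.norm_eq_abs, abs_mul,
        abs_of_nonneg (by positivity : (0 : ℝ) ≤ 1 / (h : ℝ) ^ 2), one_div]
      have h3 := Real.abs_cos_le_one (2 * Real.pi * h * (x n + δ))
      have h4 := Real.abs_cos_le_one (2 * Real.pi * h * x n)
      have h5 := abs_sub (Real.cos (2 * Real.pi * h * (x n + δ))) (Real.cos (2 * Real.pi * h * x n))
      have h6 : |Real.cos (2 * Real.pi * h * (x n + δ)) - Real.cos (2 * Real.pi * h * x n)| ≤ 2 := by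
        linarith
      calc ‖w n‖ * (((h : ℝ) ^ 2)⁻¹ * |Real.cos (2 * Real.pi * h * (x n + δ)) - Real.cos (2 * Real.pi * h * x n)|)
          ≤ 1 * (((h : ℝ) ^ 2)⁻¹ * 2) := by
            refine mul_le_mul (hw n hn) ?_ (by positivity) zero_le_one
            exact mul_le_mul_of_nonneg_left h6 (by positivity)
        _ = _ := one_mul _
    refine (sum_le_sum h2).trans ?_
    rw [sum_const, nsmul_eq_mul]
    apply le_of_eq; ring
  -- the sum
  have hsum : ‖∑ n ∈ S, w n * ((Real.pi ^ 2 * (P2 (Int.fract (x n + δ)) -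
      P2 (Int.fract (x n))) : ℝ) : ℂ)‖ ≤ 2 * Real.pi * δ * K * E + 2 * S.card / K := by
    have hle : ∀ M : ℕ, K ≤ M → ‖∑ h ∈ range (M + 1), f h‖ ≤
        2 * Real.pi * δ * K * E + 2 * S.card / K := by
      intro M hM
      have h1 : ∑ h ∈ range (M + 1), f h = ∑ h ∈ Icc 1 K, f h + ∑ h ∈ Ioc K M, f h := by
        have a1 : range (M + 1) = insert 0 (Icc 1 K ∪ Ioc K M) := by
          ext n; simp only [mem_range, mem_insert, mem_union, mem_Icc, mem_Ioc]; omega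
        rw [a1, sum_insert (by simp), hf0, zero_add, sum_union]
        rw [disjoint_left]
        intro n hn hn'
        rw [mem_Icc] at hn; rw [mem_Ioc] at hn'; omega
      rw [h1]
      refine (norm_add_le _ _).trans (add_le_add ?_ ?_)
      · refine (norm_sum_le _ _).trans ?_
        have a1 : ∀ h ∈ Icc 1 K, ‖f h‖ ≤ 2 * Real.pi * δ * E := by
          intro h hh
          rw [mem_Icc] at hh
          refine (hf1 h hh.1 hh.2).trans ?_
          have : (1 : ℝ) ≤ h := by exact_mod_cast hh.1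
          rw [div_mul_eq_mul_div]
          exact div_le_self (by positivity) this
        refine (sum_le_sum a1).trans ?_
        rw [sum_const, nsmul_eq_mul, Nat.card_Icc]
        apply le_of_eq
        push_cast
        ring
      · refine (norm_sum_le _ _).trans ?_
        refine (sum_le_sum fun h _ => hf2 h).trans ?_
        rw [← sum_mul]
        have a2 : ∑ i ∈ Ioc K M, ((i : ℝ) ^ 2)⁻¹ ≤ (K : ℝ)⁻¹ - (M : ℝ)⁻¹ :=
          sum_Ioc_inv_sq_le_sub (by omega) hM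
        have a3 : (0 : ℝ) ≤ (M : ℝ)⁻¹ := by positivity
        calc (∑ i ∈ Ioc K M, ((i : ℝ) ^ 2)⁻¹) * (2 * S.card) ≤ (K : ℝ)⁻¹ * (2 * S.card) := by
              apply mul_le_mul_of_nonneg_right _ (by positivity)
              linarith
          _ = _ := by field_simp
    have ht : Tendsto (fun M : ℕ => ∑ h ∈ range (M + 1), f h) atTop
        (𝓝 (∑ n ∈ S, w n * ((Real.pi ^ 2 * (P2 (Int.fract (x n + δ)) -
      P2 (Int.fract (x n))) : ℝ) : ℂ))) := hf.tendsto_sum_nat.comp (tendsto_add_atTop_nat 1)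
    exact le_of_tendsto ht.norm (eventually_atTop.2 ⟨K, hle⟩)
  have hpi := Real.pi_gt_three
  have h1 : ∑ n ∈ S, w n * ((Real.pi ^ 2 * (P2 (Int.fract (x n + δ)) -
      P2 (Int.fract (x n))) : ℝ) : ℂ) = ((Real.pi ^ 2 : ℝ) : ℂ) *
      ∑ n ∈ S, w n * ((P2 (Int.fract (x n + δ)) - P2 (Int.fract (x n)) : ℝ) : ℂ) := by
    rw [mul_sum]
    refine sum_congr rfl fun n _ => ?_
    push_cast; ring
  rw [h1, norm_mul, Complex.norm_real, Real.norm_eq_abs, abs_of_pos (by positivity)] at hsum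
  set T := ‖∑ n ∈ S, w n * ((P2 (Int.fract (x n + δ)) - P2 (Int.fract (x n)) : ℝ) : ℂ)‖ with hT
  have h2 : Real.pi * (Real.pi * T) ≤ Real.pi * (2 * δ * K * E + S.card / K) := by
    calc Real.pi * (Real.pi * T) = Real.pi ^ 2 * T := by ring
      _ ≤ 2 * Real.pi * δ * K * E + 2 * S.card / K := hsum
      _ ≤ Real.pi * (2 * δ * K * E + S.card / K) := by
          have : 0 ≤ (S.card : ℝ) / K := by positivity
          have e1 : 2 * (S.card : ℝ) / K = 2 * (S.card / K) := by ring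
          rw [e1]
          nlinarith
  have h3 : Real.pi * T ≤ 2 * δ * K * E + S.card / K := le_of_mul_le_mul_left h2 (by positivity)
  have hT0 : 0 ≤ T := norm_nonneg _
  nlinarith

/-- **Weighted sawtooth sums.** -/
theorem wsaw {ι : Type} (S : Finset ι) (w : ι → ℂ) (hw : ∀ n ∈ S, ‖w n‖ ≤ 1) (x : ι → ℝ) (δ : ℝ)
    (hδ0 : 0 < δ) (hδ1 : δ ≤ 1) (K : ℕ) (hK : 1 ≤ K) (E E' : ℝ)
    (hE : ∀ h : ℤ, h ≠ 0 → |h| ≤ K → ‖∑ n ∈ S, w n * e (h * x n)‖ ≤ E)
    (hE' : ∀ h : ℤ, h ≠ 0 → |h| ≤ K → ‖∑ n ∈ S, e (h * x n)‖ ≤ E') :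
    ‖∑ n ∈ S, w n * (psi (x n) : ℂ)‖ ≤
      K * E + 2 * K * E' + 3 * (S.card / (K * δ)) + 3 * (S.card * δ) := by
  have hK0 : (0 : ℝ) < K := by exact_mod_cast hK
  have hK1 : (1 : ℝ) ≤ K := by exact_mod_cast hK
  have hE'0 : 0 ≤ E' := (norm_nonneg _).trans (hE' 1 one_ne_zero (by simpa using hK))
  set Phi : ι → ℝ := fun n => (P2 (Int.fract (x n + δ)) - P2 (Int.fract (x n))) / (2 * δ) with hPhi
  -- decomposition
  have h1 : ∑ n ∈ S, w n * (psi (x n) : ℂ) = ∑ n ∈ S, w n * (Phi n : ℂ) +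
      ∑ n ∈ S, w n * ((psi (x n) - Phi n : ℝ) : ℂ) := by
    rw [← sum_add_distrib]
    refine sum_congr rfl fun n _ => ?_
    push_cast; ring
  have h2 : ‖∑ n ∈ S, w n * (Phi n : ℂ)‖ ≤ K * E + S.card / (K * δ) := by
    have e1 : ∑ n ∈ S, w n * (Phi n : ℂ) = (∑ n ∈ S, w n *
        ((P2 (Int.fract (x n + δ)) - P2 (Int.fract (x n)) : ℝ) : ℂ)) / ((2 * δ : ℝ) : ℂ) := by
      rw [sum_div]
      refine sum_congr rfl fun n _ => ?_
      rw [hPhi]
      push_cast; ring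
    rw [e1, norm_div, Complex.norm_real, Real.norm_eq_abs, abs_of_pos (by positivity : 0 < 2 * δ),
      div_le_iff₀ (by positivity)]
    refine (wdiff S w hw x δ hδ0.le K hK E hE).trans ?_
    have e2 : (K * E + S.card / (K * δ)) * (2 * δ) = 2 * δ * K * E + 2 * (S.card / K) := by
      field_simp
    rw [e2]
    have : 0 ≤ (S.card : ℝ) / K := by positivity
    linarith
  have h3 : ‖∑ n ∈ S, w n * ((psi (x n) - Phi n : ℝ) : ℂ)‖ ≤
      ∑ n ∈ S, (psi (x n) - Phi n + δ / 2) + S.card * (δ / 2) := by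
    refine (norm_sum_le _ _).trans ?_
    have e1 : (S.card : ℝ) * (δ / 2) = ∑ n ∈ S, δ / 2 := by rw [sum_const, nsmul_eq_mul]
    rw [e1, ← sum_add_distrib]
    refine sum_le_sum fun n hn => ?_
    rw [norm_mul, Complex.norm_real, Real.norm_eq_abs]
    have h4 := saw_lower (x n) δ hδ0 hδ1
    have h5 : 0 ≤ psi (x n) - Phi n + δ / 2 := by
      rw [hPhi]; unfold psi; linarith
    calc ‖w n‖ * |psi (x n) - Phi n| ≤ 1 * |psi (x n) - Phi n| :=
          mul_le_mul_of_nonneg_right (hw n hn) (abs_nonneg _)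
      _ = |psi (x n) - Phi n| := one_mul _
      _ ≤ _ := by
          rw [abs_le]
          constructor <;> linarith
  have h4 : ∑ n ∈ S, (psi (x n) - Phi n + δ / 2) = ∑ n ∈ S, psi (x n) - ∑ n ∈ S, Phi n +
      S.card * (δ / 2) := by
    rw [sum_add_distrib, sum_sub_distrib, sum_const, nsmul_eq_mul]
  have hEE : ∀ h ∈ Icc 1 K, ‖∑ n ∈ S, e ((h : ℝ) * x n)‖ ≤ E' := by
    intro h hh
    rw [mem_Icc] at hh
    have := hE' (h : ℤ) (by exact_mod_cast (by omega : h ≠ 0)) (by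
      rw [abs_of_nonneg (by positivity)]; exact_mod_cast hh.2)
    push_cast at this
    exact this
  have h5 : |∑ n ∈ S, psi (x n)| ≤ K * E' + S.card / (K * δ) + S.card * δ := by
    refine (Pool.Agent.R485.Trans.saw_bound S x K hK δ hδ0 hδ1).trans ?_
    gcongr
    calc ∑ h ∈ Icc 1 K, ‖∑ n ∈ S, e (h * x n)‖ / h ≤ ∑ h ∈ Icc 1 K, E' := by
          refine sum_le_sum fun h hh => ?_
          have h1 : (1 : ℝ) ≤ h := by exact_mod_cast (mem_Icc.1 hh).1
          exact (div_le_self (norm_nonneg _) h1).trans (hEE h hh)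
      _ = K * E' := by rw [sum_const, nsmul_eq_mul, Nat.card_Icc]; push_cast; ring
  have h6 : |∑ n ∈ S, Phi n| ≤ K * E' + S.card / (K * δ) := by
    have e1 : ∑ n ∈ S, Phi n = (∑ n ∈ S, (P2 (Int.fract (x n + δ)) - P2 (Int.fract (x n)))) /
        (2 * δ) := by rw [sum_div]
    rw [e1, abs_div, abs_of_pos (by positivity : 0 < 2 * δ), div_le_iff₀ (by positivity)]
    refine (diff_bound S x δ K hK).trans ?_
    rw [abs_of_pos hδ0]
    have hpi := Real.pi_gt_three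
    have e2 : ∑ h ∈ Icc 1 K, 2 * Real.pi * δ / h * ‖∑ n ∈ S, e (h * x n)‖ ≤
        2 * Real.pi * δ * (K * E') := by
      calc ∑ h ∈ Icc 1 K, 2 * Real.pi * δ / h * ‖∑ n ∈ S, e (h * x n)‖
          ≤ ∑ h ∈ Icc 1 K, 2 * Real.pi * δ * E' := by
            refine sum_le_sum fun h hh => ?_
            have h1 : (1 : ℝ) ≤ h := by exact_mod_cast (mem_Icc.1 hh).1
            have h2 : 2 * Real.pi * δ / h ≤ 2 * Real.pi * δ := div_le_self (by positivity) h1
            exact mul_le_mul h2 (hEE h hh) (norm_nonneg _) (by positivity)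
        _ = _ := by rw [sum_const, nsmul_eq_mul, Nat.card_Icc]; push_cast; ring
    have e3 : 1 / Real.pi ^ 2 * (∑ h ∈ Icc 1 K, 2 * Real.pi * δ / h * ‖∑ n ∈ S, e (h * x n)‖ +
        2 * S.card / K) ≤ 1 / Real.pi ^ 2 * (2 * Real.pi * δ * (K * E') + 2 * S.card / K) := by
      gcongr
    refine e3.trans ?_
    have e4 : 1 / Real.pi ^ 2 * (2 * Real.pi * δ * (K * E') + 2 * S.card / K) =
        1 / Real.pi * (2 * δ * (K * E')) + 1 / Real.pi ^ 2 * (2 * (S.card / K)) := by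
      field_simp
    have e5 : (K * E' + S.card / (K * δ)) * (2 * δ) = 2 * δ * (K * E') + 2 * (S.card / K) := by
      field_simp
    rw [e4, e5]
    have a1 : 1 / Real.pi ≤ 1 := by rw [div_le_one (by positivity)]; linarith
    have a2 : 1 / Real.pi ^ 2 ≤ 1 := by rw [div_le_one (by positivity)]; nlinarith
    have a3 : 0 ≤ 2 * δ * (K * E') := by positivity
    have a4 : 0 ≤ 2 * ((S.card : ℝ) / K) := by positivity
    nlinarith
  rw [h1]
  refine (norm_add_le _ _).trans ?_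
  rw [h4] at h3
  have h7 := (abs_le.1 h5).2
  have h8 := (abs_le.1 h6).1
  have : (S.card : ℝ) * (δ / 2) = S.card * δ / 2 := by ring
  have a5 : 0 ≤ (S.card : ℝ) * δ := by positivity
  rw [this] at h3
  have e9 : (2 : ℝ) * K * E' = K * E' + K * E' := by ring
  rw [e9]
  linarith

end Pool.Agent.U349.OB
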