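import Pool.Agent.U349.OB.Saw

/-!
# Davenport's bound for the sums of `μ(n) χ(n) ψ(n y + θ)`, uniformly in `y` and `θ`
-/

set_option autoImplicit false

namespace Pool.Agent.U349.OB

open Finset Filter Topology
open Pool.Agent.H469R2.NK (e norm_e e_add e_zero conj_e)
open Pool.Agent.H373R2.T7 (muR muR_abs mu_ap sup_mu)
open Pool.Agent.H807R2.Dav (ee ee_eq ee_add norm_ee dd dd_ge dd_add_int dd_neg dd_add_ge dd_nonneg KK
  KK_le' geo_bound)

lemma ee_e (x : ℝ) : ee x = e x := ee_eq x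

/-- Abel summation -/
lemma abel_real (a f : ℕ → ℝ) (M : ℝ) (N : ℕ) (hA : ∀ y ≤ N, |∑ n ∈ Icc 1 y, a n| ≤ M) :
    |∑ n ∈ Icc 1 N, a n * f n| ≤ M * (|f N| + ∑ n ∈ Ico 1 N, |f (n + 1) - f n|) := by
  have key : ∀ y : ℕ, ∑ n ∈ Icc 1 y, a n * f n = (∑ n ∈ Icc 1 y, a n) * f y -
      ∑ n ∈ Ico 1 y, (∑ k ∈ Icc 1 n, a k) * (f (n + 1) - f n) := by
    intro y
    induction y with
    | zero => simp
    | succ y ih =>
      rw [sum_Icc_succ_top (by omega), sum_Icc_succ_top (by omega), ih]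
      rcases Nat.eq_zero_or_pos y with rfl | hy
      · simp
      · rw [sum_Ico_succ_top (by omega)]
        ring
  have hM : 0 ≤ M := (abs_nonneg _).trans (hA 0 (Nat.zero_le _))
  rw [key N, mul_add]
  refine (abs_sub _ _).trans (add_le_add ?_ ?_)
  · rw [abs_mul]
    exact mul_le_mul_of_nonneg_right (hA N le_rfl) (abs_nonneg _)
  · refine (abs_sum_le_sum_abs _ _).trans ?_
    rw [mul_sum]
    refine sum_le_sum fun n hn => ?_
    rw [abs_mul]
    exact mul_le_mul_of_nonneg_right (hA n (mem_Ico.1 hn).2.le) (abs_nonneg _)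

/-- total variation of the sawtooth function along an arithmetic progression -/
lemma tv_psi (c β : ℝ) (N : ℕ) :
    ∑ n ∈ Ico 1 N, |psi (c + ((n + 1 : ℕ) : ℝ) * β) - psi (c + (n : ℝ) * β)| ≤ 2 * (N * |β|) + 1 := by
  have h1 : ∀ t : ℝ, psi (t + β) - psi t = β - (((⌊t + β⌋ : ℤ) : ℝ) - ((⌊t⌋ : ℤ) : ℝ)) := by
    intro t
    unfold psi
    have a1 := Int.fract_add_floor (t + β)
    have a2 := Int.fract_add_floor t
    linarith
  have h2 : ∀ n : ℕ, c + ((n + 1 : ℕ) : ℝ) * β = (c + n * β) + β := by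
    intro n; push_cast; ring
  rcases Nat.lt_or_ge N 2 with hN | hN
  · have : Ico 1 N = ∅ := by
      ext n; simp only [mem_Ico, notMem_empty, iff_false]; omega
    rw [this, sum_empty]
    have := abs_nonneg β
    positivity
  have htel : ∑ n ∈ Ico 1 N, (((⌊c + ((n + 1 : ℕ) : ℝ) * β⌋ : ℤ) : ℝ) - ((⌊c + (n : ℝ) * β⌋ : ℤ) : ℝ)) =
      ((⌊c + (N : ℝ) * β⌋ : ℤ) : ℝ) - ((⌊c + ((1 : ℕ) : ℝ) * β⌋ : ℤ) : ℝ) :=
    Finset.sum_Ico_sub (fun n : ℕ => ((⌊c + (n : ℝ) * β⌋ : ℤ) : ℝ)) (by omega)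
  have hfl : ∑ n ∈ Ico 1 N, |((⌊c + ((n + 1 : ℕ) : ℝ) * β⌋ : ℤ) : ℝ) - ((⌊c + (n : ℝ) * β⌋ : ℤ) : ℝ)| ≤
      (N - 1) * |β| + 1 := by
    have b1 := Int.floor_le (c + (N : ℝ) * β)
    have b2 := Int.lt_floor_add_one (c + (N : ℝ) * β)
    have b3 := Int.floor_le (c + ((1 : ℕ) : ℝ) * β)
    have b4 := Int.lt_floor_add_one (c + ((1 : ℕ) : ℝ) * β)
    push_cast at b3 b4
    rcases le_total 0 β with hβ | hβ
    · have a1 : ∀ n ∈ Ico 1 N, |((⌊c + ((n + 1 : ℕ) : ℝ) * β⌋ : ℤ) : ℝ) - ((⌊c + (n : ℝ) * β⌋ : ℤ) : ℝ)| =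
          (((⌊c + ((n + 1 : ℕ) : ℝ) * β⌋ : ℤ) : ℝ) - ((⌊c + (n : ℝ) * β⌋ : ℤ) : ℝ)) := by
        intro n _
        rw [abs_of_nonneg]
        rw [sub_nonneg]
        have : ⌊c + (n : ℝ) * β⌋ ≤ ⌊c + ((n + 1 : ℕ) : ℝ) * β⌋ := by
          apply Int.floor_le_floor
          rw [h2 n]; linarith
        exact_mod_cast this
      rw [sum_congr rfl a1, htel, abs_of_nonneg hβ]
      push_cast
      nlinarith
    · have a1 : ∀ n ∈ Ico 1 N, |((⌊c + ((n + 1 : ℕ) : ℝ) * β⌋ : ℤ) : ℝ) - ((⌊c + (n : ℝ) * β⌋ : ℤ) : ℝ)| =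
          -(((⌊c + ((n + 1 : ℕ) : ℝ) * β⌋ : ℤ) : ℝ) - ((⌊c + (n : ℝ) * β⌋ : ℤ) : ℝ)) := by
        intro n _
        rw [abs_of_nonpos]
        rw [sub_nonpos]
        have : ⌊c + ((n + 1 : ℕ) : ℝ) * β⌋ ≤ ⌊c + (n : ℝ) * β⌋ := by
          apply Int.floor_le_floor
          rw [h2 n]; linarith
        exact_mod_cast this
      rw [sum_congr rfl a1, sum_neg_distrib, htel, abs_of_nonpos hβ]
      push_cast
      nlinarith
  calc ∑ n ∈ Ico 1 N, |psi (c + ((n + 1 : ℕ) : ℝ) * β) - psi (c + (n : ℝ) * β)|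
      ≤ ∑ n ∈ Ico 1 N, (|β| + |((⌊c + ((n + 1 : ℕ) : ℝ) * β⌋ : ℤ) : ℝ) - ((⌊c + (n : ℝ) * β⌋ : ℤ) : ℝ)|) := by
        refine sum_le_sum fun n _ => ?_
        rw [h2 n, h1]
        exact abs_sub _ _
    _ = (N - 1) * |β| + ∑ n ∈ Ico 1 N, |((⌊c + ((n + 1 : ℕ) : ℝ) * β⌋ : ℤ) : ℝ) - ((⌊c + (n : ℝ) * β⌋ : ℤ) : ℝ)| := by
        rw [sum_add_distrib, sum_const, nsmul_eq_mul, Nat.card_Ico]
        congr 2
        rw [Nat.cast_sub (by omega)]; simp
    _ ≤ _ := by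
        have := abs_nonneg β
        nlinarith

lemma psi_add_int (t : ℝ) (m : ℤ) : psi (t + m) = psi t := by
  unfold psi; rw [Int.fract_add_intCast]

/-- the major arcs -/
lemma major (c : ℕ) (hc : 0 < c) (chi : ℕ → ℂ) (hper : ∀ n, chi (n % c) = chi n)
    (hbd : ∀ n, ‖chi n‖ ≤ 1) (N q : ℕ) (hq : 1 ≤ q) (a : ℤ) (β θ M : ℝ)
    (hM : ∀ r y : ℕ, y ≤ N → |∑ n ∈ (Icc 1 y).filter (fun n => n ≡ r [MOD (q * c)]), muR n| ≤ M) :
    ‖∑ n ∈ Icc 1 N, (((muR n : ℝ) : ℂ) * chi n) * (psi (n * ((a : ℝ) / q + β) + θ) : ℂ)‖ ≤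
      (q * c : ℕ) * (M * (2 * (N * |β|) + 2)) := by
  have hq0 : (q : ℝ) ≠ 0 := by
    have : (0 : ℝ) < q := by exact_mod_cast hq
    exact this.ne'
  have hQ : 0 < q * c := Nat.mul_pos hq hc
  have h1 : ∑ n ∈ Icc 1 N, (((muR n : ℝ) : ℂ) * chi n) * (psi (n * ((a : ℝ) / q + β) + θ) : ℂ) =
      ∑ r ∈ range (q * c), chi r * ((∑ n ∈ Icc 1 N, (if n ≡ r [MOD (q * c)] then muR n else 0) *
        psi ((r * ((a : ℝ) / q) + θ) + n * β) : ℝ) : ℂ) := by
    rw [← sum_fiberwise_of_maps_to (s := Icc 1 N) (t := range (q * c))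
      (g := fun n => n % (q * c)) (fun n _ => mem_range.2 (Nat.mod_lt _ hQ))]
    refine sum_congr rfl fun r hr => ?_
    rw [mem_range] at hr
    push_cast
    rw [mul_sum, sum_filter]
    refine sum_congr rfl fun n _ => ?_
    have hiff : (n % (q * c) = r) ↔ n ≡ r [MOD (q * c)] := by
      unfold Nat.ModEq
      rw [Nat.mod_eq_of_lt hr]
    by_cases h : n % (q * c) = r
    · rw [if_pos h, if_pos (hiff.1 h)]
      have h2 : chi n = chi r := by
        rw [← hper n, ← hper r]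
        congr 1
        have := hiff.1 h
        exact Nat.ModEq.of_mul_left q this
      have h3 : psi (n * ((a : ℝ) / q + β) + θ) = psi ((r * ((a : ℝ) / q) + θ) + n * β) := by
        obtain ⟨m, hm⟩ : ∃ m : ℤ, (n : ℤ) - r = m * q := by
          have h4 : n ≡ r [MOD q] := Nat.ModEq.of_mul_right c (hiff.1 h)
          have h5 : ((q : ℤ)) ∣ (n : ℤ) - r := by
            have := (Nat.modEq_iff_dvd.1 h4.symm)
            exact this
          obtain ⟨m, hm⟩ := h5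
          exact ⟨m, by rw [hm]; ring⟩
        have h6 : (n : ℝ) = r + m * q := by
          have : ((n : ℤ) : ℝ) = ((r + m * q : ℤ) : ℝ) := by
            congr 1; linarith
          push_cast at this
          exact this
        have h7 : n * ((a : ℝ) / q + β) + θ = ((r * ((a : ℝ) / q) + θ) + n * β) + ((m * a : ℤ) : ℝ) := by
          have : (n : ℝ) * ((a : ℝ) / q) = r * ((a : ℝ) / q) + m * a := by
            rw [h6]; field_simp
          push_cast
          rw [mul_add, this]; ring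
        rw [h7, psi_add_int]
      rw [h2, h3]
      ring
    · rw [if_neg h, if_neg (fun h' => h (hiff.2 h'))]
      simp
  rw [h1]
  refine (norm_sum_le _ _).trans ?_
  have h2 : ∀ r ∈ range (q * c), ‖chi r * ((∑ n ∈ Icc 1 N, (if n ≡ r [MOD (q * c)] then muR n else 0) *
        psi ((r * ((a : ℝ) / q) + θ) + n * β) : ℝ) : ℂ)‖ ≤ M * (2 * (N * |β|) + 2) := by
    intro r _
    rw [norm_mul, Complex.norm_real, Real.norm_eq_abs]
    have h3 := abel_real (fun n => if n ≡ r [MOD (q * c)] then muR n else 0)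
      (fun n => psi ((r * ((a : ℝ) / q) + θ) + n * β)) M N (by
        intro y hy
        have := hM r y hy
        rwa [sum_filter] at this)
    have h4 := tv_psi (r * ((a : ℝ) / q) + θ) β N
    have hM0 : 0 ≤ M := (abs_nonneg _).trans (hM 0 0 (Nat.zero_le _))
    have h5 := abs_psi_le ((r * ((a : ℝ) / q) + θ) + N * β)
    calc ‖chi r‖ * |∑ n ∈ Icc 1 N, (if n ≡ r [MOD (q * c)] then muR n else 0) *
        psi ((r * ((a : ℝ) / q) + θ) + n * β)| ≤ 1 * _ := by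
          exact mul_le_mul (hbd r) h3 (abs_nonneg _) zero_le_one
      _ ≤ _ := by
          rw [one_mul]
          refine mul_le_mul_of_nonneg_left ?_ hM0
          linarith
  refine (sum_le_sum h2).trans ?_
  rw [sum_const, nsmul_eq_mul, card_range]

/-- geometric sums away from the integers -/
lemma geo (N : ℕ) (q : ℕ) (hq : 1 ≤ q) (a : ℤ) (hcop : IsCoprime a (q : ℤ)) (β θ : ℝ) (h : ℤ)
    (hh0 : h ≠ 0) (hh : 2 * |h| ≤ q) (hβ : |(h : ℝ) * β| ≤ 1 / (4 * q)) :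
    ‖∑ n ∈ Icc 1 N, e (h * (n * ((a : ℝ) / q + β) + θ))‖ ≤ 3 * q := by
  have hq0 : (0 : ℝ) < q := by exact_mod_cast hq
  have h1 : ∑ n ∈ Icc 1 N, e (h * (n * ((a : ℝ) / q + β) + θ)) =
      e (h * θ) * ∑ n ∈ Ico 1 (N + 1), ee (n * (h * ((a : ℝ) / q) + h * β)) := by
    rw [mul_sum]
    have : Icc 1 N = Ico 1 (N + 1) := by ext n; simp only [mem_Icc, mem_Ico]; omega
    rw [this]
    refine sum_congr rfl fun n _ => ?_
    rw [ee_e, ← e_add]
    congr 1
    ring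
  rw [h1, norm_mul, norm_e, one_mul]
  have hdd : 2 / (q : ℝ) ≤ dd (h * ((a : ℝ) / q) + h * β) := by
    have h2 := dd_add_ge (h * ((a : ℝ) / q)) (h * β)
    have h3 : 4 / (q : ℝ) ≤ dd (h * ((a : ℝ) / q)) := by
      -- `h a / q = m + r / q`
      set r : ℤ := (h * a) % q with hr
      set m : ℤ := (h * a) / q with hm
      have hqz : (0 : ℤ) < q := by exact_mod_cast hq
      have e1 : h * a = r + q * m := by rw [hr, hm]; exact (Int.emod_add_mul_ediv _ _).symm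
      have e2 : (h : ℝ) * ((a : ℝ) / q) = (r : ℝ) / q + m := by
        have : ((h * a : ℤ) : ℝ) = ((r + q * m : ℤ) : ℝ) := by rw [e1]
        push_cast at this
        rw [← mul_div_assoc, this]
        field_simp
      have hr0 : 0 ≤ r := Int.emod_nonneg _ hqz.ne'
      have hrq : r < q := Int.emod_lt_of_pos _ hqz
      have hrne : r ≠ 0 := by
        intro h0
        have hdvd : (q : ℤ) ∣ h * a := Int.dvd_of_emod_eq_zero h0
        have hdvd2 : (q : ℤ) ∣ h := (hcop.symm.dvd_of_dvd_mul_right hdvd)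
        have := Int.le_of_dvd (abs_pos.2 hh0) ((dvd_abs _ _).2 hdvd2)
        have h5 : 0 < |h| := abs_pos.2 hh0
        linarith
      have hr1 : 1 ≤ r := by omega
      have hr1R : (1 : ℝ) ≤ r := by exact_mod_cast hr1
      have hrqR : (r : ℝ) + 1 ≤ q := by exact_mod_cast hrq
      rw [e2, dd_add_int]
      refine le_trans ?_ (dd_ge (div_nonneg (by linarith) hq0.le) (by rw [div_le_one hq0]; linarith))
      have : 1 / (q : ℝ) ≤ min ((r : ℝ) / q) (1 - (r : ℝ) / q) := by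
        refine le_min ?_ ?_
        · gcongr
        · rw [le_sub_iff_add_le, ← add_div, div_le_one hq0]; linarith
      calc 4 / (q : ℝ) = 4 * (1 / q) := by ring
        _ ≤ _ := by linarith
    have h4 : 2 * Real.pi * |(h : ℝ) * β| ≤ 2 / q := by
      have hpi := Real.pi_lt_four
      have hpi0 := Real.pi_pos
      calc 2 * Real.pi * |(h : ℝ) * β| ≤ 2 * Real.pi * (1 / (4 * q)) := by gcongr
        _ ≤ 2 * 4 * (1 / (4 * q)) := by gcongr
        _ = _ := by field_simp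
    have : 4 / (q : ℝ) = 2 / q + 2 / q := by ring
    linarith
  refine (geo_bound 1 (N + 1) (by omega) (M := N) (by push_cast; linarith) _).trans ?_
  refine (KK_le' (Nat.cast_nonneg _) (by positivity) hdd).trans ?_
  rw [div_div_eq_mul_div]
  linarith

/-- exponential sums with weights `μ χ` -/
lemma exp_chi (c : ℕ) (chi v : ℕ → ℂ)
    (hadd : ∀ n, 1 ≤ n → chi n = ∑ j ∈ range c, v j * e (-(n * j / c))) (N : ℕ) (B : ℝ)
    (hB : ∀ α : ℝ, ‖∑ n ∈ Icc 1 N, ((muR n : ℝ) : ℂ) * ee ((n : ℝ) * α)‖ ≤ B) (y θ h : ℝ) :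
    ‖∑ n ∈ Icc 1 N, (((muR n : ℝ) : ℂ) * chi n) * e (h * (n * y + θ))‖ ≤
      (∑ j ∈ range c, ‖v j‖) * B := by
  have h1 : ∑ n ∈ Icc 1 N, (((muR n : ℝ) : ℂ) * chi n) * e (h * (n * y + θ)) =
      ∑ j ∈ range c, (v j * e (h * θ)) * ∑ n ∈ Icc 1 N, ((muR n : ℝ) : ℂ) *
        ee ((n : ℝ) * (h * y - j / c)) := by
    have h2 : ∀ n ∈ Icc 1 N, (((muR n : ℝ) : ℂ) * chi n) * e (h * (n * y + θ)) =
        ∑ j ∈ range c, (v j * e (h * θ)) * (((muR n : ℝ) : ℂ) * ee ((n : ℝ) * (h * y - j / c))) := by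
      intro n hn
      rw [hadd n (mem_Icc.1 hn).1, mul_sum, sum_mul]
      refine sum_congr rfl fun j _ => ?_
      rw [ee_e]
      have e1 : e (h * (n * y + θ)) * e (-(n * j / c)) = e (h * θ) * e ((n : ℝ) * (h * y - j / c)) := by
        rw [← e_add, ← e_add]; congr 1; ring
      linear_combination (((muR n : ℝ) : ℂ) * v j) * e1
    rw [sum_congr rfl h2, sum_comm]
    refine sum_congr rfl fun j _ => ?_
    rw [mul_sum]
  rw [h1, sum_mul]
  refine (norm_sum_le _ _).trans (sum_le_sum fun j _ => ?_)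
  rw [norm_mul, norm_mul, norm_e, mul_one]
  exact mul_le_mul_of_nonneg_left (hB _) (norm_nonneg _)

/-- **Davenport's bound**, uniformly in `y` and `θ` -/
theorem unif (c : ℕ) (hc : 0 < c) (chi v : ℕ → ℂ) (hper : ∀ n, chi (n % c) = chi n)
    (hbd : ∀ n, ‖chi n‖ ≤ 1)
    (hadd : ∀ n, 1 ≤ n → chi n = ∑ j ∈ range c, v j * e (-(n * j / c))) :
    ∃ N0 : ℕ, ∀ N : ℕ, N0 ≤ N → ∀ y θ : ℝ,
      ‖∑ n ∈ Icc 1 N, (((muR n : ℝ) : ℂ) * chi n) * (psi (n * y + θ) : ℂ)‖ ≤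
        N / Real.log N ^ 2 := by
  set V : ℝ := ∑ j ∈ range c, ‖v j‖ with hV
  have hV0 : 0 ≤ V := sum_nonneg fun _ _ => norm_nonneg _
  obtain ⟨m1, hsup⟩ := sup_mu 9
  obtain ⟨m2, hap⟩ := mu_ap 7 18
  obtain ⟨m3, h3⟩ := Pool.Agent.H373R2.T7.ev_log' 15 8
  obtain ⟨m4, h4⟩ := Pool.Agent.H373R2.T7.ev_L' (2 * V + 18 + 16 * c)
  refine ⟨max (max m1 m2) (max (max m3 m4) 4), fun N hN y θ => ?_⟩
  have hm1 : m1 ≤ N := le_trans (le_trans (le_max_left _ _) (le_max_left _ _)) hN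
  have hm2 : m2 ≤ N := le_trans (le_trans (le_max_right _ _) (le_max_left _ _)) hN
  have a3 := h3 N (le_trans (le_trans (le_trans (le_max_left _ _) (le_max_left _ _)) (le_max_right _ _)) hN)
  have hL := h4 N (le_trans (le_trans (le_trans (le_max_right _ _) (le_max_left _ _)) (le_max_right _ _)) hN)
  have hN4 : 4 ≤ N := le_trans (le_trans (le_max_right _ _) (le_max_right _ _)) hN
  have hNr : (4 : ℝ) ≤ N := by exact_mod_cast hN4
  have hN0 : (0 : ℝ) < N := by linarith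
  have hcR : (1 : ℝ) ≤ c := by exact_mod_cast hc
  set L := Real.log N with hLd
  have hL34 : 34 ≤ L := by linarith
  have hL0 : 0 < L := by linarith
  have hL1 : 1 ≤ L := by linarith
  have hsN : √(N : ℝ) ≤ N := by
    rw [Real.sqrt_le_left (by positivity)]; nlinarith
  have hb : 8 * L ^ 15 ≤ N := a3.trans hsN
  set K : ℕ := ⌈L ^ 6⌉₊ with hK
  have hL6 : 1 ≤ L ^ 6 := one_le_pow₀ hL1
  have hK1 : L ^ 6 ≤ K := Nat.le_ceil _
  have hK2 : (K : ℝ) ≤ 2 * L ^ 6 := by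
    have := (Nat.ceil_lt_add_one (by positivity : 0 ≤ L ^ 6)).le
    linarith
  have hKpos : 1 ≤ K := by
    have : (1 : ℝ) ≤ K := hL6.trans hK1
    exact_mod_cast this
  have hKR : (1 : ℝ) ≤ K := by exact_mod_cast hKpos
  set Q : ℕ := ⌊(N : ℝ) / L ^ 9⌋₊ with hQ
  have hL9 : 0 < L ^ 9 := by positivity
  have hNL : 8 * L ^ 6 ≤ N / L ^ 9 := by
    rw [le_div_iff₀ hL9]
    calc (8 : ℝ) * L ^ 6 * L ^ 9 = 8 * L ^ 15 := by ring
      _ ≤ (N : ℝ) := hb
  have hQpos : 0 < Q := by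
    rw [hQ, Nat.floor_pos]; linarith
  have hQlt : (N : ℝ) / L ^ 9 < Q + 1 := Nat.lt_floor_add_one _
  have hQle : (Q : ℝ) ≤ N / L ^ 9 := Nat.floor_le (by positivity)
  obtain ⟨r, hr1, hr2⟩ := Real.exists_rat_abs_sub_le_and_den_le y hQpos
  set q : ℕ := r.den with hq
  have hq1 : 1 ≤ q := r.den_pos
  have hq0 : (0 : ℝ) < q := by exact_mod_cast hq1
  have hrq : ((r : ℚ) : ℝ) = (r.num : ℝ) / q := by
    rw [hq]; exact_mod_cast (Rat.num_div_den r).symm
  rw [hrq] at hr1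
  have hcop : IsCoprime r.num (q : ℤ) := by
    rw [Int.isCoprime_iff_gcd_eq_one]
    have := r.reduced
    rw [Nat.Coprime] at this
    rw [Int.gcd]
    simpa using this
  have hqQ : (q : ℝ) ≤ N / L ^ 9 := by
    have h1 : (q : ℝ) ≤ Q := by exact_mod_cast hr2
    exact h1.trans hQle
  set β : ℝ := y - (r.num : ℝ) / q with hβ
  have hy : y = (r.num : ℝ) / q + β := by rw [hβ]; ring
  have hβ1 : |β| ≤ 1 / ((Q + 1) * q) := hr1
  by_cases hcase : 2 * K ≤ q
  · -- minor arcs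
    have hw : ∀ n ∈ Icc 1 N, ‖((muR n : ℝ) : ℂ) * chi n‖ ≤ 1 := by
      intro n _
      rw [norm_mul, Complex.norm_real, Real.norm_eq_abs]
      exact mul_le_one₀ (muR_abs n) (norm_nonneg _) (hbd n)
    have hE : ∀ h : ℤ, h ≠ 0 → |h| ≤ K → ‖∑ n ∈ Icc 1 N, (((muR n : ℝ) : ℂ) * chi n) *
        e (h * ((n : ℝ) * y + θ))‖ ≤ V * (N / L ^ 9) := fun h _ _ =>
      exp_chi c chi v hadd N (N / L ^ 9) (hsup N hm1) y θ h
    have hE' : ∀ h : ℤ, h ≠ 0 → |h| ≤ K → ‖∑ n ∈ Icc 1 N, e (h * ((n : ℝ) * y + θ))‖ ≤ 3 * q := by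
      intro h hh0 hh
      rw [hy]
      refine geo N q hq1 r.num hcop β θ h hh0 ?_ ?_
      · have : (2 * K : ℤ) ≤ q := by exact_mod_cast hcase
        linarith
      · rw [abs_mul]
        have hhR : |(h : ℝ)| ≤ K := by exact_mod_cast hh
        have h5 : 4 * (K : ℝ) ≤ Q + 1 := by
          have : 4 * (K : ℝ) ≤ 8 * L ^ 6 := by linarith
          linarith
        calc |(h : ℝ)| * |β| ≤ K * (1 / ((Q + 1) * q)) := by gcongr
          _ ≤ 1 / (4 * q) := by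
              rw [mul_one_div, div_le_div_iff₀ (by positivity) (by positivity)]
              nlinarith
    have hmain := wsaw (Icc 1 N) (fun n => ((muR n : ℝ) : ℂ) * chi n) hw
      (fun n => (n : ℝ) * y + θ) (1 / L ^ 3) (by positivity)
      (by rw [div_le_one (by positivity)]; exact one_le_pow₀ hL1) K hKpos _ _ hE hE'
    refine hmain.trans ?_
    rw [Nat.card_Icc, Nat.add_sub_cancel]
    have b1 : (K : ℝ) * (V * (N / L ^ 9)) ≤ 2 * V * (N / L ^ 3) := by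
      calc (K : ℝ) * (V * (N / L ^ 9)) ≤ (2 * L ^ 6) * (V * (N / L ^ 9)) := by gcongr
        _ = _ := by field_simp
    have b2 : 2 * (K : ℝ) * (3 * q) ≤ 12 * (N / L ^ 3) := by
      calc 2 * (K : ℝ) * (3 * q) ≤ 2 * (2 * L ^ 6) * (3 * (N / L ^ 9)) := by gcongr
        _ = _ := by field_simp; norm_num
    have b3 : 3 * ((N : ℝ) / (K * (1 / L ^ 3))) ≤ 3 * (N / L ^ 3) := by
      have : (N : ℝ) / (K * (1 / L ^ 3)) ≤ N / (L ^ 6 * (1 / L ^ 3)) := by gcongr
      have e1 : (N : ℝ) / (L ^ 6 * (1 / L ^ 3)) = N / L ^ 3 := by field_simp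
      linarith
    have b4 : 3 * ((N : ℝ) * (1 / L ^ 3)) = 3 * (N / L ^ 3) := by ring
    rw [b4]
    have b5 : (2 * V + 18) * ((N : ℝ) / L ^ 3) ≤ N / L ^ 2 := by
      calc (2 * V + 18) * ((N : ℝ) / L ^ 3) ≤ L * (N / L ^ 3) := by
            apply mul_le_mul_of_nonneg_right _ (by positivity)
            linarith
        _ = _ := by field_simp
    linarith
  · -- major arcs
    push Not at hcase
    have hq2 : (q : ℝ) ≤ 4 * L ^ 6 := by
      have : (q : ℝ) ≤ 2 * K := by exact_mod_cast hcase.le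
      linarith
    have hQc : 1 ≤ q * c := Nat.mul_pos hq1 hc
    have hQc2 : ((q * c : ℕ) : ℝ) ≤ 4 * c * L ^ 6 := by
      push_cast
      calc (q : ℝ) * c ≤ (4 * L ^ 6) * c := by gcongr
        _ = _ := by ring
    have hQc3 : ((q * c : ℕ) : ℝ) ≤ L ^ 7 := by
      refine hQc2.trans ?_
      calc 4 * (c : ℝ) * L ^ 6 ≤ L * L ^ 6 := by
            apply mul_le_mul_of_nonneg_right _ (by positivity)
            linarith
        _ = _ := by ring
    have hM := hap N hm2 (q * c) hQc hQc3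
    rw [hy]
    refine (major c hc chi hper hbd N q hq1 r.num β θ (N / L ^ 18) (fun r y hy => hM r y hy)).trans ?_
    have hNβ : (N : ℝ) * |β| ≤ L ^ 9 := by
      have h1 : 1 / (((Q : ℝ) + 1) * q) ≤ 1 / (N / L ^ 9) := by
        apply one_div_le_one_div_of_le (by positivity)
        have : (1 : ℝ) ≤ q := by exact_mod_cast hq1
        nlinarith
      calc (N : ℝ) * |β| ≤ N * (1 / (N / L ^ 9)) := by
            gcongr
            exact hβ1.trans h1
        _ = _ := by field_simp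
    have hL9' : 1 ≤ L ^ 9 := one_le_pow₀ hL1
    calc ((q * c : ℕ) : ℝ) * (N / L ^ 18 * (2 * (N * |β|) + 2)) ≤
        (4 * c * L ^ 6) * (N / L ^ 18 * (4 * L ^ 9)) := by
          gcongr
          linarith
      _ = (16 * c / L) * (N / L ^ 2) := by field_simp; norm_num
      _ ≤ 1 * (N / L ^ 2) := by
          apply mul_le_mul_of_nonneg_right _ (by positivity)
          rw [div_le_one hL0]
          linarith
      _ = _ := one_mul _

end Pool.Agent.U349.OB
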