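import Pool.Agent.U349.OB.Char

/-!
# Exponential sums, cells and words
-/

set_option autoImplicit false

namespace Pool.Agent.U349.OB

open Finset Filter Topology
open Pool.Agent.H469R2.NK (e norm_e e_add e_zero conj_e)

/-- small exponential sums give the right number of points in every interval -/
theorem count_of_weyl (η : ℝ) (hη : 0 < η) : ∃ H : ℕ, ∃ δ : ℝ, 0 < δ ∧
    ∀ {ι : Type} (S : Finset ι) (y : ι → ℝ),
      (∀ h : ℕ, 1 ≤ h → h ≤ H → ‖∑ i ∈ S, e (h * y i)‖ ≤ δ * #S) →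
      ∀ α β : ℝ, 0 ≤ α → α < β → β ≤ 1 →
        |((#{i ∈ S | α ≤ Int.fract (y i) ∧ Int.fract (y i) < β} : ℕ) : ℝ) - (β - α) * #S| ≤
          η * #S := by
  set δ' : ℝ := min (η / 6) 1 with hδ'
  have hδ'0 : 0 < δ' := lt_min (by positivity) one_pos
  have hδ'1 : δ' ≤ 1 := min_le_right _ _
  have hδ'2 : δ' ≤ η / 6 := min_le_left _ _
  obtain ⟨K, hK⟩ := exists_nat_gt (6 / (η * δ'))
  have hK0 : (0 : ℝ) < K := lt_of_le_of_lt (by positivity) hK
  have hK1 : 1 ≤ K := by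
    rcases Nat.eq_zero_or_pos K with h | h
    · rw [h] at hK0; simp at hK0
    · exact h
  refine ⟨K, η / (6 * K), by positivity, ?_⟩
  intro ι S y hS α β hα hαβ hβ
  have hS0 : (0 : ℝ) ≤ #S := Nat.cast_nonneg _
  have key : ∀ a : ℝ, |∑ i ∈ S, (Int.fract (y i - a) - 1 / 2)| ≤ η / 2 * #S := by
    intro a
    refine (Pool.Agent.R485.Trans.saw_bound S (fun i => y i - a) K hK1 δ' hδ'0 hδ'1).trans ?_
    have h1 : ∀ h ∈ Icc 1 K, ‖∑ i ∈ S, e (h * (y i - a))‖ / h ≤ η / (6 * K) * #S := by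
      intro h hh
      rw [mem_Icc] at hh
      have h2 : ∑ i ∈ S, e (h * (y i - a)) = (∑ i ∈ S, e (h * y i)) * e (-(h * a)) := by
        rw [sum_mul]
        refine sum_congr rfl fun i _ => ?_
        rw [← e_add]; congr 1; ring
      rw [h2, norm_mul, norm_e, mul_one]
      have h3 : (1 : ℝ) ≤ h := by exact_mod_cast hh.1
      exact (div_le_self (norm_nonneg _) h3).trans (hS h hh.1 hh.2)
    have h2 : ∑ h ∈ Icc 1 K, ‖∑ i ∈ S, e (h * (y i - a))‖ / h ≤ η / 6 * #S := by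
      refine (sum_le_sum h1).trans (le_of_eq ?_)
      rw [sum_const, nsmul_eq_mul, Nat.card_Icc]
      have : ((K + 1 - 1 : ℕ) : ℝ) = K := by simp
      rw [this]; field_simp
    have h3 : (#S : ℝ) / (K * δ') ≤ η / 6 * #S := by
      rw [div_le_iff₀ (by positivity)]
      have : 6 / (η * δ') < K := hK
      rw [div_lt_iff₀ (by positivity)] at this
      nlinarith
    have h4 : (#S : ℝ) * δ' ≤ η / 6 * #S := by nlinarith
    have h5 : η / 6 * (#S : ℝ) + η / 6 * #S + η / 6 * #S = η / 2 * #S := by ring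
    linarith
  have h1 : ((#{i ∈ S | α ≤ Int.fract (y i) ∧ Int.fract (y i) < β} : ℕ) : ℝ) - (β - α) * #S =
      (∑ i ∈ S, (Int.fract (y i - β) - 1 / 2)) - ∑ i ∈ S, (Int.fract (y i - α) - 1 / 2) := by
    rw [← sum_sub_distrib, ← sum_congr rfl fun i _ =>
      Pool.Agent.R485.Trans.indicator_eq (y i) α β hα hαβ hβ]
    rw [sum_sub_distrib, sum_boole, sum_const, nsmul_eq_mul]
    ring
  rw [h1]
  have := (abs_sub (∑ i ∈ S, (Int.fract (y i - β) - 1 / 2))
    (∑ i ∈ S, (Int.fract (y i - α) - 1 / 2))).trans (add_le_add (key β) (key α))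
  linarith

lemma cell_iff (M : ℕ) (hM : 0 < M) (W : ℕ) (hW : W < M) (y : ℝ) :
    ⌊(M : ℝ) * y⌋ % M = (W : ℤ) ↔ (W : ℝ) / M ≤ Int.fract y ∧ Int.fract y < ((W + 1 : ℕ) : ℝ) / M := by
  have hMR : (0 : ℝ) < M := by exact_mod_cast hM
  have h1 : ⌊(M : ℝ) * y⌋ = ⌊(M : ℝ) * Int.fract y⌋ + M * ⌊y⌋ := by
    have : (M : ℝ) * y = (M : ℝ) * Int.fract y + ((M * ⌊y⌋ : ℤ) : ℝ) := by
      have := Int.fract_add_floor y
      push_cast
      rw [← mul_add, this]
    rw [this, Int.floor_add_intCast]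
  have h2 : 0 ≤ ⌊(M : ℝ) * Int.fract y⌋ := Int.floor_nonneg.2 (by
    have := Int.fract_nonneg y; positivity)
  have h3 : ⌊(M : ℝ) * Int.fract y⌋ < M := by
    rw [Int.floor_lt]
    push_cast
    have := Int.fract_lt_one y
    nlinarith
  rw [h1, Int.add_mul_emod_self_left, Int.emod_eq_of_lt h2 h3, Int.floor_eq_iff,
    div_le_iff₀ hMR, lt_div_iff₀ hMR]
  push_cast
  rw [mul_comm (M : ℝ)]

lemma norm_e_sub_one (t : ℝ) : ‖e t - 1‖ ≤ 2 * Real.pi * |t| := by
  unfold e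
  have h := Real.norm_exp_I_mul_ofReal_sub_one_le (x := 2 * Real.pi * t)
  have h2 : Complex.exp (Complex.I * ((2 * Real.pi * t : ℝ) : ℂ)) =
      Complex.exp (((2 * Real.pi * t : ℝ) : ℂ) * Complex.I) := by
    congr 1; ring
  rw [h2] at h
  refine h.trans (le_of_eq ?_)
  rw [Real.norm_eq_abs, abs_mul, abs_of_pos Real.two_pi_pos]

/-- counts in cells give exponential sums -/
theorem weyl_of_cells {ι : Type} (S : Finset ι) (y : ι → ℝ) (M : ℕ) (hM : 0 < M) (h : ℕ)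
    (hh : ¬ M ∣ h) (δ : ℝ)
    (hS : ∀ W : ℕ, W < M → |((#{i ∈ S | ⌊(M : ℝ) * y i⌋ % M = (W : ℤ)} : ℕ) : ℝ) - #S / M| ≤ δ * #S) :
    ‖∑ i ∈ S, e (h * y i)‖ ≤ (M * δ + 2 * Real.pi * h / M) * #S := by
  have hMR : (0 : ℝ) < M := by exact_mod_cast hM
  have hMz : (0 : ℤ) < M := by exact_mod_cast hM
  set Wf : ι → ℕ := fun i => (⌊(M : ℝ) * y i⌋ % M).toNat with hWf
  have hWlt : ∀ i, Wf i < M := by
    intro i
    have := Int.emod_lt_of_pos ⌊(M : ℝ) * y i⌋ hMz
    have := Int.emod_nonneg ⌊(M : ℝ) * y i⌋ hMz.ne'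
    simp only [hWf]; omega
  have hWeq : ∀ i, ((Wf i : ℕ) : ℤ) = ⌊(M : ℝ) * y i⌋ % M := by
    intro i
    have := Int.emod_nonneg ⌊(M : ℝ) * y i⌋ hMz.ne'
    simp only [hWf]; omega
  have h1 : ∀ i, ‖e (h * y i) - e ((h : ℤ) * (Wf i : ℕ) / M)‖ ≤ 2 * Real.pi * h / M := by
    intro i
    set m : ℤ := ⌊(M : ℝ) * y i⌋ with hm
    set r : ℝ := Int.fract ((M : ℝ) * y i) with hr
    have hr0 : 0 ≤ r := Int.fract_nonneg _
    have hr1 : r < 1 := Int.fract_lt_one _
    have hmr : (M : ℝ) * y i = m + r := (Int.floor_add_fract _).symm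
    have hmq : (m : ℝ) = M * ((m / M : ℤ) : ℝ) + Wf i := by
      have := Int.emod_add_mul_ediv m M
      rw [← hWeq i] at this
      have h2 : (m : ℤ) = M * (m / M) + Wf i := by linarith
      exact_mod_cast h2
    have h2 : (h : ℝ) * y i = ((h : ℤ) * (Wf i : ℕ) / M : ℝ) + h * r / M + ((h * (m / M) : ℤ) : ℝ) := by
      have : y i = (m + r) / M := by rw [← hmr]; field_simp
      rw [this, hmq]; push_cast; field_simp; ring
    rw [h2, e_add, e_int, mul_one, e_add]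
    have h3 : e ((h : ℤ) * (Wf i : ℕ) / M) * e (h * r / M) - e ((h : ℤ) * (Wf i : ℕ) / M) =
        e ((h : ℤ) * (Wf i : ℕ) / M) * (e (h * r / M) - 1) := by ring
    rw [h3, norm_mul, norm_e, one_mul]
    refine (norm_e_sub_one _).trans ?_
    rw [abs_of_nonneg (by positivity), mul_div_assoc (2 * Real.pi)]
    have : (h : ℝ) * r / M ≤ h / M := by
      apply div_le_div_of_nonneg_right _ hMR.le
      have : (0 : ℝ) ≤ h := Nat.cast_nonneg _
      nlinarith
    exact mul_le_mul_of_nonneg_left this Real.two_pi_pos.le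
  have h2 : ∑ i ∈ S, e ((h : ℤ) * (Wf i : ℕ) / M) = ∑ W ∈ range M, e ((h : ℤ) * W / M) *
      ((((#{i ∈ S | ⌊(M : ℝ) * y i⌋ % M = (W : ℤ)} : ℕ) : ℝ) - #S / M : ℝ) : ℂ) := by
    have h3 : ∑ W ∈ range M, e ((h : ℤ) * W / M) *
      ((((#{i ∈ S | ⌊(M : ℝ) * y i⌋ % M = (W : ℤ)} : ℕ) : ℝ) - #S / M : ℝ) : ℂ) =
        ∑ W ∈ range M, e ((h : ℤ) * W / M) * ((#{i ∈ S | ⌊(M : ℝ) * y i⌋ % M = (W : ℤ)} : ℕ) : ℂ) := by
      have h4 : ∀ W ∈ range M, e ((h : ℤ) * W / M) *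
          ((((#{i ∈ S | ⌊(M : ℝ) * y i⌋ % M = (W : ℤ)} : ℕ) : ℝ) - #S / M : ℝ) : ℂ) =
          e ((h : ℤ) * W / M) * ((#{i ∈ S | ⌊(M : ℝ) * y i⌋ % M = (W : ℤ)} : ℕ) : ℂ) -
          e ((h : ℤ) * W / M) * ((#S : ℂ) / M) := by
        intro W _
        push_cast; ring
      rw [sum_congr rfl h4, sum_sub_distrib, ← sum_mul, orth M hM, if_neg, zero_mul, sub_zero]
      exact fun h' => hh (by exact_mod_cast h')
    rw [h3]
    have h5 : ∀ W ∈ range M, e ((h : ℤ) * W / M) *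
        ((#{i ∈ S | ⌊(M : ℝ) * y i⌋ % M = (W : ℤ)} : ℕ) : ℂ) =
        ∑ i ∈ S, if W = Wf i then e ((h : ℤ) * (Wf i : ℕ) / M) else 0 := by
      intro W _
      rw [← sum_boole, mul_sum]
      refine sum_congr rfl fun i _ => ?_
      by_cases h6 : W = Wf i
      · rw [if_pos h6, if_pos (by rw [h6, hWeq]), h6, mul_one]
      · rw [if_neg h6, if_neg, mul_zero]
        intro h7
        rw [← hWeq] at h7
        exact h6 (by exact_mod_cast h7.symm)
    rw [sum_congr rfl h5, sum_comm]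
    refine sum_congr rfl fun i _ => ?_
    rw [sum_ite_eq', if_pos (mem_range.2 (hWlt i))]
  have h3 : ∑ i ∈ S, e (h * y i) = ∑ i ∈ S, (e (h * y i) - e ((h : ℤ) * (Wf i : ℕ) / M)) +
      ∑ i ∈ S, e ((h : ℤ) * (Wf i : ℕ) / M) := by
    rw [← sum_add_distrib]
    refine sum_congr rfl fun i _ => ?_
    ring
  rw [h3]
  refine (norm_add_le _ _).trans ?_
  have h4 : ‖∑ i ∈ S, (e (h * y i) - e ((h : ℤ) * (Wf i : ℕ) / M))‖ ≤ 2 * Real.pi * h / M * #S := by
    refine (norm_sum_le _ _).trans ((sum_le_sum fun i _ => h1 i).trans (le_of_eq ?_))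
    rw [sum_const, nsmul_eq_mul, mul_comm]
  have h5 : ‖∑ i ∈ S, e ((h : ℤ) * (Wf i : ℕ) / M)‖ ≤ M * δ * #S := by
    rw [h2]
    refine (norm_sum_le _ _).trans ?_
    have h6 : ∀ W ∈ range M, ‖e ((h : ℤ) * W / M) *
      ((((#{i ∈ S | ⌊(M : ℝ) * y i⌋ % M = (W : ℤ)} : ℕ) : ℝ) - #S / M : ℝ) : ℂ)‖ ≤ δ * #S := by
      intro W hW
      rw [norm_mul, norm_e, one_mul, Complex.norm_real, Real.norm_eq_abs]
      exact hS W (mem_range.1 hW)
    refine (sum_le_sum h6).trans (le_of_eq ?_)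
    rw [sum_const, nsmul_eq_mul, card_range]; ring
  linarith

/-! ### words -/

/-- the integer with the base-`b` digits `w 0, …, w (k-1)` -/
def V (b : ℕ) : ℕ → (ℕ → ℕ) → ℕ
  | 0, _ => 0
  | k + 1, w => b * V b k w + w k

lemma V_lt (b : ℕ) (w : ℕ → ℕ) (hw : ∀ j, w j < b) (k : ℕ) : V b k w < b ^ k := by
  induction k with
  | zero => simp [V]
  | succ k ih =>
    have := hw k
    simp only [V]
    rw [pow_succ']
    calc b * V b k w + w k < b * V b k w + b := by omega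
      _ = b * (V b k w + 1) := by ring
      _ ≤ b * b ^ k := Nat.mul_le_mul_left _ ih

lemma V_surj (b : ℕ) (hb : 0 < b) (k : ℕ) : ∀ W, W < b ^ k →
    ∃ w : ℕ → ℕ, (∀ j, w j < b) ∧ V b k w = W := by
  induction k with
  | zero =>
    intro W hW
    refine ⟨fun _ => 0, fun _ => hb, ?_⟩
    simp at hW
    simp [V, hW]
  | succ k ih =>
    intro W hW
    rw [pow_succ] at hW
    obtain ⟨w, hw, hV⟩ := ih (W / b) (by rwa [Nat.div_lt_iff_lt_mul hb])
    refine ⟨fun j => if j = k then W % b else w j, ?_, ?_⟩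
    · intro j
      by_cases h : j = k
      · simp only [h, if_true]; exact Nat.mod_lt _ hb
      · simp only [h, if_false]; exact hw j
    · have hcongr : ∀ (k' : ℕ) (w₁ w₂ : ℕ → ℕ), (∀ j < k', w₁ j = w₂ j) → V b k' w₁ = V b k' w₂ := by
        intro k'
        induction k' with
        | zero => intros; rfl
        | succ k' ih' =>
          intro w₁ w₂ h
          simp only [V]
          rw [ih' w₁ w₂ (fun j hj => h j (by omega)), h k' (by omega)]
      simp only [V, if_true]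
      rw [hcongr k _ w (fun j hj => by simp [hj.ne]), hV, Nat.div_add_mod]

lemma word_iff (b : ℕ) (hb : 0 < b) (y : ℝ) (w : ℕ → ℕ) (hw : ∀ j, w j < b) (k : ℕ) :
    (∀ j < k, ⌊(b : ℝ) ^ (j + 1) * y⌋ % b = (w j : ℤ)) ↔
      ⌊((b ^ k : ℕ) : ℝ) * y⌋ % ((b ^ k : ℕ) : ℤ) = (V b k w : ℤ) := by
  have hbR : (0 : ℝ) < b := by exact_mod_cast hb
  have hbz : (0 : ℤ) < b := by exact_mod_cast hb
  induction k with
  | zero => simp [V]
  | succ k ih =>
    set Q : ℤ := ⌊((b ^ k : ℕ) : ℝ) * y⌋ with hQ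
    set A : ℤ := ⌊(b : ℝ) ^ (k + 1) * y⌋ with hA
    have hA' : ⌊((b ^ (k + 1) : ℕ) : ℝ) * y⌋ = A := by push_cast; rfl
    have hz : (b : ℝ) ^ (k + 1) * y = b * (((b ^ k : ℕ) : ℝ) * y) := by push_cast; ring
    have h1 : (b : ℤ) * Q ≤ A := by
      rw [hA, Int.le_floor, hz]
      push_cast
      exact mul_le_mul_of_nonneg_left (by have := Int.floor_le (((b ^ k : ℕ) : ℝ) * y); push_cast at this hQ; rw [hQ]; exact this) hbR.le
    have h2 : A < (b : ℤ) * (Q + 1) := by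
      rw [hA, Int.floor_lt, hz]
      push_cast
      exact mul_lt_mul_of_pos_left (by have := Int.lt_floor_add_one (((b ^ k : ℕ) : ℝ) * y); push_cast at this hQ; rw [hQ]; exact this) hbR
    obtain ⟨r, hr⟩ : ∃ r : ℤ, A = b * Q + r := ⟨A - b * Q, by ring⟩
    have hr0 : 0 ≤ r := by linarith
    have hr1 : r < b := by nlinarith
    have hAb : A % b = r := by
      rw [hr, add_comm, Int.add_mul_emod_self_left, Int.emod_eq_of_lt hr0 hr1]
    have hbk : (0 : ℤ) < ((b ^ k : ℕ) : ℤ) := by exact_mod_cast Nat.pow_pos hb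
    have hAbk : A % ((b ^ (k + 1) : ℕ) : ℤ) = b * (Q % ((b ^ k : ℕ) : ℤ)) + r := by
      have h3 := Int.emod_add_mul_ediv Q ((b ^ k : ℕ) : ℤ)
      have h4 := Int.emod_nonneg Q hbk.ne'
      have h5 := Int.emod_lt_of_pos Q hbk
      have h6 : A = (b * (Q % ((b ^ k : ℕ) : ℤ)) + r) + ((b ^ (k + 1) : ℕ) : ℤ) *
          (Q / ((b ^ k : ℕ) : ℤ)) := by
        rw [hr]
        conv_lhs => rw [← h3]
        push_cast; ring
      conv_lhs => rw [h6]
      rw [Int.add_mul_emod_self_left, Int.emod_eq_of_lt]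
      · positivity
      · have : ((b ^ (k + 1) : ℕ) : ℤ) = b * ((b ^ k : ℕ) : ℤ) := by push_cast; ring
        rw [this]
        nlinarith
    rw [hA', hAbk]
    simp only [V]
    have hwk := hw k
    constructor
    · intro h
      have h3 := ih.1 (fun j hj => h j (by omega))
      have h4 := h k (by omega)
      rw [← hA, hAb] at h4
      rw [h3, h4]
      push_cast; ring
    · intro h
      have hwkz : (w k : ℤ) < b := by exact_mod_cast hwk
      push_cast at h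
      have h3 : r = w k ∧ Q % ((b ^ k : ℕ) : ℤ) = V b k w := by
        push_cast at h ⊢
        have h5 : (b : ℤ) * (Q % (b : ℤ) ^ k - V b k w) = w k - r := by linarith
        have h6 : Q % (b : ℤ) ^ k - V b k w = 0 := by
          by_contra hne
          rcases lt_or_gt_of_ne hne with h7 | h7
          · have : Q % (b : ℤ) ^ k - V b k w ≤ -1 := by omega
            nlinarith
          · have : 1 ≤ Q % (b : ℤ) ^ k - V b k w := by omega
            have : (0 : ℤ) ≤ w k := Int.natCast_nonneg _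
            nlinarith
        rw [h6, mul_zero] at h5
        exact ⟨by linarith, by linarith⟩
      intro j hj
      rcases Nat.lt_succ_iff_lt_or_eq.1 hj with h4 | h4
      · exact ih.2 h3.2 j h4
      · rw [h4, ← hA, hAb]; exact h3.1

end Pool.Agent.U349.OB
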